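import Pool.Agent.H34.RP.Defs
import Pool.Agent.H34.LS.V2

/-!
D0: first properties of `su`, `kd`, all by induction on `m` for all `y` (unfold `su`, `kd`, `split_ifs`; compare
V11 for `qk`). `kd_card`: if `kd q S m y x ≠ 0` then `y * x ∈ S` (`bnd_apply`, `tl_apply`), so the support is mapped
injectively into `S` by `x ↦ y * x` (`Finset.card_le_card_of_injOn`).
-/

namespace Pool.Agent.H34.RP

open Pool.Agent.H34.LS

universe u

variable {G : Type u} [Group G] {q : G →₀ ℝ}

theorem su_nonneg (hq : ∀ g, 0 ≤ q g) (S : Finset G) (m : ℕ) (y : G) : 0 ≤ su q S m y := by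
  induction m generalizing y with
  | zero =>
    rw [su]
    split_ifs
    · exact zero_le_one
    · exact le_refl _
  | succ m ih =>
    rw [su]
    split_ifs
    · exact Finset.sum_nonneg fun g _ => mul_nonneg (hq g) (ih (y * g))
    · exact le_refl _

theorem su_le_one (hq : Prb q) (S : Finset G) (m : ℕ) (y : G) : su q S m y ≤ 1 := by
  induction m generalizing y with
  | zero =>
    rw [su]
    split_ifs
    · exact le_refl _
    · exact zero_le_one
  | succ m ih =>
    rw [su]
    split_ifs
    · rw [← hq.total]
      refine Finset.sum_le_sum fun g _ => ?_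
      exact mul_le_of_le_one_right (hq.nonneg g) (ih (y * g))
    · exact zero_le_one

theorem kd_nonneg (hq : ∀ g, 0 ≤ q g) (S : Finset G) (m : ℕ) (y x : G) : 0 ≤ kd q S m y x := by
  induction m generalizing y x with
  | zero =>
    rw [kd]
    split_ifs
    · classical
      rw [Finsupp.single_apply]
      split_ifs
      · exact zero_le_one
      · exact le_refl _
    · exact le_refl _
  | succ m ih =>
    rw [kd]
    split_ifs
    · exact bnd_nonneg hq (fun g z => tl_nonneg g (ih (y * g)) z) x
    · exact le_refl _

theorem tot_kd (q : G →₀ ℝ) (S : Finset G) (m : ℕ) (y : G) : tot (kd q S m y) = su q S m y := by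
  induction m generalizing y with
  | zero =>
    rw [kd, su]
    split_ifs
    · unfold tot
      rw [Finsupp.sum_single_index rfl]
    · exact Finsupp.sum_zero_index
  | succ m ih =>
    rw [kd, su]
    split_ifs
    · rw [tot_bnd]
      apply Finsupp.sum_congr
      intro g _
      rw [tot_tl, ih]
    · exact Finsupp.sum_zero_index

theorem kd_le_pw (hq : ∀ g, 0 ≤ q g) (S : Finset G) (m : ℕ) (y x : G) :
    kd q S m y x ≤ pw q m x := by
  induction m generalizing y x with
  | zero =>
    rw [kd]
    split_ifs
    · exact le_refl _
    · exact pw_nonneg hq 0 x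
  | succ m ih =>
    rw [kd]
    split_ifs
    · rw [pw]
      apply bnd_mono hq
      intro g _ z
      rw [tl_apply, tl_apply]
      exact ih (y * g) _
    · exact pw_nonneg hq (m + 1) x

private theorem D0_kd_mem (q : G →₀ ℝ) (S : Finset G) (m : ℕ) (y x : G)
    (h : kd q S m y x ≠ 0) : y * x ∈ S := by
  induction m generalizing y x with
  | zero =>
    rw [kd] at h
    split_ifs at h with hy
    · classical
      rw [Finsupp.single_apply] at h
      split_ifs at h with hx
      · rw [← hx, mul_one]
        exact hy
      · exact absurd rfl h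
    · exact absurd rfl h
  | succ m ih =>
    rw [kd] at h
    split_ifs at h with hy
    · rw [bnd_apply] at h
      obtain ⟨g, _, hg⟩ := Finset.exists_ne_zero_of_sum_ne_zero h
      have h1 := right_ne_zero_of_mul hg
      rw [tl_apply] at h1
      have h2 := ih (y * g) (g⁻¹ * x) h1
      have h3 : y * g * (g⁻¹ * x) = y * x := by group
      rw [h3] at h2
      exact h2
    · exact absurd rfl h

theorem kd_card (q : G →₀ ℝ) (S : Finset G) (m : ℕ) (y : G) :
    (kd q S m y).support.card ≤ S.card := by
  apply Finset.card_le_card_of_injOn (fun x => y * x)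
  · intro x hx
    exact D0_kd_mem q S m y x (Finsupp.mem_support_iff.1 hx)
  · intro x _ x' _ hxx
    exact mul_left_cancel hxx

end Pool.Agent.H34.RP
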