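import Pool.Agent.H34.RP.Defs
import Pool.Agent.H34.LS.V2
import Pool.Agent.H34.LS.V14

/-!
F0: elementary facts. `pw_pw`: `pw (pw P t) m = pw P (t * m)`, induction on `m` with `pw_add` (`pw P (t + t m)`; use
`pw (pw P t) (m+1) = bnd (pw P t) (fun g => tl g (pw (pw P t) m))`). `pw_log_le`: on the support of `pw P t` the value is at least
`exp (- L t)`: induction, if `pw P (t+1) x ≠ 0` there is `g` with `P g ≠ 0`, `pw P t (g⁻¹ x) ≠ 0`, and `pw P (t+1) x ≥ P g * pw P t (g⁻¹ x)`
(all terms nonnegative). `ent_ge`: sum the increments. `b_anti`: the increments are nonincreasing, so `fent (pw P n) / n` is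
nonincreasing for `n ≥ 1`: it suffices `n = m + 1`: `fent (pw P m) ≥ m * (increment at m)` since all increments before `m` are at least the
increment at `m` and `fent (pw P 0) = 0`.
-/

namespace Pool.Agent.H34.RP

open Pool.Agent.H34.LS

universe u

variable {G : Type u} [Group G] {P : G →₀ ℝ}

theorem pw_pw (P : G →₀ ℝ) (t m : ℕ) : pw (pw P t) m = pw P (t * m) := by
  induction m with
  | zero => rfl
  | succ m ih =>
    show bnd (pw P t) (fun g => tl g (pw (pw P t) m)) = pw P (t * (m + 1))
    rw [ih, ← pw_add, Nat.mul_succ, Nat.add_comm]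

theorem pw_log_le (hP : ∀ g, 0 ≤ P g) {L : ℝ} (hL : ∀ g, P g ≠ 0 → -Real.log (P g) ≤ L) (t : ℕ)
    (x : G) (hx : pw P t x ≠ 0) : -Real.log (pw P t x) ≤ L * t := by
  classical
  induction t generalizing x with
  | zero =>
    have h0 : pw P 0 x = if (1 : G) = x then (1 : ℝ) else 0 := by
      show (Finsupp.single (1 : G) (1 : ℝ)) x = _
      rw [Finsupp.single_apply]
    rw [h0] at hx ⊢
    split_ifs at hx ⊢ with h1
    · simp
    · exact absurd rfl hx
  | succ t ih =>
    have h0 : pw P (t + 1) x = ∑ g ∈ P.support, P g * pw P t (g⁻¹ * x) := by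
      show bnd P (fun g => tl g (pw P t)) x = _
      rw [bnd_apply]
      refine Finset.sum_congr rfl fun g _ => ?_
      show P g * tl g (pw P t) x = _
      rw [tl_apply]
    rw [h0] at hx ⊢
    obtain ⟨g, hg, hne⟩ := Finset.exists_ne_zero_of_sum_ne_zero hx
    have hg0 : P g ≠ 0 := left_ne_zero_of_mul hne
    have hg1 : pw P t (g⁻¹ * x) ≠ 0 := right_ne_zero_of_mul hne
    have h1 : P g * pw P t (g⁻¹ * x) ≤ ∑ g ∈ P.support, P g * pw P t (g⁻¹ * x) :=
      Finset.single_le_sum (f := fun g => P g * pw P t (g⁻¹ * x))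
        (fun y _ => mul_nonneg (hP y) (pw_nonneg hP t _)) hg
    have hpos : 0 < P g * pw P t (g⁻¹ * x) :=
      lt_of_le_of_ne (mul_nonneg (hP g) (pw_nonneg hP t _)) (Ne.symm hne)
    have h2 := Real.log_le_log hpos h1
    rw [Real.log_mul hg0 hg1] at h2
    have h3 := hL g hg0
    have h4 := ih (g⁻¹ * x) hg1
    push_cast
    linarith

private lemma F0_fent_zero : fent (pw P 0) = 0 := by
  show (Finsupp.single (1 : G) (1 : ℝ)).sum (fun _ a => Real.negMulLog a) = 0
  rw [Finsupp.sum_single_index Real.negMulLog_zero, Real.negMulLog_one]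

theorem ent_ge {e : ℝ} (hA : ∀ n, e ≤ fent (pw P (n + 1)) - fent (pw P n)) (n : ℕ) :
    e * n ≤ fent (pw P n) := by
  induction n with
  | zero =>
    rw [F0_fent_zero]
    simp
  | succ n ih =>
    have := hA n
    push_cast
    linarith

private lemma F0_inc (hanti : Antitone (fun n : ℕ => fent (pw P (n + 1)) - fent (pw P n)))
    (n k : ℕ) (hk : k ≤ n) :
    (k : ℝ) * (fent (pw P (n + 1)) - fent (pw P n)) ≤ fent (pw P k) := by
  induction k with
  | zero =>
    rw [F0_fent_zero]
    simp
  | succ k ih =>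
    have h1 := ih (by omega)
    have h2 : fent (pw P (n + 1)) - fent (pw P n) ≤ fent (pw P (k + 1)) - fent (pw P k) :=
      hanti (by omega : k ≤ n)
    push_cast
    linarith

theorem b_anti (hanti : Antitone (fun n : ℕ => fent (pw P (n + 1)) - fent (pw P n))) {m n : ℕ}
    (hm : 1 ≤ m) (hmn : m ≤ n) : fent (pw P n) / n ≤ fent (pw P m) / m := by
  induction n, hmn using Nat.le_induction with
  | base => exact le_refl _
  | succ n hmn ih =>
    refine le_trans ?_ ih
    have h1 := F0_inc hanti n n le_rfl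
    have hn : (0 : ℝ) < n := by exact_mod_cast (by omega : 0 < n)
    rw [div_le_div_iff₀ (by positivity) hn]
    push_cast
    nlinarith

end Pool.Agent.H34.RP
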