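import Pool.Agent.H34.RP.D0

/-!
D3: for every real `c`: `(1 + c) * su q S m y - zz q S m y / L ≤ exp (c - m * fent q / (2 * L))`, where `- log q ≤ L` on the
support, `L > 0`.

First `sum_g q g * exp (log (q g) / L) ≤ exp (- fent q / (2 * L))`: for `q g > 0` put `x = - log (q g) / L ∈ [0, 1]` (`q g ≤ 1` as
`tot q = 1`), `exp (-x) ≤ 1 - x / 2` on `[0, 1]` (convexity, or `Real.exp_bound'`, or `exp (-x) ≤ 1 / (1 + x)` and
`(1 + x) * (1 - x / 2) ≥ 1`), so the sum is `≤ 1 - fent q / (2 * L) ≤ exp (- fent q / (2 * L))`.
Induction on `m`, for all `c`, `y`. `m = 0`: `su ∈ {0, 1}`, `zz = 0`: `1 + c ≤ exp c` (`Real.add_one_le_exp`), `0 ≤ exp c`.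
Step: `y ∉ S`: left side `0`. `y ∈ S`: left side `= sum_g q g * ((1 + c_g) * su m (y g) - zz m (y g) / L)` with
`c_g = c + log (q g) / L` (as `zz (m+1) y = sum_g q g * (- log (q g) * su m (y g) + zz m (y g))`), by induction
`≤ sum_g q g * exp (c_g - m * fent q / (2 L)) = exp (c - m * fent q / (2 L)) * sum_g q g * exp (log (q g) / L)`.
-/

namespace Pool.Agent.H34.RP

open Pool.Agent.H34.LS

universe u

variable {G : Type u} [Group G] {q : G →₀ ℝ}

private theorem D3_sumexp (hq : Prb q) {L : ℝ} (hL0 : 0 < L)
    (hL : ∀ g, q g ≠ 0 → -Real.log (q g) ≤ L) :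
    ∑ g ∈ q.support, q g * Real.exp (Real.log (q g) / L) ≤ Real.exp (-(fent q / (2 * L))) := by
  have htot : ∑ g ∈ q.support, q g = 1 := hq.total
  have h1 : ∀ g ∈ q.support, q g * Real.exp (Real.log (q g) / L)
      ≤ q g - Real.negMulLog (q g) / (2 * L) := by
    intro g hg
    have hne : q g ≠ 0 := Finsupp.mem_support_iff.mp hg
    have hpos : 0 < q g := lt_of_le_of_ne (hq.nonneg g) (Ne.symm hne)
    have hle1 : q g ≤ 1 := by
      have := Finset.single_le_sum (f := fun g => q g) (fun i _ => hq.nonneg i) hg
      linarith
    obtain ⟨x, hx⟩ : ∃ x, x = Real.log (q g) / L := ⟨_, rfl⟩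
    have hx0 : x ≤ 0 := by
      rw [hx]
      exact div_nonpos_of_nonpos_of_nonneg (Real.log_nonpos hpos.le hle1) hL0.le
    have hx1 : -1 ≤ x := by
      rw [hx, le_div_iff₀ hL0]
      linarith [hL g hne]
    have h2 : Real.exp x ≤ 1 + x / 2 := by
      have h3 : 1 - x ≤ Real.exp (-x) := by linarith [Real.add_one_le_exp (-x)]
      have h4 : Real.exp x * Real.exp (-x) = 1 := by
        rw [← Real.exp_add]
        simp
      have h5 : 0 < Real.exp x := Real.exp_pos x
      have h6 : Real.exp x * (1 - x) ≤ 1 := by
        calc Real.exp x * (1 - x) ≤ Real.exp x * Real.exp (-x) :=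
              mul_le_mul_of_nonneg_left h3 h5.le
          _ = 1 := h4
      have h7 : 1 ≤ (1 + x / 2) * (1 - x) := by nlinarith
      have h8 : 0 < 1 - x := by linarith
      by_contra hcon
      push Not at hcon
      have := mul_lt_mul_of_pos_right hcon h8
      linarith
    have h9 : Real.negMulLog (q g) / (2 * L) = -(q g * (x / 2)) := by
      rw [hx, Real.negMulLog]
      field_simp
    rw [← hx, h9]
    have := mul_le_mul_of_nonneg_left h2 hpos.le
    linarith
  calc ∑ g ∈ q.support, q g * Real.exp (Real.log (q g) / L)
      ≤ ∑ g ∈ q.support, (q g - Real.negMulLog (q g) / (2 * L)) := Finset.sum_le_sum h1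
    _ = 1 - fent q / (2 * L) := by
        rw [Finset.sum_sub_distrib, htot, ← Finset.sum_div]
        rfl
    _ ≤ Real.exp (-(fent q / (2 * L))) := by
        linarith [Real.add_one_le_exp (-(fent q / (2 * L)))]

theorem drop3 (hq : Prb q) {L : ℝ} (hL0 : 0 < L) (hL : ∀ g, q g ≠ 0 → -Real.log (q g) ≤ L)
    (S : Finset G) (m : ℕ) (c : ℝ) (y : G) :
    (1 + c) * su q S m y - zz q S m y / L ≤ Real.exp (c - m * fent q / (2 * L)) := by
  classical
  induction m generalizing c y with
  | zero =>
      by_cases hy : y ∈ S
      · simp only [su, zz, hy, if_true]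
        have := Real.add_one_le_exp c
        simp only [Nat.cast_zero, zero_mul, zero_div, sub_zero, mul_one]
        linarith
      · simp only [su, zz, hy, if_false]
        simp only [mul_zero, zero_div, sub_zero]
        exact (Real.exp_pos _).le
  | succ m ih =>
      by_cases hy : y ∈ S
      · have e1 : su q S (m + 1) y = ∑ g ∈ q.support, q g * su q S m (y * g) := by
          simp only [su, hy, if_true]
          rfl
        have e2 : zz q S (m + 1) y = ∑ g ∈ q.support,
            q g * (-Real.log (q g) * su q S m (y * g) + zz q S m (y * g)) := by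
          simp only [zz, hy, if_true]
          rfl
        have e3 : (1 + c) * su q S (m + 1) y - zz q S (m + 1) y / L
            = ∑ g ∈ q.support, q g * ((1 + (c + Real.log (q g) / L)) * su q S m (y * g)
              - zz q S m (y * g) / L) := by
          rw [e1, e2, Finset.mul_sum, Finset.sum_div, ← Finset.sum_sub_distrib]
          refine Finset.sum_congr rfl fun g _ => ?_
          field_simp
          ring
        rw [e3]
        have e4 : ∀ g ∈ q.support, q g * ((1 + (c + Real.log (q g) / L)) * su q S m (y * g)
              - zz q S m (y * g) / L)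
            ≤ Real.exp (c - m * fent q / (2 * L)) * (q g * Real.exp (Real.log (q g) / L)) := by
          intro g _
          have h1 := ih (c + Real.log (q g) / L) (y * g)
          have h2 : Real.exp (c + Real.log (q g) / L - m * fent q / (2 * L))
              = Real.exp (c - m * fent q / (2 * L)) * Real.exp (Real.log (q g) / L) := by
            rw [← Real.exp_add]
            congr 1
            ring
          rw [h2] at h1
          calc q g * ((1 + (c + Real.log (q g) / L)) * su q S m (y * g) - zz q S m (y * g) / L)
              ≤ q g * (Real.exp (c - m * fent q / (2 * L)) * Real.exp (Real.log (q g) / L)) :=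
                mul_le_mul_of_nonneg_left h1 (hq.nonneg g)
            _ = _ := by ring
        calc ∑ g ∈ q.support, q g * ((1 + (c + Real.log (q g) / L)) * su q S m (y * g)
              - zz q S m (y * g) / L)
            ≤ ∑ g ∈ q.support, Real.exp (c - m * fent q / (2 * L))
                * (q g * Real.exp (Real.log (q g) / L)) := Finset.sum_le_sum e4
          _ = Real.exp (c - m * fent q / (2 * L))
                * ∑ g ∈ q.support, q g * Real.exp (Real.log (q g) / L) := by
              rw [Finset.mul_sum]
          _ ≤ Real.exp (c - m * fent q / (2 * L)) * Real.exp (-(fent q / (2 * L))) :=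
              mul_le_mul_of_nonneg_left (D3_sumexp hq hL0 hL) (Real.exp_pos _).le
          _ = Real.exp (c - ((m + 1 : ℕ) : ℝ) * fent q / (2 * L)) := by
              rw [← Real.exp_add]
              congr 1
              push_cast
              ring
      · simp only [su, zz, hy, if_false]
        simp only [mul_zero, zero_div, sub_zero]
        exact (Real.exp_pos _).le

end Pool.Agent.H34.RP
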