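import Pool.Agent.H34.RP.D1
import Pool.Agent.H34.RP.D3
import Pool.Agent.H34.LS.V14

/-!
D4: the drop inequality. `D = log |S|`, `H = fent q`. From `drop1`, `fent_le_card` (V14, with `kd_card`, `tot_kd`):
`fent (pw q m) ≤ m H - zz y + su y * D + negMulLog (su y)` for all `y`. Multiply by `a y`, sum over `S`; Jensen
(`Real.concaveOn_negMulLog`, `ConcaveOn.le_map_sum`, `su ≥ 0`): `sum a y * negMulLog (su y) ≤ negMulLog ε`. With
`z = sum a y * zz y`: `fent (pw q m) ≤ m H - z + ε D + negMulLog ε`. Average of `drop3` with `c = m H / (2 L) + log ε`: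
`(1 + c) ε - z / L ≤ exp (log ε) = ε`, so `z ≥ L c ε = ε (m H / 2 + L log ε)`. Together the claim
(`negMulLog ε = - ε log ε`).
-/

namespace Pool.Agent.H34.RP

open Pool.Agent.H34.LS

universe u

variable {G : Type u} [Group G] {q : G →₀ ℝ}

theorem drop4 (hq : Prb q) {L : ℝ} (hL0 : 0 < L) (hL : ∀ g, q g ≠ 0 → -Real.log (q g) ≤ L)
    (S : Finset G) {a : G → ℝ} (ha : ∀ y ∈ S, 0 ≤ a y) (h1 : ∑ y ∈ S, a y = 1) (m : ℕ)
    (hε : 0 < ∑ y ∈ S, a y * su q S m y) :
    fent (pw q m) ≤ m * fent q - (∑ y ∈ S, a y * su q S m y) *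
      (m * fent q / 2 - Real.log S.card -
        (L + 1) * (-Real.log (∑ y ∈ S, a y * su q S m y))) := by
  have hk : ∀ y ∈ S, a y * fent (pw q m) ≤ a y * (m * fent q) - a y * zz q S m y +
      a y * su q S m y * Real.log S.card + a y * Real.negMulLog (su q S m y) := by
    intro y hy
    have h2 := drop1 hq S m y
    have h3 := fent_le_card (kd_nonneg hq.nonneg S m y) (kd_card q S m y)
    rw [tot_kd] at h3
    have h4 := mul_le_mul_of_nonneg_left (h2.trans (add_le_add_right h3 _)) (ha y hy)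
    linarith
  have hsum := Finset.sum_le_sum hk
  simp only [Finset.sum_add_distrib, Finset.sum_sub_distrib, ← Finset.sum_mul] at hsum
  rw [h1, one_mul, one_mul] at hsum
  have hJ := Real.concaveOn_negMulLog.le_map_sum (t := S) (w := a) (p := fun y => su q S m y) ha h1
    (fun y _ => su_nonneg hq.nonneg S m y)
  simp only [smul_eq_mul] at hJ
  obtain ⟨e, he⟩ : ∃ e, e = ∑ y ∈ S, a y * su q S m y := ⟨_, rfl⟩
  obtain ⟨z, hz⟩ : ∃ z, z = ∑ y ∈ S, a y * zz q S m y := ⟨_, rfl⟩
  rw [← he] at hε hsum hJ ⊢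
  rw [← hz] at hsum
  have hd : ∀ y ∈ S, a y * ((1 + (m * fent q / (2 * L) + Real.log e)) * su q S m y -
      zz q S m y / L) ≤ a y * e := by
    intro y hy
    have h2 := drop3 hq hL0 hL S m (m * fent q / (2 * L) + Real.log e) y
    have h3 : m * fent q / (2 * L) + Real.log e - m * fent q / (2 * L) = Real.log e := by ring
    rw [h3, Real.exp_log hε] at h2
    exact mul_le_mul_of_nonneg_left h2 (ha y hy)
  have hsum2 := Finset.sum_le_sum hd
  rw [← Finset.sum_mul, h1, one_mul] at hsum2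
  have h5 : ∑ y ∈ S, a y * ((1 + (m * fent q / (2 * L) + Real.log e)) * su q S m y -
      zz q S m y / L) = (1 + (m * fent q / (2 * L) + Real.log e)) * e - z / L := by
    rw [he, hz, Finset.mul_sum, Finset.sum_div, ← Finset.sum_sub_distrib]
    refine Finset.sum_congr rfl fun y _ => ?_
    ring
  rw [h5] at hsum2
  have h6 : (m * fent q / (2 * L) + Real.log e) * e ≤ z / L := by linarith
  rw [le_div_iff₀ hL0] at h6
  have h7 : (m * fent q / (2 * L) + Real.log e) * e * L = e * (m * fent q / 2) + e * (L * Real.log e) := by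
    field_simp
  rw [h7] at h6
  have h8 : Real.negMulLog e = -(e * Real.log e) := by
    unfold Real.negMulLog
    ring
  rw [h8] at hJ
  linarith

end Pool.Agent.H34.RP
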