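import Pool.Agent.H34.RP.Defs
import Pool.Agent.H34.LS.V2
import Pool.Agent.H34.LS.E14

/-!
R1: translation between weight functions `mu : G → ℝ` and finitely supported functions. `fs mu h`: the finitely supported function with
values `mu`. `cpow_eq`: induction on `n` (`bnd_apply`, `tl_apply`, `finsum_eq_sum_of_support_subset`).
-/

namespace Pool.Agent.H34.RP

open Pool.Agent.H34.LS

universe u

variable {G : Type u} [Group G] {mu : G → ℝ}

private theorem r1_sum (h : IsFSProb mu) (F : G → ℝ → ℝ) (hF : ∀ g, F g 0 = 0) :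
    (toPA mu h.finite).coeff.sum F = ∑ᶠ g, F g (mu g) := by
  have h0 : (toPA mu h.finite).coeff.support = h.finite.toFinset := rfl
  rw [Finsupp.sum, h0]
  symm
  rw [finsum_eq_sum_of_support_subset (s := h.finite.toFinset)]
  · rfl
  · intro g hg
    rw [Finset.mem_coe, Set.Finite.mem_toFinset]
    intro h1
    apply hg
    show F g (mu g) = 0
    rw [h1, hF]

theorem prb_of (h : IsFSProb mu) : Prb (toPA mu h.finite).coeff := by
  refine ⟨fun g => h.nonneg g, ?_⟩
  unfold tot
  rw [r1_sum h (fun _ a => a) (fun _ => rfl)]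
  exact h.total

theorem coeff_of (h : IsFSProb mu) (g : G) : (toPA mu h.finite).coeff g = mu g := rfl

theorem supp_of (h : IsFSProb mu) :
    Function.support ((toPA mu h.finite).coeff : G → ℝ) = Function.support mu := rfl

theorem cpow_eq (h : IsFSProb mu) (n : ℕ) (x : G) :
    cpow mu n x = pw (toPA mu h.finite).coeff n x := by
  classical
  induction n generalizing x with
  | zero =>
    show (if x = 1 then (1 : ℝ) else 0) = (Finsupp.single (1 : G) (1 : ℝ)) x
    rw [Finsupp.single_apply]
    by_cases hx : x = 1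
    · rw [if_pos hx, if_pos hx.symm]
    · rw [if_neg hx, if_neg (Ne.symm hx)]
  | succ n ih =>
    show ∑ᶠ g, mu g * cpow mu n (g⁻¹ * x) =
      (bnd (toPA mu h.finite).coeff (fun g => tl g (pw (toPA mu h.finite).coeff n))) x
    rw [bnd_apply, r1_sum h (fun g a => a * (tl g (pw (toPA mu h.finite).coeff n)) x) (fun g => zero_mul _)]
    refine finsum_congr fun g => ?_
    rw [tl_apply, ih]

end Pool.Agent.H34.RP
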