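import Pool.Agent.H34.RP.Defs
import Pool.Agent.H34.LS.Win

/-!
# Return probabilities and the Liouville property: definitions used by the final statement
-/

namespace Pool.Agent.H34.RP

open Pool.Agent.H34.LS

universe u

/-- `∑_j exp (- c a j)` diverges for every `c > 0`. -/
def Diverges (a : ℕ → ℝ) : Prop :=
  ∀ c : ℝ, 0 < c → ¬ Summable (fun j : ℕ => Real.exp (-(c * a j)))

section

variable {G : Type u} [Group G]

/-- minus the logarithm of the return probability at time `2 n` of the random walk on `G` with step
distribution `mu` (`cpow mu (2 * n) 1` is the mass of the `2 n`-th convolution power at `1`). -/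
noncomputable def retLog (mu : G → ℝ) (n : ℕ) : ℝ := -Real.log (cpow mu (2 * n) 1)

/-- square norm of a finitely supported function. -/
noncomputable def norm2 (ξ : G →₀ ℝ) : ℝ := ∑ᶠ x, ξ x ^ 2

/-- energy (Dirichlet form) of a finitely supported function. -/
noncomputable def energy (mu : G → ℝ) (ξ : G →₀ ℝ) : ℝ :=
  1 / 2 * ∑ᶠ g, mu g * ∑ᶠ x, (ξ (x * g) - ξ x) ^ 2

/-- at every scale `4^j` there is a nonzero finitely supported function `ξ` with energy at most
`4^(-j) |ξ|^2` and support of cardinality at most `exp (4^j K j)`. -/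
def TestFunctions (mu : G → ℝ) (K : ℕ → ℝ) : Prop :=
  ∀ j : ℕ, ∃ ξ : G →₀ ℝ, ξ ≠ 0 ∧ energy mu ξ ≤ 1 / 4 ^ j * norm2 ξ ∧
    Real.log ξ.support.card ≤ 4 ^ j * K j

end

/-- the Poisson boundary of `(G, mu)` is trivial for all symmetric finitely supported generating
probability measures `mu`. -/
def AllTrivial (G : Type u) [Group G] : Prop :=
  ∀ mu : G → ℝ, IsFSProb mu → Generating mu → Symm mu → TrivialBoundary mu

end Pool.Agent.H34.RP
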