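import Pool.Agent.H34.RP.E3

/-!
A0: calculus of `rt`, `sq`, `ip`, `dd`. `rt g ξ x = ξ (x * g)` (`Finsupp.mapDomain_apply` for the injective map `x ↦ x * g⁻¹`, at `x = (x g) g⁻¹`).
`ip` is bilinear and symmetric (write both as sums over a common finite set, `Finsupp.sum_of_support_subset`), `sq ξ = ip ξ ξ`,
`ip (rt g ξ) (rt g η) = ip ξ η`. `dd_eq`: `sq (rt g ξ - ξ) = sq (rt g ξ) - 2 ip (rt g ξ) ξ + sq ξ`.
`sq_sum` : `sq ξ = ∑ x ∈ T, ξ x ^ 2` for a finite set `T` containing the support; `ip_sum` likewise.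
-/

namespace Pool.Agent.H34.RP

open Pool.Agent.H34.LS

universe u

variable {G : Type u} [Group G]

theorem rt_apply (g : G) (ξ : G →₀ ℝ) (x : G) : rt g ξ x = ξ (x * g) := by
  unfold rt
  have h := Finsupp.mapDomain_apply (mul_left_injective g⁻¹) ξ (x * g)
  have e : x * g * g⁻¹ = x := by group
  simp only [e] at h
  exact h

theorem rt_one (ξ : G →₀ ℝ) : rt 1 ξ = ξ := by
  ext x
  rw [rt_apply, mul_one]

theorem rt_rt (g h : G) (ξ : G →₀ ℝ) : rt g (rt h ξ) = rt (g * h) ξ := by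
  ext x
  rw [rt_apply, rt_apply, rt_apply, mul_assoc]

theorem sq_sum (ξ : G →₀ ℝ) {T : Finset G} (hT : ξ.support ⊆ T) : sq ξ = ∑ x ∈ T, ξ x ^ 2 := by
  unfold sq
  exact Finsupp.sum_of_support_subset ξ hT _ fun _ _ => by norm_num

theorem ip_sum (ξ η : G →₀ ℝ) {T : Finset G} (hT : ξ.support ⊆ T) :
    ip ξ η = ∑ x ∈ T, ξ x * η x := by
  unfold ip
  exact Finsupp.sum_of_support_subset ξ hT _ fun _ _ => zero_mul _

theorem sq_nonneg' (ξ : G →₀ ℝ) : 0 ≤ sq ξ := by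
  rw [sq_sum ξ (Finset.Subset.refl _)]
  exact Finset.sum_nonneg fun _ _ => sq_nonneg _

theorem sq_pos {ξ : G →₀ ℝ} (h : ξ ≠ 0) : 0 < sq ξ := by
  rw [sq_sum ξ (Finset.Subset.refl _)]
  obtain ⟨x, hx⟩ := Finsupp.support_nonempty_iff.mpr h
  exact Finset.sum_pos (fun y hy => by have := Finsupp.mem_support_iff.mp hy; positivity) ⟨x, hx⟩

private theorem A0_sum_mul (g : G) (f : G → ℝ) (T : Finset G) :
    ∑ x ∈ T.map (Equiv.mulRight g⁻¹).toEmbedding, f (x * g) = ∑ x ∈ T, f x := by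
  rw [Finset.sum_map]
  refine Finset.sum_congr rfl fun x _ => ?_
  simp

private theorem A0_supp (g : G) (ξ : G →₀ ℝ) {T : Finset G} (hT : ξ.support ⊆ T) :
    (rt g ξ).support ⊆ T.map (Equiv.mulRight g⁻¹).toEmbedding := by
  intro x hx
  rw [Finsupp.mem_support_iff, rt_apply] at hx
  rw [Finset.mem_map]
  exact ⟨x * g, hT (Finsupp.mem_support_iff.mpr hx), by simp⟩

theorem sq_rt (g : G) (ξ : G →₀ ℝ) : sq (rt g ξ) = sq ξ := by
  rw [sq_sum _ (A0_supp g ξ (Finset.Subset.refl _)), sq_sum ξ (Finset.Subset.refl _)]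
  simp only [rt_apply]
  exact A0_sum_mul g (fun x => ξ x ^ 2) _

theorem sq_smul (c : ℝ) (ξ : G →₀ ℝ) : sq (c • ξ) = c ^ 2 * sq ξ := by
  have h1 : (c • ξ).support ⊆ ξ.support := Finsupp.support_smul
  rw [sq_sum _ h1, sq_sum ξ (Finset.Subset.refl _), Finset.mul_sum]
  refine Finset.sum_congr rfl fun x _ => ?_
  rw [Finsupp.smul_apply, smul_eq_mul]
  ring

theorem dd_nonneg' (g : G) (ξ : G →₀ ℝ) : 0 ≤ dd g ξ := sq_nonneg' _

/-- `sq (a - b) = sq a - 2 ip b a + sq b` -/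
private theorem A0_sub (a b : G →₀ ℝ) : sq (a - b) = sq a + sq b - 2 * ip b a := by
  classical
  have ha : a.support ⊆ a.support ∪ b.support := Finset.subset_union_left
  have hb : b.support ⊆ a.support ∪ b.support := Finset.subset_union_right
  have hab : (a - b).support ⊆ a.support ∪ b.support := Finsupp.support_sub
  rw [sq_sum _ hab, sq_sum _ ha, sq_sum _ hb, ip_sum b a hb, Finset.mul_sum, ← Finset.sum_add_distrib,
    ← Finset.sum_sub_distrib]
  refine Finset.sum_congr rfl fun x _ => ?_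
  rw [Finsupp.sub_apply]
  ring

theorem dd_eq (g : G) (ξ : G →₀ ℝ) : dd g ξ = 2 * sq ξ - 2 * ip ξ (rt g ξ) := by
  unfold dd
  rw [A0_sub, sq_rt]
  ring

theorem dd_smul (c : ℝ) (g : G) (ξ : G →₀ ℝ) : dd g (c • ξ) = c ^ 2 * dd g ξ := by
  unfold dd
  rw [← sq_smul]
  congr 1
  ext x
  simp only [Finsupp.sub_apply, Finsupp.smul_apply, rt_apply, smul_eq_mul]
  ring

/-- `dd` is a square of a seminorm: increments along a product. -/
theorem dd_mul_le (g h : G) (ξ : G →₀ ℝ) : dd (g * h) ξ ≤ 2 * dd g ξ + 2 * dd h ξ := by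
  classical
  have e1 : rt (g * h) ξ - ξ = rt g (rt h ξ - ξ) - (ξ - rt g ξ) := by
    ext x
    simp only [Finsupp.sub_apply, rt_apply]
    rw [mul_assoc]
    ring
  have key : ∀ a b : G →₀ ℝ, sq (a - b) ≤ 2 * sq a + 2 * sq b := by
    intro a b
    have ha : a.support ⊆ a.support ∪ b.support := Finset.subset_union_left
    have hb : b.support ⊆ a.support ∪ b.support := Finset.subset_union_right
    have hab : (a - b).support ⊆ a.support ∪ b.support := Finsupp.support_sub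
    rw [sq_sum _ hab, sq_sum _ ha, sq_sum _ hb, Finset.mul_sum, Finset.mul_sum, ← Finset.sum_add_distrib]
    refine Finset.sum_le_sum fun x _ => ?_
    rw [Finsupp.sub_apply]
    nlinarith [sq_nonneg (a x + b x)]
  have e2 : sq (ξ - rt g ξ) = dd g ξ := by
    unfold dd
    have e3 : ξ - rt g ξ = (-1 : ℝ) • (rt g ξ - ξ) := by
      ext x
      simp only [Finsupp.sub_apply, Finsupp.smul_apply, smul_eq_mul]
      ring
    rw [e3, sq_smul]
    ring
  have e4 : sq (rt g (rt h ξ - ξ)) = dd h ξ := by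
    rw [sq_rt]
    rfl
  have h1 := key (rt g (rt h ξ - ξ)) (ξ - rt g ξ)
  rw [← e1, e2, e4] at h1
  unfold dd at h1 ⊢
  linarith

end Pool.Agent.H34.RP
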