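import Pool.Agent.H34.RP.A1b

/-!
A1: energy. `en_eq`: for a probability `P`, `en P ξ = sq ξ - sum_g P g * ip ξ (rt g ξ)` (`dd_eq`). `op_en`: for `S = ξ.support` (or any
finite set containing it), `∑ x ∈ S, ξ x * op S (ker P) ξ x = sum_g P g * ip ξ (rt g ξ) = sq ξ - en P ξ`: for `x ∈ S`,
`∑ y ∈ S, P (x⁻¹ * y) * ξ y = sum_g P g * ξ (x * g)` (reindex `y = x * g`; compare E3). `en_comp`: for every `s` in the support of `P`:
`s` is a product of elements of the support of `P0` (`Submonoid.closure_induction`, or `Submonoid.exists_list_of_mem_closure`); the set of `s`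
such that `∃ C ≥ 0, ∀ ξ, dd s ξ ≤ C * en P0 ξ` contains `1` (`dd 1 ξ = 0`), is closed under products (`dd_mul_le`) and contains the support of `P0`
(`P0 g * dd g ξ ≤ 2 * en P0 ξ`), so it is everything; then sum over the support of `P` (`Finset` choice of constants).
`en_abs`: replacing `ξ` by `|ξ|` (a finitely supported function, `Finsupp.mapRange abs`): `en` does not increase, `sq` and the support are
the same.
-/

namespace Pool.Agent.H34.RP

open Pool.Agent.H34.LS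

universe u

variable {G : Type u} [Group G] {P P0 : G →₀ ℝ}

theorem en_nonneg (hP : ∀ g, 0 ≤ P g) (ξ : G →₀ ℝ) : 0 ≤ en P ξ := by
  unfold en
  refine mul_nonneg (by norm_num) (Finset.sum_nonneg fun g _ => ?_)
  exact mul_nonneg (hP g) (dd_nonneg' g ξ)

theorem en_smul (P : G →₀ ℝ) (c : ℝ) (ξ : G →₀ ℝ) : en P (c • ξ) = c ^ 2 * en P ξ := by
  unfold en
  have h : (P.sum fun g a => a * dd g (c • ξ)) = c ^ 2 * P.sum fun g a => a * dd g ξ := by
    change ∑ g ∈ P.support, P g * dd g (c • ξ) = c ^ 2 * ∑ g ∈ P.support, P g * dd g ξ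
    rw [Finset.mul_sum]
    refine Finset.sum_congr rfl fun g _ => ?_
    rw [dd_smul]
    ring
  rw [h]
  ring

theorem en_eq (hP : Prb P) (ξ : G →₀ ℝ) :
    en P ξ = sq ξ - P.sum (fun g a => a * ip ξ (rt g ξ)) := by
  have ht : ∑ g ∈ P.support, P g = 1 := hP.total
  unfold en
  change 1 / 2 * ∑ g ∈ P.support, P g * dd g ξ = sq ξ - ∑ g ∈ P.support, P g * ip ξ (rt g ξ)
  have h : ∀ g ∈ P.support, P g * dd g ξ = 2 * sq ξ * P g - 2 * (P g * ip ξ (rt g ξ)) := by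
    intro g _
    rw [dd_eq]
    ring
  rw [Finset.sum_congr rfl h, Finset.sum_sub_distrib, ← Finset.mul_sum, ← Finset.mul_sum, ht]
  ring

private theorem a1_ip (g : G) (ξ η : G →₀ ℝ) :
    ip ξ (rt g η) = ∑ x ∈ ξ.support, ξ x * η (x * g) := by
  change ∑ x ∈ ξ.support, ξ x * rt g η x = _
  exact Finset.sum_congr rfl fun x _ => by rw [rt_apply]

private theorem a1_shift (P ξ : G →₀ ℝ) (x : G) :
    ∑ y ∈ ξ.support, P (x⁻¹ * y) * ξ y = ∑ g ∈ P.support, P g * ξ (x * g) := by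
  have h1 : ∑ᶠ y, P (x⁻¹ * y) * ξ y = ∑ y ∈ ξ.support, P (x⁻¹ * y) * ξ y := by
    apply finsum_eq_sum_of_support_subset
    intro y hy
    exact Finset.mem_coe.2 (Finsupp.mem_support_iff.2 (right_ne_zero_of_mul hy))
  have h2 : ∑ᶠ y, P (x⁻¹ * y) * ξ y = ∑ᶠ g, P (x⁻¹ * (x * g)) * ξ (x * g) :=
    (finsum_comp_equiv (Equiv.mulLeft x) (f := fun y => P (x⁻¹ * y) * ξ y)).symm
  have h3 : ∑ᶠ g, P (x⁻¹ * (x * g)) * ξ (x * g) = ∑ g ∈ P.support, P g * ξ (x * g) := by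
    simp only [inv_mul_cancel_left]
    apply finsum_eq_sum_of_support_subset
    intro g hg
    exact Finset.mem_coe.2 (Finsupp.mem_support_iff.2 (left_ne_zero_of_mul hg))
  rw [← h1, h2, h3]

theorem op_en (hP : Prb P) (ξ : G →₀ ℝ) :
    ∑ x ∈ ξ.support, ξ x * op ξ.support (ker P) ξ x = sq ξ - en P ξ := by
  rw [en_eq hP]
  have h1 : ∀ x ∈ ξ.support, ξ x * op ξ.support (ker P) ξ x
      = ∑ g ∈ P.support, P g * (ξ x * ξ (x * g)) := by
    intro x _
    change ξ x * ∑ y ∈ ξ.support, P (x⁻¹ * y) * ξ y = _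
    rw [a1_shift P ξ x, Finset.mul_sum]
    refine Finset.sum_congr rfl fun g _ => ?_
    ring
  rw [Finset.sum_congr rfl h1, Finset.sum_comm]
  have h2 : ∀ g ∈ P.support, ∑ x ∈ ξ.support, P g * (ξ x * ξ (x * g)) = P g * ip ξ (rt g ξ) := by
    intro g _
    rw [a1_ip, Finset.mul_sum]
  rw [Finset.sum_congr rfl h2]
  change _ = sq ξ - (sq ξ - ∑ g ∈ P.support, P g * ip ξ (rt g ξ))
  ring

theorem en_comp (hP : ∀ g, 0 ≤ P g) (hP0 : ∀ g, 0 ≤ P0 g)
    (hg : Submonoid.closure (Function.support P0) = ⊤) :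
    ∃ C : ℝ, 0 < C ∧ ∀ ξ : G →₀ ℝ, en P ξ ≤ C * en P0 ξ :=
  en_comp_b hP hP0 hg

theorem en_abs (hP : ∀ g, 0 ≤ P g) (ξ : G →₀ ℝ) : ∃ η : G →₀ ℝ, (∀ x, 0 ≤ η x) ∧
    η.support = ξ.support ∧ sq η = sq ξ ∧ en P η ≤ en P ξ := by
  set η : G →₀ ℝ := ξ.mapRange (fun a => |a|) abs_zero with hη
  have h1 : ∀ x, η x = |ξ x| := fun x => Finsupp.mapRange_apply
  have h2 : η.support = ξ.support := by
    ext x
    rw [Finsupp.mem_support_iff, Finsupp.mem_support_iff, h1, abs_ne_zero]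
  have h3 : sq η = sq ξ := by
    change ∑ x ∈ η.support, η x ^ 2 = ∑ x ∈ ξ.support, ξ x ^ 2
    rw [h2]
    exact Finset.sum_congr rfl fun x _ => by rw [h1, sq_abs]
  refine ⟨η, fun x => ?_, h2, h3, ?_⟩
  · rw [h1]
    exact abs_nonneg _
  · unfold en
    refine mul_le_mul_of_nonneg_left (Finset.sum_le_sum fun g _ => ?_) (by norm_num)
    refine mul_le_mul_of_nonneg_left ?_ (hP g)
    rw [dd_eq, dd_eq, h3, a1_ip, a1_ip, h2]
    have h4 : ∑ x ∈ ξ.support, ξ x * ξ (x * g) ≤ ∑ x ∈ ξ.support, η x * η (x * g) := by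
      refine Finset.sum_le_sum fun x _ => ?_
      rw [h1, h1, ← abs_mul]
      exact le_abs_self _
    linarith

end Pool.Agent.H34.RP
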