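import Pool.Agent.H34.RP.A0

/-!
A1b: comparison of energies. `en_comp_b`: for every `s` in the support of `P`:
`s` is a product of elements of the support of `P0`; the set of `s`
such that `∃ C ≥ 0, ∀ ξ, dd s ξ ≤ C * en P0 ξ` contains `1` (`dd 1 ξ = 0`), is closed under products (`dd_mul_le`) and contains the support of `P0`
(`P0 g * dd g ξ ≤ 2 * en P0 ξ`), so it is everything; then sum over the support of `P`.
-/

namespace Pool.Agent.H34.RP

open Pool.Agent.H34.LS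

universe u

variable {G : Type u} [Group G] {P P0 : G →₀ ℝ}

private theorem a1b_nonneg (hP : ∀ g, 0 ≤ P g) (ξ : G →₀ ℝ) : 0 ≤ en P ξ := by
  refine mul_nonneg (by norm_num) (Finset.sum_nonneg fun g _ => ?_)
  exact mul_nonneg (hP g) (dd_nonneg' g ξ)

private theorem a1b_one (ξ : G →₀ ℝ) : dd (1 : G) ξ = 0 := by
  show sq (rt 1 ξ - ξ) = 0
  rw [rt_one, sub_self]
  exact Finsupp.sum_zero_index

private theorem a1b_mem (hP0 : ∀ g, 0 ≤ P0 g) {s : G} (hs : s ∈ Function.support P0) (ξ : G →₀ ℝ) :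
    dd s ξ ≤ 2 / P0 s * en P0 ξ := by
  have hpos : 0 < P0 s := lt_of_le_of_ne (hP0 s) (fun h => hs h.symm)
  have h1 : P0 s * dd s ξ ≤ P0.sum (fun g a => a * dd g ξ) :=
    Finset.single_le_sum (f := fun g => P0 g * dd g ξ)
      (fun g _ => mul_nonneg (hP0 g) (dd_nonneg' g ξ)) (Finsupp.mem_support_iff.2 hs)
  have h2 : 2 / P0 s * en P0 ξ = P0.sum (fun g a => a * dd g ξ) / P0 s := by
    show 2 / P0 s * (1 / 2 * P0.sum (fun g a => a * dd g ξ)) = _
    ring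
  rw [h2, le_div_iff₀ hpos, mul_comm]
  exact h1

private theorem a1b_all (hP0 : ∀ g, 0 ≤ P0 g)
    (hg : Submonoid.closure (Function.support P0) = ⊤) (s : G) :
    ∃ C : ℝ, 0 ≤ C ∧ ∀ ξ : G →₀ ℝ, dd s ξ ≤ C * en P0 ξ := by
  have hs : s ∈ Submonoid.closure (Function.support P0) := by
    rw [hg]
    trivial
  induction hs using Submonoid.closure_induction with
  | mem x hx =>
    exact ⟨2 / P0 x, div_nonneg (by norm_num) (hP0 x), a1b_mem hP0 hx⟩
  | one =>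
    refine ⟨0, le_refl 0, fun ξ => ?_⟩
    rw [a1b_one, zero_mul]
  | mul x y _ _ hx hy =>
    obtain ⟨C, hC, h1⟩ := hx
    obtain ⟨D, hD, h2⟩ := hy
    refine ⟨2 * C + 2 * D, by positivity, fun ξ => ?_⟩
    have h3 := dd_mul_le x y ξ
    have h4 := h1 ξ
    have h5 := h2 ξ
    have h6 : (2 * C + 2 * D) * en P0 ξ = 2 * (C * en P0 ξ) + 2 * (D * en P0 ξ) := by ring
    rw [h6]
    linarith

theorem en_comp_b (hP : ∀ g, 0 ≤ P g) (hP0 : ∀ g, 0 ≤ P0 g)
    (hg : Submonoid.closure (Function.support P0) = ⊤) :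
    ∃ C : ℝ, 0 < C ∧ ∀ ξ : G →₀ ℝ, en P ξ ≤ C * en P0 ξ := by
  choose C hC h1 using a1b_all hP0 hg
  have hsum : 0 ≤ ∑ g ∈ P.support, P g * C g :=
    Finset.sum_nonneg fun g _ => mul_nonneg (hP g) (hC g)
  refine ⟨1 / 2 * (∑ g ∈ P.support, P g * C g) + 1, by positivity, fun ξ => ?_⟩
  have h0 := a1b_nonneg hP0 ξ
  have h2 : P.sum (fun g a => a * dd g ξ) ≤ (∑ g ∈ P.support, P g * C g) * en P0 ξ := by
    rw [Finset.sum_mul]
    refine Finset.sum_le_sum fun g _ => ?_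
    rw [mul_assoc]
    exact mul_le_mul_of_nonneg_left (h1 g ξ) (hP g)
  show 1 / 2 * P.sum (fun g a => a * dd g ξ) ≤ _
  have h3 : (1 / 2 * (∑ g ∈ P.support, P g * C g) + 1) * en P0 ξ =
      1 / 2 * ((∑ g ∈ P.support, P g * C g) * en P0 ξ) + en P0 ξ := by ring
  rw [h3]
  linarith

end Pool.Agent.H34.RP
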