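import Pool.Agent.H34.RP.A1

/-!
B1: truncation. `N = sq f > 0`, `c = N / 8`, `η x = max (f x - c) 0` (finitely supported: `Finsupp.mapRange (fun a => max (a - c) 0)`, value `0` at `0`
since `c ≥ 0`). `(max (a - c) 0)^2 ≥ a^2 - 2 c a` for `a ≥ 0` (two cases), so `sq η ≥ N - 2 c * tot f = N - N / 2`. `|max (a - c) 0 - max (b - c) 0| ≤ |a - b|`,
so `dd g η ≤ dd g f`, `en P η ≤ en P f`. Support of `η`: there `f x > c`, so `c * card ≤ tot f = 2`, `card ≤ 16 / N`.
-/

namespace Pool.Agent.H34.RP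

open Pool.Agent.H34.LS

universe u

variable {G : Type u} [Group G] {P : G →₀ ℝ}

private theorem b1_dd {f η : G →₀ ℝ} {c : ℝ} (h : ∀ x, η x = max (f x - c) 0) (g : G) :
    dd g η ≤ dd g f := by
  classical
  unfold dd
  rw [sq_sum (rt g η - η) (T := (rt g η - η).support ∪ (rt g f - f).support) Finset.subset_union_left,
    sq_sum (rt g f - f) (T := (rt g η - η).support ∪ (rt g f - f).support) Finset.subset_union_right]
  refine Finset.sum_le_sum fun x _ => ?_
  rw [Finsupp.sub_apply, Finsupp.sub_apply, rt_apply, rt_apply, h, h, sq_le_sq]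
  refine (abs_max_sub_max_le_abs _ _ _).trans (le_of_eq ?_)
  congr 1
  ring

theorem trunc (hP : ∀ g, 0 ≤ P g) {f : G →₀ ℝ} (hf : ∀ x, 0 ≤ f x) (h2 : tot f = 2)
    (hpos : 0 < sq f) : ∃ η : G →₀ ℝ, (∀ x, 0 ≤ η x) ∧ sq f / 2 ≤ sq η ∧ en P η ≤ en P f ∧
      (η.support.card : ℝ) ≤ 16 / sq f := by
  classical
  obtain ⟨c, hc⟩ : ∃ c, c = sq f / 8 := ⟨_, rfl⟩
  have hc0 : 0 < c := by rw [hc]; positivity
  have h0 : max ((0 : ℝ) - c) 0 = 0 := max_eq_right (by linarith)
  obtain ⟨η, hη⟩ : ∃ η : G →₀ ℝ, ∀ x, η x = max (f x - c) 0 :=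
    ⟨Finsupp.mapRange (fun a => max (a - c) 0) h0 f, fun x => Finsupp.mapRange_apply⟩
  have hsub : η.support ⊆ f.support := by
    intro x hx
    rw [Finsupp.mem_support_iff] at hx ⊢
    intro h1
    apply hx
    rw [hη, h1, h0]
  have htot : ∑ x ∈ f.support, f x = 2 := h2
  refine ⟨η, fun x => by rw [hη]; exact le_max_right _ _, ?_, ?_, ?_⟩
  · rw [sq_sum η hsub]
    have h1 : ∀ x ∈ f.support, f x ^ 2 - 2 * c * f x ≤ η x ^ 2 := by
      intro x _
      rw [hη]
      have h3 := hf x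
      rcases le_total c (f x) with h4 | h4
      · rw [max_eq_left (by linarith)]
        nlinarith [sq_nonneg c]
      · rw [max_eq_right (by linarith)]
        nlinarith
    refine le_trans (le_of_eq ?_) (Finset.sum_le_sum h1)
    rw [Finset.sum_sub_distrib, ← Finset.mul_sum, htot, ← sq_sum f (Finset.Subset.refl _), hc]
    ring
  · unfold en
    refine mul_le_mul_of_nonneg_left ?_ (by norm_num)
    exact Finset.sum_le_sum fun g _ => mul_le_mul_of_nonneg_left (b1_dd hη g) (hP g)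
  · have h1 : ∀ x ∈ η.support, c ≤ f x := by
      intro x hx
      rw [Finsupp.mem_support_iff, hη] at hx
      by_contra h3
      push Not at h3
      exact hx (max_eq_right (by linarith))
    have h3 : (η.support.card : ℝ) * c ≤ 2 := by
      rw [← htot, ← nsmul_eq_mul, ← Finset.sum_const]
      exact (Finset.sum_le_sum h1).trans (Finset.sum_le_sum_of_subset_of_nonneg hsub fun x _ _ => hf x)
    rw [le_div_iff₀ hpos]
    have h4 : sq f = 8 * c := by rw [hc]; ring
    rw [h4]
    linarith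

end Pool.Agent.H34.RP
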