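import Pool.Agent.H34.RP.A1

/-!
B2: inner products of convolution powers of a symmetric probability. `ip_pw`: `ip (pw P k) (pw P l) = pw P (k + l) 1`: `pw P (k+l) 1 = sum_z pw P k z * pw P l (z⁻¹)`
(`pw_add`, `bnd_apply`, `tl_apply`), `pw_symm`. `ip_rt_pw`: `sum_g P g * ip (pw P k) (rt g (pw P l)) = pw P (k + l + 1) 1`:
`sum_g P g * pw P l (x g) = pw P (l+1) x` (`pw P (l+1) (x⁻¹) = sum_g P g * pw P l (g⁻¹ x⁻¹) = sum_g P g * pw P l (x g)`, `pw_symm`).
-/

namespace Pool.Agent.H34.RP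

open Pool.Agent.H34.LS

universe u

variable {G : Type u} [Group G] {P : G →₀ ℝ}

theorem ip_pw (hs : ∀ g, P g⁻¹ = P g) (k l : ℕ) : ip (pw P k) (pw P l) = pw P (k + l) 1 := by
  rw [pw_add, bnd_apply]
  unfold ip
  apply Finsupp.sum_congr
  intro z _
  rw [tl_apply, mul_one, pw_symm hs]

theorem avg_pw (hs : ∀ g, P g⁻¹ = P g) (l : ℕ) (x : G) :
    P.sum (fun g a => a * pw P l (x * g)) = pw P (l + 1) x := by
  rw [← pw_symm hs (l + 1) x]
  show P.sum (fun g a => a * pw P l (x * g)) = bnd P (fun g => tl g (pw P l)) x⁻¹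
  rw [bnd_apply]
  apply Finsupp.sum_congr
  intro g _
  rw [tl_apply, ← mul_inv_rev, pw_symm hs]

end Pool.Agent.H34.RP
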