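import Pool.Agent.H34.RP.B2

/-!
B3: `p n = pw P n 1`, `f = pw P k + pw P (k + 1)`.
`ret_pos`: `p (2 k) = sq (pw P k) > 0` (`tot = 1` so `pw P k ≠ 0`). `ret_log`: `a j = p (2 j)` satisfies `a j ^ 2 ≤ a (j-1) * a (j+1)` (Cauchy-Schwarz for
`ip (pw (j-1)) (pw (j+1)) = p (2j)`, `sq (pw j) = a j`), `a 0 = 1`, so `a (k+1) / a k ≥ a k / a (k-1) ≥ … ≥ a 1 / a 0` and `a k = prod ≤ (a (k+1) / a k)^k`, i.e.
`log (a (k+1)) - log (a k) ≥ log (a k) / k` (`k ≥ 1`): with `φ j = - log (a j)` concave, `φ 0 = 0`: `φ (k+1) - φ k ≤ φ k / k`. Then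
`1 - a (k+1) / a k ≤ - log (a (k+1) / a k) = φ (k+1) - φ k ≤ φ k / k`, so `a k - a (k+1) ≤ a k * φ k / k`.
`ret_odd`: `p (2k) - p (2k+1) - p (2k+2) + p (2k+3) = <(1 + P) g, g>` with `g = pw P k - pw P (k+1)`
`= sq g + sum_s P s * ip g (rt s g)`, and `ip g (rt s g) ≥ - sq g` (Cauchy-Schwarz).
-/

namespace Pool.Agent.H34.RP

open Pool.Agent.H34.LS

universe u

variable {G : Type u} [Group G] {P : G →₀ ℝ}

private theorem b3_ip_self (ξ : G →₀ ℝ) : ip ξ ξ = sq ξ := by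
  rw [ip_sum ξ ξ (Finset.Subset.refl _), sq_sum ξ (Finset.Subset.refl _)]
  exact Finset.sum_congr rfl fun x _ => by ring

private theorem b3_cs (ξ η : G →₀ ℝ) : ip ξ η ^ 2 ≤ sq ξ * sq η := by
  classical
  rw [ip_sum ξ η (T := ξ.support ∪ η.support) Finset.subset_union_left,
    sq_sum ξ (T := ξ.support ∪ η.support) Finset.subset_union_left,
    sq_sum η (T := ξ.support ∪ η.support) Finset.subset_union_right]
  exact Finset.sum_mul_sq_le_sq_mul_sq _ _ _

private theorem b3_sq_pw (hs : ∀ g, P g⁻¹ = P g) (k : ℕ) : sq (pw P k) = pw P (2 * k) 1 := by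
  rw [← b3_ip_self, ip_pw hs, two_mul]

theorem ret_pos (hP : Prb P) (hs : ∀ g, P g⁻¹ = P g) (k : ℕ) : 0 < pw P (2 * k) 1 := by
  rw [← b3_sq_pw hs]
  apply sq_pos
  intro h0
  have h1 := tot_pw hP.total k
  rw [h0] at h1
  unfold tot at h1
  rw [Finsupp.sum_zero_index] at h1
  exact zero_ne_one h1

private theorem b3_conv (hs : ∀ g, P g⁻¹ = P g) (j : ℕ) :
    pw P (2 * (j + 1)) 1 ^ 2 ≤ pw P (2 * j) 1 * pw P (2 * (j + 2)) 1 := by
  have h := b3_cs (pw P j) (pw P (j + 2))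
  rw [ip_pw hs, b3_sq_pw hs, b3_sq_pw hs] at h
  have h1 : j + (j + 2) = 2 * (j + 1) := by ring
  rwa [h1] at h

private theorem b3_log (hP : Prb P) (hs : ∀ g, P g⁻¹ = P g) (j : ℕ) :
    Real.log (pw P (2 * (j + 1)) 1) - Real.log (pw P (2 * j) 1) ≤
      Real.log (pw P (2 * (j + 2)) 1) - Real.log (pw P (2 * (j + 1)) 1) := by
  have h0 := ret_pos hP hs j
  have h1 := ret_pos hP hs (j + 1)
  have h2 := ret_pos hP hs (j + 2)
  have h := Real.log_le_log (pow_pos h1 2) (b3_conv hs j)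
  rw [Real.log_pow, Real.log_mul h0.ne' h2.ne'] at h
  push_cast at h
  linarith

private theorem b3_ind (hP : Prb P) (hs : ∀ g, P g⁻¹ = P g) (k : ℕ) :
    Real.log (pw P (2 * k) 1) ≤
      k * (Real.log (pw P (2 * (k + 1)) 1) - Real.log (pw P (2 * k) 1)) := by
  induction k with
  | zero =>
    have h : pw P (2 * 0) 1 = 1 := by
      show (Finsupp.single (1 : G) (1 : ℝ)) 1 = 1
      exact Finsupp.single_eq_same
    rw [h, Real.log_one, Nat.cast_zero, zero_mul]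
  | succ k ih =>
    have h := b3_log hP hs k
    have h1 : ((k : ℝ) + 1) * (Real.log (pw P (2 * (k + 1)) 1) - Real.log (pw P (2 * k) 1)) ≤
        ((k : ℝ) + 1) *
          (Real.log (pw P (2 * (k + 2)) 1) - Real.log (pw P (2 * (k + 1)) 1)) :=
      mul_le_mul_of_nonneg_left h (by positivity)
    have h2 : k + 1 + 1 = k + 2 := rfl
    rw [h2]
    push_cast
    linarith

theorem ret_log (hP : Prb P) (hs : ∀ g, P g⁻¹ = P g) {k : ℕ} (hk : 1 ≤ k) :
    pw P (2 * k) 1 - pw P (2 * k + 2) 1 ≤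
      pw P (2 * k) 1 * (-Real.log (pw P (2 * k) 1) / k) := by
  have hk0 : (0 : ℝ) < k := by exact_mod_cast hk
  have e : 2 * k + 2 = 2 * (k + 1) := by ring
  rw [e]
  have h0 := ret_pos hP hs k
  have h1 := ret_pos hP hs (k + 1)
  have hi := b3_ind hP hs k
  generalize pw P (2 * k) 1 = a at *
  generalize pw P (2 * (k + 1)) 1 = b at *
  have h2 := Real.log_le_sub_one_of_pos (div_pos h1 h0)
  rw [Real.log_div h1.ne' h0.ne'] at h2
  have h3 : Real.log a / k ≤ Real.log b - Real.log a := by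
    rw [div_le_iff₀ hk0]
    linarith
  have h4 : 1 - b / a ≤ -Real.log a / k := by
    rw [neg_div]
    linarith
  have h5 := mul_le_mul_of_nonneg_left h4 h0.le
  have h6 : a * (1 - b / a) = a - b := by
    field_simp
  rw [h6] at h5
  exact h5

private theorem b3_ip_ge (s : G) (ξ : G →₀ ℝ) : -sq ξ ≤ ip ξ (rt s ξ) := by
  have h := b3_cs ξ (rt s ξ)
  rw [sq_rt, ← pow_two] at h
  exact (abs_le_of_sq_le_sq' h (sq_nonneg' ξ)).1

theorem ret_odd (hP : Prb P) (hs : ∀ g, P g⁻¹ = P g) (k : ℕ) :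
    pw P (2 * k + 1) 1 - pw P (2 * k + 3) 1 ≤ pw P (2 * k) 1 - pw P (2 * k + 2) 1 := by
  classical
  obtain ⟨T, hT⟩ : ∃ T : Finset G, T = (pw P k).support ∪ (pw P (k + 1)).support := ⟨_, rfl⟩
  have hu : (pw P k).support ⊆ T := hT ▸ Finset.subset_union_left
  have hv : (pw P (k + 1)).support ⊆ T := hT ▸ Finset.subset_union_right
  have e0 : pw P (2 * k) 1 = ∑ x ∈ T, pw P k x * pw P k x := by
    rw [← ip_sum (pw P k) (pw P k) hu, ip_pw hs, two_mul]
  have e1 : pw P (2 * k + 1) 1 = ∑ x ∈ T, pw P k x * pw P (k + 1) x := by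
    rw [← ip_sum (pw P k) (pw P (k + 1)) hu, ip_pw hs]
    congr 2
    ring
  have e2 : pw P (2 * k + 2) 1 = ∑ x ∈ T, pw P k x * pw P (k + 2) x := by
    rw [← ip_sum (pw P k) (pw P (k + 2)) hu, ip_pw hs]
    congr 2
    ring
  have e3 : pw P (2 * k + 3) 1 = ∑ x ∈ T, pw P (k + 1) x * pw P (k + 2) x := by
    rw [← ip_sum (pw P (k + 1)) (pw P (k + 2)) hv, ip_pw hs]
    congr 2
    ring
  obtain ⟨g, hg⟩ : ∃ g : G →₀ ℝ, g = pw P k - pw P (k + 1) := ⟨_, rfl⟩
  have hgT : g.support ⊆ T := by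
    rw [hg, hT]
    exact Finsupp.support_sub
  have hgx : ∀ x, g x = pw P k x - pw P (k + 1) x := fun x => by rw [hg]; rfl
  have havg : ∀ x, pw P (k + 1) x - pw P (k + 2) x = ∑ s ∈ P.support, P s * g (x * s) := by
    intro x
    rw [← avg_pw hs k x, ← avg_pw hs (k + 1) x]
    unfold Finsupp.sum
    rw [← Finset.sum_sub_distrib]
    refine Finset.sum_congr rfl fun s _ => ?_
    rw [hgx, mul_sub]
  have htot : ∑ s ∈ P.support, P s = 1 := hP.total
  have key : -sq g ≤ ∑ x ∈ T, g x * (pw P (k + 1) x - pw P (k + 2) x) := by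
    calc -sq g = ∑ s ∈ P.support, P s * (-sq g) := by rw [← Finset.sum_mul, htot, one_mul]
      _ ≤ ∑ s ∈ P.support, P s * ip g (rt s g) :=
          Finset.sum_le_sum fun s _ => mul_le_mul_of_nonneg_left (b3_ip_ge s g) (hP.nonneg s)
      _ = ∑ s ∈ P.support, ∑ x ∈ T, g x * (P s * g (x * s)) := by
          refine Finset.sum_congr rfl fun s _ => ?_
          rw [ip_sum g (rt s g) hgT, Finset.mul_sum]
          refine Finset.sum_congr rfl fun x _ => ?_
          rw [rt_apply]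
          ring
      _ = ∑ x ∈ T, g x * (pw P (k + 1) x - pw P (k + 2) x) := by
          rw [Finset.sum_comm]
          refine Finset.sum_congr rfl fun x _ => ?_
          rw [havg x, Finset.mul_sum]
  have hsq : sq g = ∑ x ∈ T, g x ^ 2 := sq_sum g hgT
  have h : 0 ≤ ∑ x ∈ T, (pw P k x * pw P k x - pw P k x * pw P (k + 1) x -
      pw P k x * pw P (k + 2) x + pw P (k + 1) x * pw P (k + 2) x) := by
    calc (0 : ℝ) ≤ sq g + ∑ x ∈ T, g x * (pw P (k + 1) x - pw P (k + 2) x) := by linarith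
      _ = ∑ x ∈ T, (pw P k x * pw P k x - pw P k x * pw P (k + 1) x -
      pw P k x * pw P (k + 2) x + pw P (k + 1) x * pw P (k + 2) x) := by
          rw [hsq, ← Finset.sum_add_distrib]
          refine Finset.sum_congr rfl fun x _ => ?_
          rw [hgx]
          ring
  rw [Finset.sum_add_distrib, Finset.sum_sub_distrib, Finset.sum_sub_distrib, ← e0, ← e1, ← e2,
    ← e3] at h
  linarith

end Pool.Agent.H34.RP
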