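import Pool.Agent.H34.RP.B1
import Pool.Agent.H34.RP.B3
import Pool.Agent.H34.LS.V2

/-!
B4: test functions from return probabilities. `f = pw P k + pw P (k+1)`: `f ≥ 0`, `tot f = 2`, `sq f = p (2k) + 2 p (2k+1) + p (2k+2) ≥ p (2k)` (`ip_pw`, `p ≥ 0`),
`en P f = sq f - sum_g P g * ip f (rt g f) = sq f - (p (2k+1) + 2 p (2k+2) + p (2k+3))` (`en_eq`, `avg_pw`, `ip_pw`; `ip f (rt g f)` summed over `g`
is `ip f f'` with `f' x = sum_g P g * f (x g) = pw P (k+1) x + pw P (k+2) x`) `= (p (2k) - p (2k+2)) + (p (2k+1) - p (2k+3)) ≤ 2 (p (2k) - p (2k+2))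
≤ 2 (ψ / k) p (2k)`, `ψ = - log p (2k) ≥ 0`. Then `trunc`: `en P η ≤ 2 (ψ/k) p (2k) ≤ 2 (ψ/k) sq f ≤ 4 (ψ/k) sq η`; `card ≤ 16 / sq f ≤ 16 / p (2k)`;
`η ≠ 0` since `sq η ≥ sq f / 2 > 0`; log of the cardinality (`≥ 1`).
-/

namespace Pool.Agent.H34.RP

open Pool.Agent.H34.LS

universe u

variable {G : Type u} [Group G] {P : G →₀ ℝ}

/-- inner product of sums of convolution powers with `pw P k + pw P (k+1)` on the left -/
private theorem b4_ip (hs : ∀ g, P g⁻¹ = P g) (k a b : ℕ) {T : Finset G}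
    (hT1 : (pw P k).support ⊆ T) (hT2 : (pw P (k + 1)).support ⊆ T) :
    ∑ x ∈ T, (pw P k x + pw P (k + 1) x) * (pw P a x + pw P b x) =
      pw P (k + a) 1 + pw P (k + b) 1 + pw P (k + 1 + a) 1 + pw P (k + 1 + b) 1 := by
  rw [← ip_pw hs k a, ← ip_pw hs k b, ← ip_pw hs (k + 1) a, ← ip_pw hs (k + 1) b,
    ip_sum _ _ hT1, ip_sum _ _ hT1, ip_sum _ _ hT2, ip_sum _ _ hT2, ← Finset.sum_add_distrib,
    ← Finset.sum_add_distrib, ← Finset.sum_add_distrib]
  exact Finset.sum_congr rfl fun x _ => by ring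

theorem ret_test (hP : Prb P) (hs : ∀ g, P g⁻¹ = P g) {k : ℕ} (hk : 1 ≤ k) :
    ∃ η : G →₀ ℝ, η ≠ 0 ∧ (∀ x, 0 ≤ η x) ∧
      en P η ≤ 4 * (-Real.log (pw P (2 * k) 1) / k) * sq η ∧
      Real.log η.support.card ≤ -Real.log (pw P (2 * k) 1) + Real.log 16 := by
  classical
  have hk0 : (0 : ℝ) < k := by exact_mod_cast hk
  have hn := pw_nonneg hP.nonneg
  obtain ⟨f, hf⟩ : ∃ f : G →₀ ℝ, f = pw P k + pw P (k + 1) := ⟨_, rfl⟩
  have hfx : ∀ x, f x = pw P k x + pw P (k + 1) x := fun x => by rw [hf]; rfl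
  have hf0 : ∀ x, 0 ≤ f x := fun x => by rw [hfx]; exact add_nonneg (hn k x) (hn (k + 1) x)
  have htot : tot f = 2 := by
    rw [hf, tot_add, tot_pw hP.total, tot_pw hP.total]; norm_num
  obtain ⟨T, hT⟩ : ∃ T : Finset G, T = (pw P k).support ∪ (pw P (k + 1)).support := ⟨_, rfl⟩
  have hT1 : (pw P k).support ⊆ T := by rw [hT]; exact Finset.subset_union_left
  have hT2 : (pw P (k + 1)).support ⊆ T := by rw [hT]; exact Finset.subset_union_right
  have hTf : f.support ⊆ T := by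
    rw [hf, hT]; exact Finsupp.support_add
  -- the square norm
  have hsq : sq f = pw P (2 * k) 1 + 2 * pw P (2 * k + 1) 1 + pw P (2 * k + 2) 1 := by
    have h1 := b4_ip hs k k (k + 1) hT1 hT2
    rw [sq_sum f hTf]
    have h2 : ∑ x ∈ T, f x ^ 2 = ∑ x ∈ T, (pw P k x + pw P (k + 1) x) * (pw P k x + pw P (k + 1) x) :=
      Finset.sum_congr rfl fun x _ => by rw [hfx]; ring
    rw [h2, h1, show k + k = 2 * k by ring, show k + (k + 1) = 2 * k + 1 by ring,
      show k + 1 + k = 2 * k + 1 by ring, show k + 1 + (k + 1) = 2 * k + 2 by ring]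
    ring
  have hp := ret_pos hP hs k
  have hsqp : pw P (2 * k) 1 ≤ sq f := by
    rw [hsq]
    have h1 := hn (2 * k + 1) 1
    have h2 := hn (2 * k + 2) 1
    linarith
  have hsq0 : 0 < sq f := lt_of_lt_of_le hp hsqp
  -- the energy
  have hen : en P f = (pw P (2 * k) 1 - pw P (2 * k + 2) 1) +
      (pw P (2 * k + 1) 1 - pw P (2 * k + 3) 1) := by
    rw [en_eq hP f, hsq]
    have h1 := b4_ip hs k (k + 1) (k + 2) hT1 hT2
    have h2 : P.sum (fun g a => a * ip f (rt g f)) =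
        ∑ x ∈ T, (pw P k x + pw P (k + 1) x) * (pw P (k + 1) x + pw P (k + 2) x) := by
      have h3 : ∀ x, P.sum (fun g a => a * f (x * g)) = pw P (k + 1) x + pw P (k + 2) x := by
        intro x
        rw [← avg_pw hs k x, ← avg_pw hs (k + 1) x]
        unfold Finsupp.sum
        rw [← Finset.sum_add_distrib]
        refine Finset.sum_congr rfl fun g _ => ?_
        show P g * f (x * g) = P g * pw P k (x * g) + P g * pw P (k + 1) (x * g)
        rw [hfx]; ring
      have h4 : P.sum (fun g a => a * ip f (rt g f)) =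
          ∑ g ∈ P.support, ∑ x ∈ T, f x * (P g * f (x * g)) := by
        unfold Finsupp.sum
        refine Finset.sum_congr rfl fun g _ => ?_
        show P g * ip f (rt g f) = ∑ x ∈ T, f x * (P g * f (x * g))
        rw [ip_sum f (rt g f) hTf, Finset.mul_sum]
        exact Finset.sum_congr rfl fun x _ => by rw [rt_apply]; ring
      rw [h4, Finset.sum_comm]
      refine Finset.sum_congr rfl fun x _ => ?_
      rw [← Finset.mul_sum, ← h3 x, ← hfx x]
      rfl
    rw [h2, h1, show k + (k + 1) = 2 * k + 1 by ring, show k + (k + 2) = 2 * k + 2 by ring,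
      show k + 1 + (k + 1) = 2 * k + 2 by ring, show k + 1 + (k + 2) = 2 * k + 3 by ring]
    ring
  have hodd := ret_odd hP hs k
  have hlog := ret_log hP hs hk
  have hple : pw P (2 * k) 1 ≤ 1 := pw_le_one hP.nonneg hP.total (2 * k) 1
  have hpsi : 0 ≤ -Real.log (pw P (2 * k) 1) := by
    have := Real.log_nonpos hp.le hple
    linarith
  have hpsik : 0 ≤ -Real.log (pw P (2 * k) 1) / k := div_nonneg hpsi hk0.le
  have hen2 : en P f ≤ 2 * (-Real.log (pw P (2 * k) 1) / k) * sq f := by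
    have h1 : en P f ≤ 2 * (pw P (2 * k) 1 * (-Real.log (pw P (2 * k) 1) / k)) := by
      rw [hen]; linarith
    have h2 : pw P (2 * k) 1 * (-Real.log (pw P (2 * k) 1) / k) ≤
        sq f * (-Real.log (pw P (2 * k) 1) / k) := mul_le_mul_of_nonneg_right hsqp hpsik
    linarith
  obtain ⟨η, h0, h1, h2, h3⟩ := trunc hP.nonneg hf0 htot hsq0
  have hη : η ≠ 0 := by
    intro h
    have h4 : sq η = 0 := by
      rw [h]
      unfold sq
      exact Finsupp.sum_zero_index
    linarith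
  refine ⟨η, hη, h0, ?_, ?_⟩
  · have h4 : 2 * (-Real.log (pw P (2 * k) 1) / k) * sq f ≤
        2 * (-Real.log (pw P (2 * k) 1) / k) * (2 * sq η) :=
      mul_le_mul_of_nonneg_left (by linarith) (by linarith)
    calc en P η ≤ en P f := h2
      _ ≤ 2 * (-Real.log (pw P (2 * k) 1) / k) * sq f := hen2
      _ ≤ 2 * (-Real.log (pw P (2 * k) 1) / k) * (2 * sq η) := h4
      _ = _ := by ring
  · have hc : (0 : ℝ) < η.support.card := by
      have : 0 < η.support.card := Finset.card_pos.mpr (Finsupp.support_nonempty_iff.mpr hη)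
      exact_mod_cast this
    have h4 : (η.support.card : ℝ) ≤ 16 / pw P (2 * k) 1 :=
      h3.trans (div_le_div_of_nonneg_left (by norm_num) hp hsqp)
    have h5 := Real.log_le_log hc h4
    rw [Real.log_div (by norm_num) hp.ne'] at h5
    linarith

end Pool.Agent.H34.RP
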