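import Mathlib

/-!
C2: change of scale. `l j = 4 * (b j / 2^j) > 0`, so `b j ^ 2 / 2^j = (l j)^2 * 2^j / 16`.

(a) For every `i` there is `j` with `l j ≤ 1 / 4^i`: otherwise `l j > δ = 1 / 4^i` for all `j`, `b j ^ 2 / 2^j ≥ δ^2 * 2^j / 16 ≥ δ^2 * (j + 1) / 16` (`2^j ≥ j + 1`),
and `exp (- c * ...)` is dominated by a geometric series. `J i` = the least such `j` (`Nat.find`). `J` is monotone (`1 / 4^(i+1) ≤ 1 / 4^i` and minimality).

(b) Suppose `∑_i exp (-(c * K i))` converges, `c > 0`, `K i = (b (J i) + 3) / 4^i`. Put `x i = 2^(J i) / 16^i`. `b (J i) = l (J i) * 2^(J i) / 4 ≤ 2^(J i) / (4 * 4^i)`, so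
`K i ≤ x i / 4 + 3`. The terms of a convergent series tend to `0`, so `K i ≥ 4` and hence `x i ≥ 1` for `i ≥ i0`. For `j ≥ J i0` let `i = i(j)` be the
largest `i` with `J i ≤ j` (it exists: `J i ≤ j` gives `l j' ≤ 1 / 4^i` for `j' = J i ≤ j`, and `min_{j' ≤ j} l j' > 0`, so `i` is bounded; `Nat.findGreatest` or `Nat.find` of the first
`i` with `J (i+1) > j`; for instance `j < J (i+1)` for some `i` since `J` is unbounded), `i ≥ i0`, `d = j - J i`. As `j < J (i+1)`: `l j > 1 / 4^(i+1)`, so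
`b j ^ 2 / 2^j ≥ 2^j / (256 * 16^i) = x i * 2^d / 256 ≥ x i * (1 + d / 2) / 256 ≥ x i / 256 + d / 512`. With `c' = 64 * c + 512`:
`c' * (b j ^ 2 / 2^j) ≥ c * x i / 4 + d ≥ c * K i - 3 * c + d`. So `exp (-(c' * b j^2 / 2^j)) ≤ exp (3 c) * exp (-(c * K i)) * exp (-d)`, and `j ↦ (i, d)` is injective
(`j = J i + d`), so the series over `j ≥ J i0` is bounded by the product of the two convergent series (`Summable.mul_of_nonneg`, `Summable.comp_injective`, `Summable.of_nonneg_of_le`),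
contradiction with `hdiv c'` (`summable_nat_add_iff`).
-/

namespace Pool.Agent.H34.RP

open Filter

private theorem c2_a {b p q : ℝ} (_ : 0 < b) (hp : 0 < p) (hq : 0 < q)
    (h : 1 / q < 4 * (b / p)) : p ≤ 16 * q ^ 2 * (b ^ 2 / p) := by
  rw [div_lt_iff₀ hq] at h
  have h0 : 4 * (b / p) * q = 4 * b * q / p := by ring
  rw [h0, lt_div_iff₀ hp, one_mul] at h
  rw [← mul_div_assoc, le_div_iff₀ hp]
  have h1 := mul_self_le_mul_self hp.le h.le
  have h2 : 4 * b * q * (4 * b * q) = 16 * q ^ 2 * b ^ 2 := by ring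
  rwa [h2] at h1

private theorem c2_pow (i : ℕ) : ((4 : ℝ) ^ i) ^ 2 = 16 ^ i := by
  rw [← pow_mul, mul_comm, pow_mul]
  norm_num

private theorem c2_two (d : ℕ) : (d : ℝ) ≤ 2 ^ d := by
  have h : d < 2 ^ d := Nat.lt_two_pow_self
  exact_mod_cast h.le

theorem conv {b : ℕ → ℝ} (hb : ∀ j, 1 ≤ b j)
    (hdiv : ∀ c : ℝ, 0 < c → ¬ Summable (fun j : ℕ => Real.exp (-(c * (b j ^ 2 / 2 ^ j))))) :
    ∃ J : ℕ → ℕ, (∀ i, 4 * (b (J i) / 2 ^ (J i)) ≤ 1 / 4 ^ i) ∧
      ∀ c : ℝ, 0 < c → ¬ Summable (fun i : ℕ => Real.exp (-(c * ((b (J i) + 3) / 4 ^ i)))) := by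
  classical
  have hb0 : ∀ j, 0 < b j := fun j => lt_of_lt_of_le one_pos (hb j)
  have ha : ∀ i : ℕ, ∃ j : ℕ, 4 * (b j / 2 ^ j) ≤ 1 / (4 : ℝ) ^ i := by
    intro i
    by_contra hcon
    push Not at hcon
    refine hdiv (16 * 16 ^ i) (by positivity) ?_
    refine Summable.of_nonneg_of_le (fun j => (Real.exp_pos _).le) (fun j => ?_)
      Real.summable_exp_neg_nat
    apply Real.exp_le_exp.2
    have h1 := c2_a (hb0 j) (p := 2 ^ j) (q := 4 ^ i) (by positivity) (by positivity) (hcon j)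
    rw [c2_pow] at h1
    have h2 := c2_two j
    linarith
  obtain ⟨J, hJ1, hJ2⟩ : ∃ J : ℕ → ℕ, (∀ i, 4 * (b (J i) / 2 ^ (J i)) ≤ 1 / (4 : ℝ) ^ i) ∧
      ∀ i j, 4 * (b j / 2 ^ j) ≤ 1 / (4 : ℝ) ^ i → J i ≤ j :=
    ⟨fun i => Nat.find (ha i), fun i => Nat.find_spec (ha i), fun i j h => Nat.find_min' (ha i) h⟩
  refine ⟨J, hJ1, ?_⟩
  intro c hc hsum
  have hmono : ∀ i i', i ≤ i' → J i ≤ J i' := by
    intro i i' h
    apply hJ2
    refine (hJ1 i').trans ?_
    apply one_div_le_one_div_of_le (by positivity)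
    exact pow_le_pow_right₀ (by norm_num) h
  have hgt : ∀ i, i < J i := by
    intro i
    have h1 := hJ1 i
    have h2 : (4 : ℝ) * (1 / 2 ^ (J i)) ≤ 1 / 4 ^ i := by
      refine le_trans ?_ h1
      have h3 : (1 : ℝ) / 2 ^ (J i) ≤ b (J i) / 2 ^ (J i) :=
        div_le_div_of_nonneg_right (hb _) (by positivity)
      linarith
    by_contra hcon
    push Not at hcon
    have h3 : (2 : ℝ) ^ (J i) ≤ 2 ^ i := pow_le_pow_right₀ (by norm_num) hcon
    have h4 : (2 : ℝ) ^ i ≤ 4 ^ i := pow_le_pow_left₀ (by norm_num) (by norm_num) i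
    have h5 : (1 : ℝ) / 4 ^ i ≤ 1 / 2 ^ (J i) :=
      one_div_le_one_div_of_le (by positivity) (h3.trans h4)
    have h6 : (0 : ℝ) < 1 / 2 ^ (J i) := by positivity
    linarith
  -- the terms tend to zero
  obtain ⟨i0, hi0⟩ : ∃ i0, ∀ i, i0 ≤ i → 4 ≤ (b (J i) + 3) / (4 : ℝ) ^ i := by
    have h1 := hsum.tendsto_atTop_zero
    have h2 : (0 : ℝ) < Real.exp (-(c * 4)) := Real.exp_pos _
    have h3 := (h1.eventually (gt_mem_nhds h2))
    obtain ⟨i0, h4⟩ := Filter.eventually_atTop.1 h3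
    refine ⟨i0, fun i hi => ?_⟩
    have h5 := h4 i hi
    rw [Real.exp_lt_exp] at h5
    have h6 : c * 4 < c * ((b (J i) + 3) / 4 ^ i) := by linarith
    exact (lt_of_mul_lt_mul_left h6 hc.le).le
  -- the index of the block of `j`
  have hex : ∀ j, ∃ i, j < J (i + 1) := fun j =>
    ⟨j, lt_of_le_of_lt (Nat.le_succ j) (hgt (j + 1))⟩
  obtain ⟨N, hN1, hN2⟩ : ∃ N : ℕ → ℕ, (∀ j, j < J (N j + 1)) ∧ ∀ j i, i < N j → J (i + 1) ≤ j :=
    ⟨fun j => Nat.find (hex j), fun j => Nat.find_spec (hex j), fun j i h =>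
      Nat.le_of_not_lt (Nat.find_min (hex j) h)⟩
  have hN3 : ∀ j, J i0 ≤ j → i0 ≤ N j := by
    intro j hj
    by_contra hcon
    push Not at hcon
    have h1 := hN1 j
    have h2 := hmono (N j + 1) i0 hcon
    omega
  have hN4 : ∀ j, J i0 ≤ j → J (N j) ≤ j := by
    intro j hj
    rcases Nat.eq_zero_or_pos (N j) with h | h
    · have h1 := hN3 j hj
      have h2 : i0 = 0 := by omega
      rw [h, ← h2]
      exact hj
    · have h1 := hN2 j (N j - 1) (by omega)
      rwa [Nat.sub_add_cancel h] at h1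
  -- the bound
  have hbd : ∀ j, J i0 ≤ j → Real.exp (-((64 * c + 512) * (b j ^ 2 / 2 ^ j))) ≤
      Real.exp (3 * c) * (Real.exp (-(c * ((b (J (N j)) + 3) / 4 ^ (N j)))) *
        Real.exp (-((j - J (N j) : ℕ) : ℝ))) := by
    intro j hj
    rw [← Real.exp_add, ← Real.exp_add, Real.exp_le_exp]
    have h1 := hN3 j hj
    have h2 := hN4 j hj
    obtain ⟨d, hd⟩ : ∃ d, j = J (N j) + d := ⟨j - J (N j), by omega⟩
    have hd' : j - J (N j) = d := by omega
    rw [hd']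
    have h3 : ¬ (4 * (b j / 2 ^ j) ≤ 1 / (4 : ℝ) ^ (N j + 1)) := by
      intro h
      have h4 := hJ2 _ _ h
      have h5 := hN1 j
      omega
    push Not at h3
    have h4 := c2_a (hb0 j) (p := 2 ^ j) (q := 4 ^ (N j + 1)) (by positivity) (by positivity) h3
    rw [c2_pow, pow_succ] at h4
    set X : ℝ := 2 ^ (J (N j)) / 16 ^ (N j) with hX
    have hX0 : 0 < X := by positivity
    have h5 : X * 2 ^ d ≤ 256 * (b j ^ 2 / 2 ^ j) := by
      have h6 : X * 2 ^ d = 2 ^ j / 16 ^ (N j) := by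
        rw [hX]
        have h7 : (2 : ℝ) ^ j = 2 ^ (J (N j)) * 2 ^ d := by
          rw [← pow_add, ← hd]
        rw [h7]
        ring
      rw [h6, div_le_iff₀ (by positivity)]
      linarith
    have h6 : (b (J (N j)) + 3) / 4 ^ (N j) ≤ X / 4 + 3 := by
      have h7 := hJ1 (N j)
      have h8 : b (J (N j)) / 4 ^ (N j) ≤ X / 4 := by
        rw [hX]
        have h9 : (0 : ℝ) < 2 ^ (J (N j)) := by positivity
        have h10 : (0 : ℝ) < 4 ^ (N j) := by positivity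
        have h11 : 4 * b (J (N j)) * 4 ^ (N j) ≤ 2 ^ (J (N j)) := by
          rw [le_div_iff₀ h10] at h7
          have h12 : 4 * (b (J (N j)) / 2 ^ (J (N j))) * 4 ^ (N j) =
              4 * b (J (N j)) * 4 ^ (N j) / 2 ^ (J (N j)) := by ring
          rw [h12, div_le_iff₀ h9, one_mul] at h7
          exact h7
        rw [div_le_iff₀ h10]
        have h13 : (2 : ℝ) ^ (J (N j)) / 16 ^ (N j) / 4 * 4 ^ (N j) =
            2 ^ (J (N j)) / (4 * 4 ^ (N j)) := by
          rw [← c2_pow]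
          field_simp
        rw [h13, le_div_iff₀ (by positivity)]
        linarith
      have h9 : (3 : ℝ) / 4 ^ (N j) ≤ 3 := by
        apply div_le_self (by norm_num)
        exact one_le_pow₀ (by norm_num)
      rw [add_div]
      linarith
    have h7 := hi0 (N j) h1
    have h8 : 1 ≤ X := by linarith
    have h9 : (1 : ℝ) ≤ 2 ^ d := one_le_pow₀ (by norm_num)
    have h10 := c2_two d
    have h11 : (d : ℝ) ≤ X * 2 ^ d := by nlinarith
    have h12 : X ≤ X * 2 ^ d := by nlinarith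
    have h13 : c * ((b (J (N j)) + 3) / 4 ^ (N j)) ≤ c * (X / 4 + 3) :=
      mul_le_mul_of_nonneg_left h6 hc.le
    have h14 : c * X ≤ c * (256 * (b j ^ 2 / 2 ^ j)) :=
      mul_le_mul_of_nonneg_left (h12.trans h5) hc.le
    have h15 : (0 : ℝ) ≤ (d : ℝ) := Nat.cast_nonneg d
    have h16 : (d : ℝ) ≤ 512 * (b j ^ 2 / 2 ^ j) := by linarith
    linarith
  -- summation
  have hg : Summable (fun x : ℕ × ℕ => Real.exp (-(c * ((b (J x.1) + 3) / 4 ^ x.1))) *
      Real.exp (-(x.2 : ℝ))) :=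
    Summable.mul_of_nonneg hsum Real.summable_exp_neg_nat (fun _ => (Real.exp_pos _).le)
      (fun _ => (Real.exp_pos _).le)
  have hinj : Function.Injective (fun k : ℕ => (N (k + J i0), (k + J i0) - J (N (k + J i0)))) := by
    intro k k' h
    rw [Prod.mk.injEq] at h
    obtain ⟨h1, h2⟩ := h
    have h3 := hN4 (k + J i0) (by omega)
    have h4 := hN4 (k' + J i0) (by omega)
    rw [h1] at h2 h3
    omega
  have hs2 := hg.comp_injective hinj
  refine hdiv (64 * c + 512) (by positivity) ?_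
  rw [← summable_nat_add_iff (J i0)]
  refine Summable.of_nonneg_of_le (fun j => (Real.exp_pos _).le) (fun k => ?_)
    (hs2.mul_left (Real.exp (3 * c)))
  exact hbd (k + J i0) (by omega)

end Pool.Agent.H34.RP
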