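import Mathlib

/-!
C3: two sufficient conditions for divergence. Little-o: for large `j`, `ψ (2^j)^2 / 2^j ≤ e^2 * log (log (2^j))` and `log (2^j) = j log 2 ≤ j`, so `log log ≤ log j`; with `e^2 * c ≤ 1` the term is
at least `exp (- log j) = 1 / j` (`j ≥ 2`; note `0 ≤ ψ` is used for squaring; `log log (2^j) ≥ 0` for `j ≥ 4`). Frequently: if `ψ n ≤ C sqrt n` with `n ≥ 1`, `2^j ≤ n < 2^(j+1)` (`j = Nat.log 2 n`), then
`ψ (2^j) ≤ ψ n ≤ C sqrt (2^(j+1))`, `ψ (2^j)^2 / 2^j ≤ 2 C^2` (`C` may be replaced by `max C 0`); so the terms do not tend to `0` (they are `≥ exp (- 2 c C^2)` for infinitely many `j`).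
-/

namespace Pool.Agent.H34.RP

open Filter

theorem div_little_o {ψ : ℕ → ℝ} (h0 : ∀ n, 0 ≤ ψ n)
    (hψ : ∀ c : ℝ, 0 < c → ∀ᶠ n : ℕ in atTop, ψ n ≤ c * Real.sqrt (n * Real.log (Real.log n)))
    {c : ℝ} (hc : 0 < c) :
    ¬ Summable (fun j : ℕ => Real.exp (-(c * (ψ (2 ^ j) ^ 2 / 2 ^ j)))) := by
  intro hs
  have hc1 : 0 < 1 / c := one_div_pos.2 hc
  have t2 : Tendsto (fun j : ℕ => 2 ^ j) atTop atTop :=
    tendsto_pow_atTop_atTop_of_one_lt (by norm_num)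
  have e1 := t2.eventually (hψ (Real.sqrt (1 / c)) (Real.sqrt_pos.2 hc1))
  refine Real.not_summable_one_div_natCast ?_
  refine Summable.of_norm_bounded_eventually_nat hs ?_
  filter_upwards [e1, eventually_ge_atTop 2] with j h1 hj
  have hj0 : (0 : ℝ) < (j : ℝ) := by
    have : 0 < j := by omega
    exact_mod_cast this
  have hj2 : (2 : ℝ) ≤ (j : ℝ) := by exact_mod_cast hj
  have hcast : ((2 ^ j : ℕ) : ℝ) = (2 : ℝ) ^ j := by push_cast; rfl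
  rw [hcast] at h1
  have hl2 : Real.log ((2 : ℝ) ^ j) = j * Real.log 2 := Real.log_pow (2 : ℝ) j
  have ha : 0.6931471803 < Real.log 2 := Real.log_two_gt_d9
  have hb : Real.log 2 < 0.6931471808 := Real.log_two_lt_d9
  have h3 : 1 ≤ Real.log ((2 : ℝ) ^ j) := by
    rw [hl2]
    nlinarith
  have h4 : Real.log ((2 : ℝ) ^ j) ≤ j := by
    rw [hl2]
    nlinarith
  have h5 : 0 ≤ Real.log (Real.log ((2 : ℝ) ^ j)) := Real.log_nonneg h3
  have h6 : Real.log (Real.log ((2 : ℝ) ^ j)) ≤ Real.log j :=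
    Real.log_le_log (by linarith) h4
  have hp : (0 : ℝ) < (2 : ℝ) ^ j := by positivity
  have h7 : ψ (2 ^ j) ^ 2 ≤ 1 / c * ((2 : ℝ) ^ j * Real.log (Real.log ((2 : ℝ) ^ j))) := by
    have h8 := pow_le_pow_left₀ (h0 (2 ^ j)) h1 2
    rw [mul_pow, Real.sq_sqrt hc1.le, Real.sq_sqrt (mul_nonneg hp.le h5)] at h8
    exact h8
  have h9 : c * (ψ (2 ^ j) ^ 2 / 2 ^ j) ≤ Real.log j := by
    have h10 : ψ (2 ^ j) ^ 2 / 2 ^ j ≤ 1 / c * Real.log (Real.log ((2 : ℝ) ^ j)) := by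
      rw [div_le_iff₀ hp]
      linarith
    have h11 : c * (ψ (2 ^ j) ^ 2 / 2 ^ j)
        ≤ c * (1 / c * Real.log (Real.log ((2 : ℝ) ^ j))) :=
      mul_le_mul_of_nonneg_left h10 hc.le
    have h12 : c * (1 / c * Real.log (Real.log ((2 : ℝ) ^ j)))
        = Real.log (Real.log ((2 : ℝ) ^ j)) := by
      field_simp
    linarith
  have h13 : Real.exp (-Real.log (j : ℝ)) = 1 / (j : ℝ) := by
    rw [Real.exp_neg, Real.exp_log hj0, one_div]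
  rw [Real.norm_of_nonneg (by positivity), ← h13]
  exact Real.exp_le_exp.2 (by linarith)

theorem div_frequently {ψ : ℕ → ℝ} (h0 : ∀ n, 0 ≤ ψ n) (hmono : Monotone ψ) {C : ℝ}
    (hψ : ∃ᶠ n : ℕ in atTop, ψ n ≤ C * Real.sqrt n) {c : ℝ} (hc : 0 < c) :
    ¬ Summable (fun j : ℕ => Real.exp (-(c * (ψ (2 ^ j) ^ 2 / 2 ^ j)))) := by
  intro hs
  have h1 := hs.tendsto_atTop_zero
  have h2 : ∀ᶠ j : ℕ in atTop, Real.exp (-(c * (ψ (2 ^ j) ^ 2 / 2 ^ j)))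
      < Real.exp (-(c * (2 * C ^ 2))) := h1.eventually (gt_mem_nhds (Real.exp_pos _))
  obtain ⟨J, hJ⟩ := eventually_atTop.1 h2
  obtain ⟨n, hn, hn1⟩ := (frequently_atTop.1 hψ) (2 ^ J)
  have hn0 : n ≠ 0 := by
    have : 0 < 2 ^ J := by positivity
    omega
  have hjJ : J ≤ Nat.log 2 n := Nat.le_log_of_pow_le (by norm_num) hn
  have h3 : 2 ^ Nat.log 2 n ≤ n := Nat.pow_log_le_self 2 hn0
  have h4 : n < 2 ^ (Nat.log 2 n + 1) := Nat.lt_pow_succ_log_self (by norm_num) n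
  obtain ⟨j, hj⟩ : ∃ j, j = Nat.log 2 n := ⟨_, rfl⟩
  rw [← hj] at hjJ h3 h4
  have h5 := hJ j hjJ
  have h6 : ψ (2 ^ j) ≤ C * Real.sqrt n := (hmono h3).trans hn1
  have h7 : ψ (2 ^ j) ^ 2 ≤ C ^ 2 * n := by
    have h8 := pow_le_pow_left₀ (h0 (2 ^ j)) h6 2
    rw [mul_pow, Real.sq_sqrt (Nat.cast_nonneg n)] at h8
    exact h8
  have h9 : (n : ℝ) ≤ 2 * 2 ^ j := by
    have h10 : n ≤ 2 ^ (j + 1) := h4.le
    have h11 : (n : ℝ) ≤ ((2 ^ (j + 1) : ℕ) : ℝ) := by exact_mod_cast h10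
    rw [Nat.cast_pow, pow_succ] at h11
    push_cast at h11
    linarith
  have hp : (0 : ℝ) < (2 : ℝ) ^ j := by positivity
  have h12 : ψ (2 ^ j) ^ 2 / 2 ^ j ≤ 2 * C ^ 2 := by
    rw [div_le_iff₀ hp]
    have h13 : C ^ 2 * (n : ℝ) ≤ C ^ 2 * (2 * 2 ^ j) :=
      mul_le_mul_of_nonneg_left h9 (sq_nonneg C)
    linarith
  have h14 : c * (ψ (2 ^ j) ^ 2 / 2 ^ j) ≤ c * (2 * C ^ 2) :=
    mul_le_mul_of_nonneg_left h12 hc.le
  have h15 := Real.exp_lt_exp.1 h5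
  linarith

end Pool.Agent.H34.RP
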