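import Pool.Agent.H34.RP.H0
import Pool.Agent.H34.RP.D0

/-!
D1: `fent (pw q m) ≤ m * fent q - zz q S m y + fent (kd q S m y)`.

First, by induction on `m`, for all `y`: `fent (pw q m - kd q S m y) ≤ m * fent q - zz q S m y`. `m = 0`: `pw q 0 = single 1 1`;
`y ∈ S`: `fent 0 = 0`; `y ∉ S`: `fent (single 1 1) = 0`. Step, `y ∈ S`:
`pw q (m+1) - kd q S (m+1) y = bnd q (fun g => tl g (pw q m - kd q S m (y * g)))` (`bnd_apply`, `tl_apply`), the functions are
nonnegative (`kd_le_pw`), so by `fent_bnd_le`, `fent_tl`, `tot_tl`, `tot (pw q m - kd q S m y') = 1 - su q S m y'`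
(`tot_pw`, `tot_kd`; subtraction: `tot (p - r) + tot r = tot p` by `tot_add`):
`fent (..) ≤ sum_g q g * (m * fent q - zz q S m (y * g)) + sum_g negMulLog (q g) * (1 - su q S m (y * g))
 = (m + 1) * fent q - zz q S (m+1) y` (`negMulLog a = - a * log a`, `fent q = sum_g negMulLog (q g)`, `tot q = 1`).
`y ∉ S`: `kd = 0`, `zz = 0` and `fent (pw q (m+1)) ≤ (m+1) * fent q` by the same computation without killing (prove
`fent (pw q m) ≤ m * fent q` first). Then `pw q m = (pw q m - kd) + kd` and `fent_add_le`.
-/

namespace Pool.Agent.H34.RP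

open Pool.Agent.H34.LS

universe u

variable {G : Type u} [Group G] {q : G →₀ ℝ}

private theorem d1_fent_zero {X : Type u} : fent (0 : X →₀ ℝ) = 0 := by
  unfold fent
  exact Finsupp.sum_zero_index

private theorem d1_fent_single {X : Type u} (x : X) : fent (Finsupp.single x (1 : ℝ)) = 0 := by
  unfold fent
  rw [Finsupp.sum_single_index Real.negMulLog_zero]
  exact Real.negMulLog_one

private theorem d1_step (hq : Prb q) (F : G → (G →₀ ℝ)) (hF : ∀ g x, 0 ≤ F g x) :
    fent (bnd q (fun g => tl g (F g))) ≤
      q.sum (fun g a => a * fent (F g)) + q.sum (fun g a => Real.negMulLog a * tot (F g)) := by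
  have h := fent_bnd_le (q := q) hq.nonneg (F := fun g => tl g (F g))
    (fun g x => tl_nonneg g (hF g) x)
  simp only [fent_tl, tot_tl] at h
  exact h

private theorem d1_bound (hq : Prb q) (F : G → (G →₀ ℝ)) (hF : ∀ g x, 0 ≤ F g x) (m : ℕ)
    (z s : G → ℝ) (hz : ∀ g, fent (F g) ≤ m * fent q - z g) (hs : ∀ g, tot (F g) = 1 - s g) :
    fent (bnd q (fun g => tl g (F g))) ≤ (m + 1 : ℕ) * fent q -
      q.sum (fun g a => a * (-Real.log a * s g + z g)) := by
  refine (d1_step hq F hF).trans ?_
  have h1 : q.sum (fun g a => a * fent (F g)) ≤ q.sum (fun g a => a * (m * fent q - z g)) := by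
    unfold Finsupp.sum
    exact Finset.sum_le_sum (fun g _ => mul_le_mul_of_nonneg_left (hz g) (hq.nonneg g))
  have h2 : q.sum (fun g a => a * (m * fent q - z g)) +
      q.sum (fun g a => Real.negMulLog a * tot (F g)) =
      m * fent q * tot q + fent q - q.sum (fun g a => a * (-Real.log a * s g + z g)) := by
    have e1 : m * fent q * tot q = ∑ g ∈ q.support, m * fent q * q g := by
      unfold tot Finsupp.sum
      rw [Finset.mul_sum]
    have e2 : fent q = ∑ g ∈ q.support, Real.negMulLog (q g) := rfl
    rw [e1]
    have e3 : (∑ g ∈ q.support, m * fent q * q g) + fent q =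
        (∑ g ∈ q.support, m * fent q * q g) + ∑ g ∈ q.support, Real.negMulLog (q g) := by
      rw [← e2]
    rw [e3]
    show (∑ g ∈ q.support, q g * (m * fent q - z g)) +
      (∑ g ∈ q.support, Real.negMulLog (q g) * tot (F g)) =
      (∑ g ∈ q.support, m * fent q * q g) + (∑ g ∈ q.support, Real.negMulLog (q g)) -
      ∑ g ∈ q.support, q g * (-Real.log (q g) * s g + z g)
    rw [← Finset.sum_add_distrib, ← Finset.sum_add_distrib, ← Finset.sum_sub_distrib]
    refine Finset.sum_congr rfl fun g _ => ?_
    rw [hs g]
    unfold Real.negMulLog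
    ring
  rw [hq.total] at h2
  push_cast
  linarith

private theorem d1_pw (hq : Prb q) (m : ℕ) : fent (pw q m) ≤ m * fent q := by
  induction m with
  | zero =>
    show fent (Finsupp.single (1 : G) (1 : ℝ)) ≤ _
    rw [d1_fent_single]
    simp
  | succ m ih =>
    have h := d1_bound hq (fun _ => pw q m) (fun _ x => pw_nonneg hq.nonneg m x) m
      (fun _ => 0) (fun _ => 0) (fun g => by rw [sub_zero]; exact ih)
      (fun g => by rw [sub_zero]; exact tot_pw hq.total m)
    have h0 : q.sum (fun g a => a * (-Real.log a * (fun _ : G => (0 : ℝ)) g +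
        (fun _ : G => (0 : ℝ)) g)) = 0 := by
      unfold Finsupp.sum
      refine Finset.sum_eq_zero fun g _ => ?_
      simp
    rw [h0, sub_zero] at h
    exact h

private theorem d1_tot_sub (hq : Prb q) (S : Finset G) (m : ℕ) (y : G) :
    tot (pw q m - kd q S m y) = 1 - su q S m y := by
  have h : tot (pw q m - kd q S m y) + tot (kd q S m y) = tot (pw q m) := by
    rw [← tot_add, sub_add_cancel]
  rw [tot_pw hq.total m, tot_kd] at h
  linarith

private theorem d1_sub_nonneg (hq : Prb q) (S : Finset G) (m : ℕ) (y x : G) :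
    0 ≤ (pw q m - kd q S m y) x := by
  rw [Finsupp.sub_apply]
  linarith [kd_le_pw hq.nonneg S m y x]

private theorem d1_main (hq : Prb q) (S : Finset G) (m : ℕ) (y : G) :
    fent (pw q m - kd q S m y) ≤ m * fent q - zz q S m y := by
  classical
  induction m generalizing y with
  | zero =>
    have hz : zz q S 0 y = 0 := rfl
    rw [hz]
    by_cases hy : y ∈ S
    · have hk : kd q S 0 y = Finsupp.single 1 1 := by
        unfold kd
        rw [if_pos hy]
      have hp : pw q 0 = Finsupp.single 1 1 := rfl
      rw [hk, hp, sub_self, d1_fent_zero]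
      simp
    · have hk : kd q S 0 y = 0 := by
        unfold kd
        rw [if_neg hy]
      have hp : pw q 0 = Finsupp.single 1 1 := rfl
      rw [hk, hp, sub_zero, d1_fent_single]
      simp
  | succ m ih =>
    by_cases hy : y ∈ S
    · have hk : kd q S (m + 1) y = bnd q (fun g => tl g (kd q S m (y * g))) := by
        rw [kd, if_pos hy]
      have hz : zz q S (m + 1) y =
          q.sum (fun g a => a * (-Real.log a * su q S m (y * g) + zz q S m (y * g))) := by
        rw [zz, if_pos hy]
      have he : pw q (m + 1) - kd q S (m + 1) y =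
          bnd q (fun g => tl g (pw q m - kd q S m (y * g))) := by
        have hp : pw q (m + 1) = bnd q (fun g => tl g (pw q m)) := rfl
        rw [hk, hp]
        ext x
        rw [Finsupp.sub_apply, bnd_apply, bnd_apply, bnd_apply]
        unfold Finsupp.sum
        rw [← Finset.sum_sub_distrib]
        refine Finset.sum_congr rfl fun g _ => ?_
        show q g * (tl g (pw q m)) x - q g * (tl g (kd q S m (y * g))) x =
          q g * (tl g (pw q m - kd q S m (y * g))) x
        rw [tl_apply, tl_apply, tl_apply, Finsupp.sub_apply]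
        ring
      rw [he, hz]
      exact d1_bound hq (fun g => pw q m - kd q S m (y * g))
        (fun g x => d1_sub_nonneg hq S m (y * g) x) m
        (fun g => zz q S m (y * g)) (fun g => su q S m (y * g)) (fun g => ih (y * g))
        (fun g => d1_tot_sub hq S m (y * g))
    · have hk : kd q S (m + 1) y = 0 := by
        rw [kd, if_neg hy]
      have hz : zz q S (m + 1) y = 0 := by
        rw [zz, if_neg hy]
      rw [hk, hz, sub_zero, sub_zero]
      exact d1_pw hq (m + 1)

theorem drop1 (hq : Prb q) (S : Finset G) (m : ℕ) (y : G) :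
    fent (pw q m) ≤ m * fent q - zz q S m y + fent (kd q S m y) := by
  have h1 : fent (pw q m) = fent ((pw q m - kd q S m y) + kd q S m y) := by
    rw [sub_add_cancel]
  have h2 := fent_add_le (p := pw q m - kd q S m y) (q := kd q S m y)
    (fun x => d1_sub_nonneg hq S m y x) (fun x => kd_nonneg hq.nonneg S m y x)
  have h3 := d1_main hq S m y
  rw [h1]
  linarith

end Pool.Agent.H34.RP
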