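import Pool.Agent.H34.LS.V0

/-!
# Return probabilities and the Liouville property: definitions

`Prb`: finitely supported probability. `su`, `kd`, `zz`: the walk from `y` with step law `q`, killed
outside the finite set `S` (checked at the times `0, …, m`): survival probability, displacement on
survival, expectation on survival of the sum of `- log q (step)`. `op`: integral operator on a
finite set. `rt`, `sq`, `ip`, `dd`, `en`: right translation, square norm, inner product, square norm of
the increments in the direction `g`, energy.
-/

namespace Pool.Agent.H34.RP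

open Pool.Agent.H34.LS

universe u

/-- `q` is a finitely supported probability. -/
structure Prb {X : Type u} (q : X →₀ ℝ) : Prop where
  nonneg : ∀ g, 0 ≤ q g
  total : tot q = 1

section

variable {G : Type u} [Group G]

/-- probability that the walk started at `y` stays in `S` at the times `0, …, m`. -/
noncomputable def su (q : G →₀ ℝ) (S : Finset G) : ℕ → G → ℝ
  | 0, y => open Classical in if y ∈ S then 1 else 0
  | m + 1, y => open Classical in
      if y ∈ S then q.sum (fun g a => a * su q S m (y * g)) else 0

/-- law of the displacement after `m` steps, restricted to survival. -/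
noncomputable def kd (q : G →₀ ℝ) (S : Finset G) : ℕ → G → (G →₀ ℝ)
  | 0, y => open Classical in if y ∈ S then Finsupp.single 1 1 else 0
  | m + 1, y => open Classical in
      if y ∈ S then bnd q (fun g => tl g (kd q S m (y * g))) else 0

/-- expectation, on survival, of the sum of `- log q` over the steps. -/
noncomputable def zz (q : G →₀ ℝ) (S : Finset G) : ℕ → G → ℝ
  | 0, _ => 0
  | m + 1, y => open Classical in
      if y ∈ S then q.sum (fun g a => a * (-Real.log a * su q S m (y * g) + zz q S m (y * g)))
      else 0

/-- the kernel of the walk. -/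
noncomputable def ker (q : G →₀ ℝ) : G → G → ℝ := fun x y => q (x⁻¹ * y)

/-- right translation: `rt g ξ x = ξ (x * g)`. -/
noncomputable def rt (g : G) (ξ : G →₀ ℝ) : G →₀ ℝ := ξ.mapDomain (fun x => x * g⁻¹)

/-- square norm. -/
noncomputable def sq (ξ : G →₀ ℝ) : ℝ := ξ.sum (fun _ a => a ^ 2)

/-- inner product. -/
noncomputable def ip (ξ η : G →₀ ℝ) : ℝ := ξ.sum (fun x a => a * η x)

/-- `sum_x (ξ (x g) - ξ x)^2`. -/
noncomputable def dd (g : G) (ξ : G →₀ ℝ) : ℝ := sq (rt g ξ - ξ)

/-- energy. -/
noncomputable def en (P : G →₀ ℝ) (ξ : G →₀ ℝ) : ℝ := 1 / 2 * P.sum (fun g a => a * dd g ξ)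

/-- convolution powers of a weight function `mu`, evaluated at `x`: `cpow mu n x` is the
probability that the walk started at `1` is at `x` after `n` steps. -/
noncomputable def cpow (mu : G → ℝ) : ℕ → G → ℝ
  | 0 => open Classical in fun x => if x = 1 then 1 else 0
  | n + 1 => fun x => ∑ᶠ g, mu g * cpow mu n (g⁻¹ * x)

end

/-- the operator `f ↦ sum_{y ∈ S} K x y f y`. -/
noncomputable def op {X : Type u} (S : Finset X) (K : X → X → ℝ) (f : X → ℝ) : X → ℝ :=
  fun x => ∑ y ∈ S, K x y * f y

end Pool.Agent.H34.RP
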