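import Pool.Agent.H34.RP.Defs

/-!
E1: iterates of a symmetric operator on a finite set. `<f, g> = ∑ x ∈ S, f x * g x`.
`op_symm`: `<f, op g> = <op f, g>` (`Finset.sum_comm`). Hence `<op^[a] f, op^[b] g> = <f, op^[a+b] g>`. Put
`b j = <op^[j] ξ, op^[j] ξ>`; Cauchy-Schwarz (`Finset.sum_mul_sq_le_sq_mul_sq`):
`b j ^ 2 = <op^[j-1] ξ, op^[j+1] ξ>^2 ≤ b (j-1) * b (j+1)`, `b 0 = 1`, `b 1 = <op ξ, op ξ> ≥ <ξ, op ξ>^2 = r^2` (Cauchy-Schwarz,
`b 0 = 1`). If `b 1 = 0` then `r = 0`: then `b j ≥ 0 = r^(2j)` for `j ≥ 1` and both are `1` for `j = 0`. If `b 1 > 0`: all `b j > 0`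
and `b (j+1) / b j ≥ b j / b (j-1) ≥ … ≥ b 1`, so `b j ≥ b 1 ^ j ≥ r^(2j)`. (Simple way: prove by induction on `j` that
`b 1 ^ j ≤ b j` and `b 1 * b j ≤ b (j+1)`.)
-/

namespace Pool.Agent.H34.RP

universe u

variable {X : Type u} {S : Finset X} {K : X → X → ℝ}

theorem op_symm (hK : ∀ x y, K x y = K y x) (f g : X → ℝ) :
    ∑ x ∈ S, f x * op S K g x = ∑ x ∈ S, op S K f x * g x := by
  unfold op
  simp only [Finset.mul_sum, Finset.sum_mul]
  rw [Finset.sum_comm]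
  refine Finset.sum_congr rfl fun x _ => Finset.sum_congr rfl fun y _ => ?_
  rw [hK y x]
  ring

private theorem E1_iter (hK : ∀ x y, K x y = K y x) (a : ℕ) : ∀ f g : X → ℝ,
    ∑ x ∈ S, f x * ((op S K)^[a] g) x = ∑ x ∈ S, ((op S K)^[a] f) x * g x := by
  induction a with
  | zero => intro f g; rfl
  | succ a ih =>
    intro f g
    rw [Function.iterate_succ_apply, ih f (op S K g), op_symm hK, ← Function.iterate_succ_apply' (op S K)]

private noncomputable def E1b (S : Finset X) (K : X → X → ℝ) (ξ : X → ℝ) (j : ℕ) : ℝ :=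
  ∑ x ∈ S, ((op S K)^[j] ξ) x * ((op S K)^[j] ξ) x

private theorem E1b_nonneg (ξ : X → ℝ) (j : ℕ) : 0 ≤ E1b S K ξ j :=
  Finset.sum_nonneg fun _ _ => mul_self_nonneg _

private theorem E1b_cs (hK : ∀ x y, K x y = K y x) (ξ : X → ℝ) (j : ℕ) :
    E1b S K ξ (j + 1) ^ 2 ≤ E1b S K ξ j * E1b S K ξ (j + 2) := by
  have h1 : E1b S K ξ (j + 1) = ∑ x ∈ S, ((op S K)^[j] ξ) x * ((op S K)^[j + 2] ξ) x := by
    unfold E1b
    have h2 := op_symm (S := S) hK ((op S K)^[j] ξ) ((op S K)^[j + 1] ξ)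
    rw [← Function.iterate_succ_apply' (op S K) (j + 1), ← Function.iterate_succ_apply' (op S K) j] at h2
    exact h2.symm
  rw [h1]
  refine (Finset.sum_mul_sq_le_sq_mul_sq S _ _).trans (le_of_eq ?_)
  unfold E1b
  simp only [pow_two]

private theorem E1_ind (hK : ∀ x y, K x y = K y x) {ξ : X → ℝ} (h0 : E1b S K ξ 0 = 1) (j : ℕ) :
    E1b S K ξ 1 ^ j ≤ E1b S K ξ j ∧ E1b S K ξ 1 * E1b S K ξ j ≤ E1b S K ξ (j + 1) := by
  induction j with
  | zero => exact ⟨by rw [pow_zero, h0], by rw [h0, mul_one]⟩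
  | succ j ih =>
    obtain ⟨ih1, ih2⟩ := ih
    have hb1 := E1b_nonneg (S := S) (K := K) ξ 1
    have hbj := E1b_nonneg (S := S) (K := K) ξ j
    have hbj1 := E1b_nonneg (S := S) (K := K) ξ (j + 1)
    have hbj2 := E1b_nonneg (S := S) (K := K) ξ (j + 2)
    have hcs := E1b_cs (S := S) hK ξ j
    refine ⟨?_, ?_⟩
    · rw [pow_succ']
      exact (mul_le_mul_of_nonneg_left ih1 hb1).trans ih2
    · rcases hbj.eq_or_lt with h | h
      · rw [← h, zero_mul] at hcs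
        have h3 : E1b S K ξ (j + 1) = 0 := by nlinarith
        rw [h3, mul_zero]
        exact hbj2
      · have h3 : E1b S K ξ j * (E1b S K ξ 1 * E1b S K ξ (j + 1)) ≤ E1b S K ξ j * E1b S K ξ (j + 2) := by
          calc E1b S K ξ j * (E1b S K ξ 1 * E1b S K ξ (j + 1)) = (E1b S K ξ 1 * E1b S K ξ j) * E1b S K ξ (j + 1) := by ring
            _ ≤ E1b S K ξ (j + 1) * E1b S K ξ (j + 1) := mul_le_mul_of_nonneg_right ih2 hbj1
            _ = E1b S K ξ (j + 1) ^ 2 := by ring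
            _ ≤ _ := hcs
        exact le_of_mul_le_mul_left h3 h

theorem it_pow (hK : ∀ x y, K x y = K y x) {ξ : X → ℝ} (h1 : ∑ x ∈ S, ξ x ^ 2 = 1) (j : ℕ) :
    (∑ x ∈ S, ξ x * op S K ξ x) ^ (2 * j) ≤ ∑ x ∈ S, ξ x * ((op S K)^[2 * j] ξ) x := by
  have h0 : E1b S K ξ 0 = 1 := by
    rw [← h1]
    unfold E1b
    refine Finset.sum_congr rfl fun x _ => ?_
    rw [Function.iterate_zero_apply]
    ring
  have h2 : ∑ x ∈ S, ξ x * ((op S K)^[2 * j] ξ) x = E1b S K ξ j := by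
    unfold E1b
    rw [two_mul, Function.iterate_add_apply, E1_iter hK]
  have h3 : (∑ x ∈ S, ξ x * op S K ξ x) ^ 2 ≤ E1b S K ξ 1 := by
    refine (Finset.sum_mul_sq_le_sq_mul_sq S _ _).trans (le_of_eq ?_)
    rw [h1, one_mul]
    unfold E1b
    refine Finset.sum_congr rfl fun x _ => ?_
    rw [Function.iterate_one]
    ring
  rw [h2, pow_mul]
  exact (pow_le_pow_left₀ (sq_nonneg _) h3 j).trans (E1_ind hK h0 j).1

end Pool.Agent.H34.RP
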