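import Pool.Agent.H34.RP.Defs

/-!
E2: `<ξ, op^[n] ξ> ≤ <ξ^2, op^[n] 1>` for a symmetric nonnegative kernel, `ξ` arbitrary. Proof: there is a kernel `Kn` (the `n`-fold
composition, `Kn 0 x y = if x = y then 1 else 0`, `Kn (n+1) x y = ∑ z ∈ S, K x z * Kn n z y`), nonnegative, symmetric on `S`,
with `op^[n] f x = ∑ y ∈ S, Kn n x y * f y` for `x ∈ S` (`Function.iterate_succ_apply'`; symmetry: `Kn (n+1) x y = ∑ z, Kn n x z * K z y`,
by induction). Then `∑ ξ x Kn x y ξ y ≤ ∑ (ξ x^2 + ξ y^2)/2 * Kn x y = ∑ ξ x^2 Kn x y`. (Alternative without `Kn`: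
prove by induction on `n` for all symmetric situations with `op_symm`; or use `Matrix` over the subtype.)
`it_mono`: monotonicity in the kernel and the function.
-/

namespace Pool.Agent.H34.RP

universe u

variable {X : Type u} {S : Finset X} {K : X → X → ℝ}

open Classical in
/-- The `n`-fold composition of the kernel. -/
private noncomputable def e2Kn (S : Finset X) (K : X → X → ℝ) : ℕ → X → X → ℝ
  | 0 => fun x y => if x = y then 1 else 0
  | n + 1 => fun x y => ∑ z ∈ S, K x z * e2Kn S K n z y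

private theorem e2_nonneg (hK0 : ∀ x y, 0 ≤ K x y) (n : ℕ) : ∀ x y, 0 ≤ e2Kn S K n x y := by
  classical
  induction n with
  | zero =>
    intro x y
    show (0 : ℝ) ≤ if x = y then 1 else 0
    split_ifs
    · exact zero_le_one
    · exact le_rfl
  | succ n ih => exact fun x y => Finset.sum_nonneg fun z _ => mul_nonneg (hK0 x z) (ih z y)

private theorem e2_it (f : X → ℝ) (n : ℕ) : ∀ x ∈ S, ((op S K)^[n] f) x = ∑ y ∈ S, e2Kn S K n x y * f y := by
  classical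
  induction n with
  | zero =>
    intro x hx
    show f x = ∑ y ∈ S, (if x = y then (1 : ℝ) else 0) * f y
    simp [hx]
  | succ n ih =>
    intro x _
    rw [Function.iterate_succ_apply']
    show ∑ z ∈ S, K x z * ((op S K)^[n] f) z = ∑ y ∈ S, (∑ z ∈ S, K x z * e2Kn S K n z y) * f y
    have h1 : ∀ z ∈ S, K x z * ((op S K)^[n] f) z = ∑ y ∈ S, K x z * e2Kn S K n z y * f y := by
      intro z hz
      rw [ih z hz, Finset.mul_sum]
      exact Finset.sum_congr rfl fun y _ => by ring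
    rw [Finset.sum_congr rfl h1, Finset.sum_comm]
    exact Finset.sum_congr rfl fun y _ => by rw [Finset.sum_mul]

private theorem e2_right (n : ℕ) : ∀ x ∈ S, ∀ y ∈ S,
    e2Kn S K (n + 1) x y = ∑ z ∈ S, e2Kn S K n x z * K z y := by
  classical
  induction n with
  | zero =>
    intro x hx y hy
    show ∑ z ∈ S, K x z * (if z = y then (1 : ℝ) else 0) = ∑ z ∈ S, (if x = z then (1 : ℝ) else 0) * K z y
    simp [hx, hy]
  | succ n ih =>
    intro x hx y hy
    show ∑ z ∈ S, K x z * e2Kn S K (n + 1) z y = ∑ w ∈ S, (∑ z ∈ S, K x z * e2Kn S K n z w) * K w y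
    have h1 : ∀ z ∈ S, K x z * e2Kn S K (n + 1) z y = ∑ w ∈ S, K x z * e2Kn S K n z w * K w y := by
      intro z hz
      rw [ih z hz y hy, Finset.mul_sum]
      exact Finset.sum_congr rfl fun w _ => by ring
    rw [Finset.sum_congr rfl h1, Finset.sum_comm]
    exact Finset.sum_congr rfl fun w _ => by rw [Finset.sum_mul]

private theorem e2_symm (hK : ∀ x y, K x y = K y x) (n : ℕ) : ∀ x ∈ S, ∀ y ∈ S,
    e2Kn S K n x y = e2Kn S K n y x := by
  classical
  induction n with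
  | zero =>
    intro x _ y _
    show (if x = y then (1 : ℝ) else 0) = if y = x then 1 else 0
    by_cases h : x = y
    · rw [if_pos h, if_pos h.symm]
    · rw [if_neg h, if_neg (Ne.symm h)]
  | succ n ih =>
    intro x hx y hy
    rw [e2_right n y hy x hx]
    show ∑ z ∈ S, K x z * e2Kn S K n z y = ∑ z ∈ S, e2Kn S K n y z * K z x
    refine Finset.sum_congr rfl fun z hz => ?_
    rw [ih z hz y hy, hK x z, mul_comm]

theorem it_amgm (hK : ∀ x y, K x y = K y x) (hK0 : ∀ x y, 0 ≤ K x y) (ξ : X → ℝ) (n : ℕ) :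
    ∑ x ∈ S, ξ x * ((op S K)^[n] ξ) x ≤ ∑ x ∈ S, ξ x ^ 2 * ((op S K)^[n] (fun _ => 1)) x := by
  have h1 : ∑ x ∈ S, ξ x * ((op S K)^[n] ξ) x = ∑ x ∈ S, ∑ y ∈ S, ξ x * ξ y * e2Kn S K n x y := by
    refine Finset.sum_congr rfl fun x hx => ?_
    rw [e2_it ξ n x hx, Finset.mul_sum]
    exact Finset.sum_congr rfl fun y _ => by ring
  have h2 : ∑ x ∈ S, ξ x ^ 2 * ((op S K)^[n] (fun _ => 1)) x =
      ∑ x ∈ S, ∑ y ∈ S, ξ x ^ 2 * e2Kn S K n x y := by
    refine Finset.sum_congr rfl fun x hx => ?_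
    rw [e2_it _ n x hx, Finset.mul_sum]
    exact Finset.sum_congr rfl fun y _ => by ring
  have h3 : ∑ x ∈ S, ∑ y ∈ S, ξ x ^ 2 * e2Kn S K n x y =
      ∑ x ∈ S, ∑ y ∈ S, ξ y ^ 2 * e2Kn S K n x y := by
    rw [Finset.sum_comm]
    refine Finset.sum_congr rfl fun x hx => Finset.sum_congr rfl fun y hy => ?_
    rw [e2_symm hK n y hy x hx]
  have h4 : ∑ x ∈ S, ∑ y ∈ S, ξ x * ξ y * e2Kn S K n x y ≤
      ∑ x ∈ S, ∑ y ∈ S, (ξ x ^ 2 * e2Kn S K n x y / 2 + ξ y ^ 2 * e2Kn S K n x y / 2) := by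
    refine Finset.sum_le_sum fun x _ => Finset.sum_le_sum fun y _ => ?_
    have h5 := mul_nonneg (sq_nonneg (ξ x - ξ y)) (e2_nonneg (S := S) hK0 n x y)
    nlinarith
  have h6 : ∑ x ∈ S, ∑ y ∈ S, (ξ x ^ 2 * e2Kn S K n x y / 2 + ξ y ^ 2 * e2Kn S K n x y / 2) =
      (∑ x ∈ S, ∑ y ∈ S, ξ x ^ 2 * e2Kn S K n x y) / 2 +
        (∑ x ∈ S, ∑ y ∈ S, ξ y ^ 2 * e2Kn S K n x y) / 2 := by
    simp only [Finset.sum_add_distrib, Finset.sum_div]
  rw [h1, h2]
  refine h4.trans (le_of_eq ?_)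
  rw [h6, ← h3]
  ring

end Pool.Agent.H34.RP
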