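import Pool.Agent.H34.RP.D0

/-!
E3: `su` and `pw` in terms of `op S (ker q)`, `ker q x y = q (x⁻¹ * y)`.
`pw_symm`: `pw_add` with one step on the right: `pw P (n+1) = bnd (pw P n) (fun z => tl z P)` (`pw_add P n 1`, `pw P 1 = P`), or
`pw P (n+1) x = sum_g P g * pw P n (g⁻¹ x) = sum_g P g * pw P n (x g)` etc. (induction on `n`, `bnd_apply`, `tl_apply`, reindexing
`g ↦ g⁻¹` with `P g⁻¹ = P g`.)
`su_eq`: induction on `m` for `y ∈ S`: `q.sum (fun g a => a * su q S m (y * g)) = ∑ x ∈ S, q (y⁻¹ * x) * su q S m x` since `su` vanishes off `S`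
(reindex `x = y * g`: both are the sum over all `x` in a large finite set, or `finsum`).
`op_pw`: for `f ≥ 0` and `y ∈ S` (any `y`): `((op S (ker P))^[t] f) y ≤ op S (ker (pw P t)) f y` for `t ≥ 1`, and for `t = 0` and `y ∈ S` equality.
Induction on `t` for `y ∈ S`: `∑_{x ∈ S} P (y⁻¹ x) ∑_{z ∈ S} pw P t (x⁻¹ z) f z ≤ ∑_{z ∈ S} (sum_g P g * pw P t (g⁻¹ y⁻¹ z)) f z` (`x = y g`; the sum
over `x ∈ S` is at most the sum over all `x`), and `sum_g P g * pw P t (g⁻¹ (y⁻¹ z)) = pw P (t+1) (y⁻¹ z)`.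
-/

namespace Pool.Agent.H34.RP

open Pool.Agent.H34.LS

universe u

variable {G : Type u} [Group G] {P : G →₀ ℝ}

private theorem e3_fin {F : G → ℝ} (y : G) {T : Finset G} (h : ∀ g, F (y * g) ≠ 0 → g ∈ T) :
    ∑ g ∈ T, F (y * g) = ∑ᶠ x, F x := by
  have h1 : ∑ᶠ g, F (y * g) = ∑ᶠ x, F x := finsum_comp_equiv (Equiv.mulLeft y)
  rw [← h1]
  symm
  apply finsum_eq_sum_of_support_subset
  intro g hg
  exact h g hg

private theorem e3_pw (n : ℕ) (x : G) :
    pw P (n + 1) x = P.sum (fun g a => a * pw P n (g⁻¹ * x)) := by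
  change bnd P (fun g => tl g (pw P n)) x = _
  rw [bnd_apply]
  refine Finset.sum_congr rfl fun g _ => ?_
  change P g * tl g (pw P n) x = P g * pw P n (g⁻¹ * x)
  rw [tl_apply]

private theorem e3_pw' (n : ℕ) (x : G) :
    pw P (n + 1) x = (pw P n).sum (fun z a => a * P (z⁻¹ * x)) := by
  have h1 : pw P 1 = P := by
    classical
    ext z
    rw [e3_pw]
    have h2 : ∀ g ∈ P.support, P g * pw P 0 (g⁻¹ * z) = if g = z then P g else 0 := by
      intro g _
      change P g * (Finsupp.single (1 : G) (1 : ℝ)) (g⁻¹ * z) = _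
      rw [Finsupp.single_apply]
      by_cases h : g = z
      · subst h
        rw [inv_mul_cancel]
        simp
      · rw [if_neg h, if_neg, mul_zero]
        intro h3
        exact h (inv_mul_eq_one.1 h3.symm)
    change ∑ g ∈ P.support, P g * pw P 0 (g⁻¹ * z) = P z
    rw [Finset.sum_congr rfl h2, Finset.sum_ite_eq']
    split_ifs with h
    · rfl
    · exact (Finsupp.notMem_support_iff.1 h).symm
  rw [pw_add P n 1, h1, bnd_apply]
  refine Finset.sum_congr rfl fun g _ => ?_
  change pw P n g * tl g P x = pw P n g * P (g⁻¹ * x)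
  rw [tl_apply]

theorem pw_symm (hs : ∀ g, P g⁻¹ = P g) (n : ℕ) (x : G) : pw P n x⁻¹ = pw P n x := by
  induction n generalizing x with
  | zero =>
    change (Finsupp.single (1 : G) (1 : ℝ)) x⁻¹ = (Finsupp.single (1 : G) (1 : ℝ)) x
    classical
    rw [Finsupp.single_apply, Finsupp.single_apply]
    by_cases h : x = 1
    · subst h
      simp
    · rw [if_neg, if_neg]
      · exact fun h1 => h h1.symm
      · exact fun h1 => h (inv_eq_one.1 h1.symm)
  | succ n ih =>
    rw [e3_pw, e3_pw']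
    have h1 : (P.sum fun g a => a * pw P n (g⁻¹ * x⁻¹)) =
        ∑ g ∈ P.support, (fun z => pw P n z * P (z⁻¹ * x)) (x * g) := by
      refine Finset.sum_congr rfl fun g _ => ?_
      change P g * pw P n (g⁻¹ * x⁻¹) = pw P n (x * g) * P ((x * g)⁻¹ * x)
      have h2 : (x * g)⁻¹ * x = g⁻¹ := by group
      rw [h2, hs, ← mul_inv_rev, ih, mul_comm]
    have h4 := e3_fin (F := fun z => pw P n z * P (z⁻¹ * x)) x (T := P.support) (fun g hg => by
      have h2 : (x * g)⁻¹ * x = g⁻¹ := by group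
      have h3 := right_ne_zero_of_mul hg
      rw [h2, hs] at h3
      exact Finsupp.mem_support_iff.2 h3)
    rw [h1, h4]
    have h3 := e3_fin (F := fun z => pw P n z * P (z⁻¹ * x)) (1 : G) (T := (pw P n).support)
      (fun g hg => by
        rw [one_mul] at hg
        rw [Finsupp.mem_support_iff]
        exact left_ne_zero_of_mul hg)
    rw [← h3]
    refine Finset.sum_congr rfl fun g _ => ?_
    rw [one_mul]

private theorem e3_off (q : G →₀ ℝ) (S : Finset G) (m : ℕ) {y : G} (hy : y ∉ S) :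
    su q S m y = 0 := by
  cases m with
  | zero => simp [su, hy]
  | succ m => simp [su, hy]

theorem su_eq (q : G →₀ ℝ) (S : Finset G) (m : ℕ) {y : G} (hy : y ∈ S) :
    su q S m y = ((op S (ker q))^[m] (fun _ => 1)) y := by
  induction m generalizing y with
  | zero => simp [su, hy]
  | succ m ih =>
    rw [Function.iterate_succ_apply']
    have h1 : su q S (m + 1) y = q.sum (fun g a => a * su q S m (y * g)) := by
      rw [su, if_pos hy]
    have h2 : op S (ker q) ((op S (ker q))^[m] fun _ => 1) y =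
        ∑ x ∈ S, (fun x => q (y⁻¹ * x) * su q S m x) x := by
      refine Finset.sum_congr rfl fun x hx => ?_
      rw [← ih hx]
      rfl
    rw [h1, h2]
    have h3 : (q.sum fun g a => a * su q S m (y * g)) =
        ∑ g ∈ q.support, (fun x => q (y⁻¹ * x) * su q S m x) (y * g) := by
      refine Finset.sum_congr rfl fun g _ => ?_
      change q g * su q S m (y * g) = q (y⁻¹ * (y * g)) * su q S m (y * g)
      rw [inv_mul_cancel_left]
    have h5 := e3_fin (F := fun x => q (y⁻¹ * x) * su q S m x) y (T := q.support) (fun g hg => by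
      have h4 := left_ne_zero_of_mul hg
      rw [inv_mul_cancel_left] at h4
      exact Finsupp.mem_support_iff.2 h4)
    rw [h3, h5]
    apply finsum_eq_sum_of_support_subset
    intro x hx
    by_contra hxS
    apply hx
    change q (y⁻¹ * x) * su q S m x = 0
    rw [e3_off q S m hxS, mul_zero]

theorem op_pw (hP : ∀ g, 0 ≤ P g) (S : Finset G) {f : G → ℝ} (hf : ∀ x, 0 ≤ f x) (t : ℕ) {y : G}
    (hy : y ∈ S) : ((op S (ker P))^[t] f) y ≤ op S (ker (pw P t)) f y := by
  induction t generalizing y with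
  | zero =>
    have h1 : f y = pw P 0 (y⁻¹ * y) * f y := by
      change f y = (Finsupp.single (1 : G) (1 : ℝ)) (y⁻¹ * y) * f y
      rw [inv_mul_cancel, Finsupp.single_eq_same, one_mul]
    change f y ≤ ∑ x ∈ S, pw P 0 (y⁻¹ * x) * f x
    rw [h1]
    exact Finset.single_le_sum (f := fun x => pw P 0 (y⁻¹ * x) * f x)
      (fun x _ => mul_nonneg (pw_nonneg hP 0 _) (hf x)) hy
  | succ t ih =>
    rw [Function.iterate_succ_apply']
    have h1 : op S (ker P) ((op S (ker P))^[t] f) y ≤
        ∑ x ∈ S, P (y⁻¹ * x) * ∑ z ∈ S, pw P t (x⁻¹ * z) * f z := by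
      refine Finset.sum_le_sum fun x hx => ?_
      exact mul_le_mul_of_nonneg_left (ih hx) (hP _)
    refine h1.trans ?_
    have h2 : ∑ x ∈ S, P (y⁻¹ * x) * ∑ z ∈ S, pw P t (x⁻¹ * z) * f z =
        ∑ z ∈ S, (∑ x ∈ S, P (y⁻¹ * x) * pw P t (x⁻¹ * z)) * f z := by
      simp_rw [Finset.mul_sum, Finset.sum_mul]
      rw [Finset.sum_comm]
      refine Finset.sum_congr rfl fun z _ => Finset.sum_congr rfl fun x _ => ?_
      ring
    rw [h2]
    refine Finset.sum_le_sum fun z _ => mul_le_mul_of_nonneg_right ?_ (hf z)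
    change _ ≤ pw P (t + 1) (y⁻¹ * z)
    rw [e3_pw]
    have h3 : (P.sum fun g a => a * pw P t (g⁻¹ * (y⁻¹ * z))) =
        ∑ g ∈ P.support, (fun x => P (y⁻¹ * x) * pw P t (x⁻¹ * z)) (y * g) := by
      refine Finset.sum_congr rfl fun g _ => ?_
      change P g * pw P t (g⁻¹ * (y⁻¹ * z)) = P (y⁻¹ * (y * g)) * pw P t ((y * g)⁻¹ * z)
      rw [inv_mul_cancel_left, mul_inv_rev, mul_assoc]
    have h6 := e3_fin (F := fun x => P (y⁻¹ * x) * pw P t (x⁻¹ * z)) y (T := P.support)
      (fun g hg => by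
        have h4 := left_ne_zero_of_mul hg
        rw [inv_mul_cancel_left] at h4
        exact Finsupp.mem_support_iff.2 h4)
    rw [h3, h6]
    · classical
      have h4 : ∑ᶠ x, (fun x => P (y⁻¹ * x) * pw P t (x⁻¹ * z)) x =
          ∑ x ∈ S ∪ P.support.image (fun g => y * g), P (y⁻¹ * x) * pw P t (x⁻¹ * z) := by
        apply finsum_eq_sum_of_support_subset
        intro x hx
        have h5 := left_ne_zero_of_mul hx
        rw [Finset.mem_coe, Finset.mem_union, Finset.mem_image]
        right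
        exact ⟨y⁻¹ * x, Finsupp.mem_support_iff.2 h5, mul_inv_cancel_left _ _⟩
      rw [h4]
      exact Finset.sum_le_sum_of_subset_of_nonneg Finset.subset_union_left
        fun x _ _ => mul_nonneg (hP _) (pw_nonneg hP t _)

end Pool.Agent.H34.RP
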