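import Pool.Agent.H34.RP.E1
import Pool.Agent.H34.RP.E2
import Pool.Agent.H34.RP.E3

/-!
E4: survival of the walk with `t = 2 i` steps at a time. `ρ = <ξ, op (ker P) ξ>`, `ρt = <ξ, op (ker (pw P t)) ξ>`.
`ρt ≥ <ξ, (op (ker P))^[t] ξ> ≥ ρ^t` (`op_pw`, `ξ ≥ 0`; `it_pow` with `ker P` symmetric: `P (x⁻¹ y) = P ((x⁻¹ y)⁻¹) = P (y⁻¹ x)`). Then with
`ker (pw P t)` (symmetric by `pw_symm`, nonnegative by `pw_nonneg`): `it_pow`, `it_amgm`, `su_eq`: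
`ρt^(2 j) ≤ <ξ, op^[2j] ξ> ≤ <ξ^2, op^[2j] 1> = sum ξ^2 su`. Finally `ρ^(t * (2 j)) = (ρ^t)^(2j) ≤ ρt^(2j)` as
`0 ≤ ρ^t ≤ ρt` (`t` even).
-/

namespace Pool.Agent.H34.RP

open Pool.Agent.H34.LS

universe u

variable {G : Type u} [Group G] {P : G →₀ ℝ}

private theorem E4_ker (hs : ∀ g, P g⁻¹ = P g) (x y : G) : ker P x y = ker P y x := by
  unfold ker
  rw [← hs (x⁻¹ * y), mul_inv_rev, inv_inv]

private theorem E4_kerpw (hs : ∀ g, P g⁻¹ = P g) (n : ℕ) (x y : G) : ker (pw P n) x y = ker (pw P n) y x := by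
  unfold ker
  rw [← pw_symm hs n (x⁻¹ * y), mul_inv_rev, inv_inv]

theorem surv_ge (hP : ∀ g, 0 ≤ P g) (hs : ∀ g, P g⁻¹ = P g) {S : Finset G} {ξ : G → ℝ}
    (hξ : ∀ x, 0 ≤ ξ x) (h1 : ∑ x ∈ S, ξ x ^ 2 = 1) (i j : ℕ) :
    (∑ x ∈ S, ξ x * op S (ker P) ξ x) ^ (2 * i * (2 * j)) ≤
      ∑ y ∈ S, ξ y ^ 2 * su (pw P (2 * i)) S (2 * j) y := by
  have h2 : (∑ x ∈ S, ξ x * op S (ker P) ξ x) ^ (2 * i) ≤ ∑ x ∈ S, ξ x * op S (ker (pw P (2 * i))) ξ x := by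
    refine (it_pow (E4_ker hs) h1 i).trans (Finset.sum_le_sum fun x hx => ?_)
    exact mul_le_mul_of_nonneg_left (op_pw hP S hξ (2 * i) hx) (hξ x)
  have h3 : 0 ≤ (∑ x ∈ S, ξ x * op S (ker P) ξ x) ^ (2 * i) := (even_two_mul i).pow_nonneg _
  rw [pow_mul]
  refine (pow_le_pow_left₀ h3 h2 (2 * j)).trans ((it_pow (E4_kerpw hs (2 * i)) h1 j).trans ?_)
  refine (it_amgm (E4_kerpw hs (2 * i)) (fun x y => pw_nonneg hP _ _) ξ (2 * j)).trans (le_of_eq ?_)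
  exact Finset.sum_congr rfl fun x hx => by rw [su_eq (pw P (2 * i)) S (2 * j) hx]

end Pool.Agent.H34.RP
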