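import Pool.Agent.H34.RP.D4
import Pool.Agent.H34.RP.E4
import Pool.Agent.H34.RP.F0

/-!
F2: the drop at one scale. `t = 2 i`, `m = 2 j`, `T = t m`, `q = pw P t` (`Prb q` by `pw_nonneg`, `tot_pw`), `L' = L t + 1`
(`pw_log_le`), `a = ξ^2`, `ε = sum ξ^2 su ≥ ρ^T ≥ (1 - l)^T` (`surv_ge`, `ρ ≥ 1 - l > 0`), so `0 < ε` and `- log ε ≤ - T log (1 - l) ≤ 2 l T`
(`l ≤ 1/2`: `- log (1 - l) ≤ l / (1 - l) ≤ 2 l`, from `Real.one_sub_inv_le_log_of_pos`). `fent q ≥ e t` (`ent_ge`). In `drop4` the bracket is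
`≥ e T / 2 - log |S| - (L t + 2) * 2 l T`, `log |S| ≤ e T / 32`, `(L t + 2) ≤ (L + 1) t` (`t ≥ 2`, `L ≥ 0`), `(L + 1) t * 2 l T ≤ e T / 16`. So the bracket is
`≥ e T / 4 ≥ 0` and `fent (pw P T) ≤ m fent (pw P t) - ε e T / 4` (`pw_pw`), `ε ≥ exp (- 2 l T)`. Divide by `T = t m`.
-/

namespace Pool.Agent.H34.RP

open Pool.Agent.H34.LS

universe u

variable {G : Type u} [Group G] {P : G →₀ ℝ}

theorem drop_scale (hP : Prb P) (hs : ∀ g, P g⁻¹ = P g) {L : ℝ} (hL0 : 0 ≤ L)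
    (hL : ∀ g, P g ≠ 0 → -Real.log (P g) ≤ L) {e : ℝ} (he : 0 < e)
    (hA : ∀ n, e ≤ fent (pw P (n + 1)) - fent (pw P n)) {S : Finset G} {ξ : G → ℝ}
    (hξ : ∀ x, 0 ≤ ξ x) (h1 : ∑ x ∈ S, ξ x ^ 2 = 1) {l : ℝ} (hl0 : 0 ≤ l) (hl : l ≤ 1 / 2)
    (hρ : 1 - l ≤ ∑ x ∈ S, ξ x * op S (ker P) ξ x) {i j : ℕ} (hi : 1 ≤ i) (hj : 1 ≤ j)
    (ht : l * ((2 * i : ℕ) : ℝ) ≤ e / (32 * (L + 1)))
    (hT : 32 * Real.log S.card ≤ e * ((2 * i * (2 * j) : ℕ) : ℝ)) :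
    fent (pw P (2 * i * (2 * j))) / ((2 * i * (2 * j) : ℕ) : ℝ) ≤
      fent (pw P (2 * i)) / ((2 * i : ℕ) : ℝ) -
        e / 4 * Real.exp (-(2 * l * ((2 * i * (2 * j) : ℕ) : ℝ))) := by
  have hq : Prb (pw P (2 * i)) := ⟨fun g => pw_nonneg hP.nonneg (2 * i) g, tot_pw hP.total _⟩
  have ht2 : (2 : ℝ) ≤ ((2 * i : ℕ) : ℝ) := by
    have h0 : 2 ≤ 2 * i := by omega
    exact_mod_cast h0
  have hm2 : (2 : ℝ) ≤ ((2 * j : ℕ) : ℝ) := by
    have h0 : 2 ≤ 2 * j := by omega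
    exact_mod_cast h0
  have hTe : ((2 * i * (2 * j) : ℕ) : ℝ) = ((2 * i : ℕ) : ℝ) * ((2 * j : ℕ) : ℝ) := by
    push_cast
    ring
  have hl1 : 0 < 1 - l := by linarith
  -- the survival probability
  have hs1 := surv_ge hP.nonneg hs hξ h1 i j
  have hs2 : (1 - l) ^ (2 * i * (2 * j)) ≤
      (∑ x ∈ S, ξ x * op S (ker P) ξ x) ^ (2 * i * (2 * j)) :=
    pow_le_pow_left₀ hl1.le hρ _
  have hs3 : (1 - l) ^ (2 * i * (2 * j)) ≤
      ∑ y ∈ S, ξ y ^ 2 * su (pw P (2 * i)) S (2 * j) y := hs2.trans hs1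
  have hLt : ∀ g, pw P (2 * i) g ≠ 0 → -Real.log (pw P (2 * i) g) ≤
      L * ((2 * i : ℕ) : ℝ) + 1 := fun g hg =>
    (pw_log_le hP.nonneg hL (2 * i) g hg).trans (by linarith)
  have hent := ent_ge hA (2 * i)
  have hL'0 : 0 < L * ((2 * i : ℕ) : ℝ) + 1 := by
    have h0 : 0 ≤ L * ((2 * i : ℕ) : ℝ) := mul_nonneg hL0 (by linarith)
    linarith
  have hεpos : 0 < ∑ y ∈ S, ξ y ^ 2 * su (pw P (2 * i)) S (2 * j) y :=
    (pow_pos hl1 _).trans_le hs3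
  have hd := drop4 hq hL'0 hLt S (a := fun y => ξ y ^ 2) (fun y _ => sq_nonneg (ξ y)) h1 (2 * j)
    hεpos
  rw [pw_pw] at hd
  have hlog1 : -(2 * l) ≤ Real.log (1 - l) := by
    have h0 := Real.one_sub_inv_le_log_of_pos hl1
    have h2 : (1 - l)⁻¹ ≤ 1 + 2 * l := by
      rw [inv_le_iff_one_le_mul₀ hl1]
      nlinarith
    linarith
  have hlogp : Real.log ((1 - l) ^ (2 * i * (2 * j))) =
      ((2 * i * (2 * j) : ℕ) : ℝ) * Real.log (1 - l) := Real.log_pow _ _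
  generalize hTdef : 2 * i * (2 * j) = T at *
  generalize htdef : ((2 * i : ℕ) : ℝ) = t at *
  generalize hmdef : ((2 * j : ℕ) : ℝ) = m at *
  generalize hεdef : ∑ y ∈ S, ξ y ^ 2 * su (pw P (2 * i)) S (2 * j) y = ε at *
  generalize hFt : fent (pw P (2 * i)) = Ft at *
  generalize hFT : fent (pw P T) = FT at *
  have hT0 : 0 < (T : ℝ) := by
    rw [hTe]
    have h0 : 0 < t := by linarith
    have h2 : 0 < m := by linarith
    exact mul_pos h0 h2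
  have hlogε : -Real.log ε ≤ 2 * l * T := by
    have h0 := Real.log_le_log (pow_pos hl1 _) hs3
    rw [hlogp] at h0
    have h2 := mul_le_mul_of_nonneg_left hlog1 hT0.le
    linarith
  have hεexp : Real.exp (-(2 * l * T)) ≤ ε := by
    rw [← Real.le_log_iff_exp_le hεpos]
    linarith
  have hL1 : 0 < L + 1 := by linarith
  have hlT : l * t * (L + 1) ≤ e / 32 := by
    have h0 := mul_le_mul_of_nonneg_right ht hL1.le
    have h2 : e / (32 * (L + 1)) * (L + 1) = e / 32 := by field_simp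
    linarith
  have hb1 : (L * t + 1 + 1) * (-Real.log ε) ≤ e * T / 16 := by
    have h0 : 0 ≤ 2 * l * T := by positivity
    have h2 : L * t + 1 + 1 ≤ (L + 1) * t := by nlinarith
    have h3 : 0 ≤ L * t + 1 + 1 := by linarith
    calc (L * t + 1 + 1) * (-Real.log ε) ≤ (L * t + 1 + 1) * (2 * l * T) :=
          mul_le_mul_of_nonneg_left hlogε h3
      _ ≤ (L + 1) * t * (2 * l * T) := mul_le_mul_of_nonneg_right h2 h0
      _ = 2 * T * (l * t * (L + 1)) := by ring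
      _ ≤ 2 * T * (e / 32) := mul_le_mul_of_nonneg_left hlT (by positivity)
      _ = e * T / 16 := by ring
  have hb2 : e * T / 2 ≤ m * Ft / 2 := by
    have h0 : e * t * m ≤ Ft * m := mul_le_mul_of_nonneg_right hent (by linarith)
    rw [hTe]
    linarith
  have hb3 : e * T / 4 ≤ m * Ft / 2 - Real.log S.card - (L * t + 1 + 1) * (-Real.log ε) := by
    have h0 : 0 < e * T := mul_pos he hT0
    linarith
  have hb4 : e * T / 4 * Real.exp (-(2 * l * T)) ≤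
      ε * (m * Ft / 2 - Real.log S.card - (L * t + 1 + 1) * (-Real.log ε)) := by
    have h0 : 0 ≤ e * T / 4 := by positivity
    calc e * T / 4 * Real.exp (-(2 * l * T)) ≤ e * T / 4 * ε :=
          mul_le_mul_of_nonneg_left hεexp h0
      _ = ε * (e * T / 4) := by ring
      _ ≤ _ := mul_le_mul_of_nonneg_left hb3 hεpos.le
  have hfin : FT ≤ m * Ft - e * T / 4 * Real.exp (-(2 * l * T)) := by linarith
  have ht0 : 0 < t := by linarith
  have hm0 : 0 < m := by linarith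
  rw [div_le_iff₀ hT0]
  have h5 : (Ft / t - e / 4 * Real.exp (-(2 * l * T))) * T =
      m * Ft - e * T / 4 * Real.exp (-(2 * l * T)) := by
    have h6 : Ft / t * T = m * Ft := by
      rw [hTe]
      field_simp
    linear_combination h6
  rw [h5]
  exact hfin

end Pool.Agent.H34.RP
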