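import Mathlib

/-!
S2: arithmetic. For large `m` put `w = ⌈(m / (κ log log m))^(1/4)⌉₊`. Then `w → ∞`, `w ≤ m` and `n = 2 w + B ≤ 3 w` eventually, `log log n ≤ log log (3 w) ≤ log log m`, so
`g (2w + B) ≤ κ 9 w^2 log log m`; `w^2 ≤ 2 (m / (κ log log m))^(1/2)` eventually (`(x + 1)^2 ≤ 2 x^2` for `x ≥ 3`), so this is `≤ 18 sqrt κ sqrt (m log log m)`; and
`6 m / w^2 ≤ 6 m (κ log log m / m)^(1/2) = 6 sqrt κ sqrt (m log log m)`. Sum `≤ 24 sqrt κ ...`.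
-/

namespace Pool.Agent.H34.RP

open Filter

theorem arith3 {κ : ℝ} (hκ : 0 < κ) {g : ℕ → ℝ} (B : ℕ)
    (hg : ∀ᶠ n : ℕ in atTop, g n ≤ κ * (n : ℝ) ^ 2 * Real.log (Real.log n)) {ψ : ℕ → ℝ}
    (hψ : ∀ w m : ℕ, 2 ≤ w → ψ m ≤ 6 * m / (w : ℝ) ^ 2 + g (2 * w + B)) :
    ∀ᶠ m : ℕ in atTop, ψ m ≤ 24 * Real.sqrt κ * Real.sqrt (m * Real.log (Real.log m)) := by
  obtain ⟨N0, hN0⟩ := eventually_atTop.1 hg
  obtain ⟨X, hX⟩ : ∃ X : ℝ, X = 3 + B + N0 + 6 / κ := ⟨_, rfl⟩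
  have hB0 : (0 : ℝ) ≤ B := Nat.cast_nonneg B
  have hN00 : (0 : ℝ) ≤ N0 := Nat.cast_nonneg N0
  have hκ6 : 0 < 6 / κ := by positivity
  have hX3 : 3 ≤ X := by rw [hX]; linarith
  have hXB : (B : ℝ) ≤ X := by rw [hX]; linarith
  have hXN : (N0 : ℝ) ≤ X := by rw [hX]; linarith
  have hXκ : 6 ≤ κ * X := by
    have h1 : 6 / κ ≤ X := by rw [hX]; linarith
    have h2 : κ * (6 / κ) ≤ κ * X := mul_le_mul_of_nonneg_left h1 hκ.le
    have h3 : κ * (6 / κ) = 6 := by field_simp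
    linarith
  have e0 : ∀ᶠ m : ℕ in atTop, 1 ≤ m := eventually_ge_atTop 1
  have t1 : Tendsto (fun m : ℕ => Real.log (m : ℝ)) atTop atTop :=
    Real.tendsto_log_atTop.comp tendsto_natCast_atTop_atTop
  have e1 : ∀ᶠ m : ℕ in atTop, 1 ≤ Real.log (m : ℝ) := t1.eventually_ge_atTop 1
  have e2 : ∀ᶠ m : ℕ in atTop, 1 ≤ Real.log (Real.log (m : ℝ)) :=
    (Real.tendsto_log_atTop.comp t1).eventually_ge_atTop 1
  have t3 : Tendsto (fun m : ℕ => Real.sqrt (m : ℝ)) atTop atTop :=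
    Real.tendsto_sqrt_atTop.comp tendsto_natCast_atTop_atTop
  have e3 : ∀ᶠ m : ℕ in atTop, 2 * κ * X ^ 4 ≤ Real.sqrt (m : ℝ) := t3.eventually_ge_atTop _
  filter_upwards [e0, e1, e2, e3] with m h0 h1 h2 h3
  obtain ⟨L, hL⟩ : ∃ L, L = Real.log (Real.log (m : ℝ)) := ⟨_, rfl⟩
  rw [← hL] at h2 ⊢
  have hm0 : (0 : ℝ) < m := by
    have : 0 < m := by omega
    exact_mod_cast this
  have hL0 : 0 < L := by linarith
  have hLs : L ≤ 2 * Real.sqrt m := by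
    have a1 : L ≤ Real.log m - 1 := by
      rw [hL]
      exact Real.log_le_sub_one_of_pos (by linarith)
    have a2 : Real.log (Real.sqrt m) ≤ Real.sqrt m - 1 :=
      Real.log_le_sub_one_of_pos (Real.sqrt_pos.2 hm0)
    rw [Real.log_sqrt hm0.le] at a2
    linarith
  have hκL : 0 < κ * L := mul_pos hκ hL0
  obtain ⟨y, hy⟩ : ∃ y, y = Real.sqrt ((m : ℝ) / (κ * L)) := ⟨_, rfl⟩
  obtain ⟨x, hx⟩ : ∃ x, x = Real.sqrt y := ⟨_, rfl⟩
  have hy0 : 0 < y := by rw [hy]; exact Real.sqrt_pos.2 (div_pos hm0 hκL)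
  have hx0 : 0 < x := by rw [hx]; exact Real.sqrt_pos.2 hy0
  have hx2 : x ^ 2 = y := by rw [hx]; exact Real.sq_sqrt hy0.le
  have hy2 : y ^ 2 = (m : ℝ) / (κ * L) := by
    rw [hy]
    exact Real.sq_sqrt (div_pos hm0 hκL).le
  have hmy : (m : ℝ) = κ * L * y ^ 2 := by
    rw [hy2]
    field_simp
  have hXx : X ≤ x := by
    have b1 : X ^ 4 ≤ y ^ 2 := by
      rw [hy2, le_div_iff₀ hκL]
      have b2 : X ^ 4 * (κ * L) ≤ X ^ 4 * (κ * (2 * Real.sqrt m)) := by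
        have : 0 ≤ X ^ 4 := by positivity
        exact mul_le_mul_of_nonneg_left (mul_le_mul_of_nonneg_left hLs hκ.le) this
      have b3 : 2 * κ * X ^ 4 * Real.sqrt m ≤ Real.sqrt m * Real.sqrt m :=
        mul_le_mul_of_nonneg_right h3 (Real.sqrt_nonneg _)
      rw [Real.mul_self_sqrt hm0.le] at b3
      calc X ^ 4 * (κ * L) ≤ X ^ 4 * (κ * (2 * Real.sqrt m)) := b2
        _ = 2 * κ * X ^ 4 * Real.sqrt m := by ring
        _ ≤ m := b3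
    have b4 : X ^ 4 ≤ x ^ 4 := by
      calc X ^ 4 ≤ y ^ 2 := b1
        _ = x ^ 4 := by rw [← hx2]; ring
    exact le_of_pow_le_pow_left₀ (by norm_num) hx0.le b4
  obtain ⟨w, hw⟩ : ∃ w : ℕ, w = ⌈x⌉₊ := ⟨_, rfl⟩
  have hw1 : x ≤ (w : ℝ) := by rw [hw]; exact Nat.le_ceil x
  have hw2 : (w : ℝ) ≤ x + 1 := by rw [hw]; exact (Nat.ceil_lt_add_one hx0.le).le
  have hw3 : (3 : ℝ) ≤ (w : ℝ) := by linarith
  have hw3' : 3 ≤ w := by exact_mod_cast hw3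
  have hw0 : (0 : ℝ) < w := by linarith
  have hnc : ((2 * w + B : ℕ) : ℝ) = 2 * (w : ℝ) + B := by push_cast; ring
  have hnN : N0 ≤ 2 * w + B := by
    have : (N0 : ℝ) ≤ ((2 * w + B : ℕ) : ℝ) := by
      rw [hnc]
      linarith
    exact_mod_cast this
  have hg1 := hN0 (2 * w + B) hnN
  have hn3 : ((2 * w + B : ℕ) : ℝ) ≤ 3 * w := by
    rw [hnc]
    linarith
  have hn6 : (6 : ℝ) ≤ ((2 * w + B : ℕ) : ℝ) := by
    rw [hnc]
    linarith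
  have hw2y : (w : ℝ) ^ 2 ≤ 2 * y := by
    have c1 : (w : ℝ) ^ 2 ≤ (x + 1) ^ 2 := pow_le_pow_left₀ hw0.le hw2 2
    have c2 : (x + 1) ^ 2 ≤ 2 * x ^ 2 := by nlinarith [hXx, hX3]
    rw [hx2] at c2
    linarith
  have hwm : 3 * (w : ℝ) ≤ m := by
    have c1 : 6 * x ≤ m := by
      have c2 : 6 ≤ κ * x := by
        have := mul_le_mul_of_nonneg_left hXx hκ.le
        linarith
      have c3 : (1 : ℝ) ≤ x := by linarith
      have c4 : κ * x ≤ κ * x * (L * x ^ 2) := by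
        have c5 : (1 : ℝ) ≤ L * x ^ 2 := by
          have : (1 : ℝ) ≤ x ^ 2 := one_le_pow₀ c3
          exact one_le_mul_of_one_le_of_one_le h2 this
        exact le_mul_of_one_le_right (mul_pos hκ hx0).le c5
      have c6 : (m : ℝ) = κ * x * (L * x ^ 2) * x := by
        rw [hmy, ← hx2]
        ring
      rw [c6]
      exact mul_le_mul_of_nonneg_right (by linarith) hx0.le
    linarith
  have hlog : Real.log (Real.log ((2 * w + B : ℕ) : ℝ)) ≤ L := by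
    rw [hL]
    refine Real.log_le_log (Real.log_pos (by linarith)) ?_
    exact Real.log_le_log (by linarith) (by linarith)
  have hg2 : g (2 * w + B) ≤ 18 * (κ * L * y) := by
    have d1 : κ * ((2 * w + B : ℕ) : ℝ) ^ 2 * Real.log (Real.log ((2 * w + B : ℕ) : ℝ))
        ≤ κ * ((2 * w + B : ℕ) : ℝ) ^ 2 * L :=
      mul_le_mul_of_nonneg_left hlog (by positivity)
    have d2 : ((2 * w + B : ℕ) : ℝ) ^ 2 ≤ 18 * y := by
      have d3 : ((2 * w + B : ℕ) : ℝ) ^ 2 ≤ (3 * w) ^ 2 :=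
        pow_le_pow_left₀ (by linarith) hn3 2
      have d4 : (3 * (w : ℝ)) ^ 2 = 9 * (w : ℝ) ^ 2 := by ring
      linarith
    have d5 : κ * ((2 * w + B : ℕ) : ℝ) ^ 2 * L = κ * L * ((2 * w + B : ℕ) : ℝ) ^ 2 := by ring
    have d6 : κ * L * ((2 * w + B : ℕ) : ℝ) ^ 2 ≤ κ * L * (18 * y) :=
      mul_le_mul_of_nonneg_left d2 hκL.le
    have d7 : κ * L * (18 * y) = 18 * (κ * L * y) := by ring
    linarith
  have hm2 : 6 * (m : ℝ) / (w : ℝ) ^ 2 ≤ 6 * (κ * L * y) := by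
    rw [div_le_iff₀ (by positivity), hmy]
    have f1 : y ≤ (w : ℝ) ^ 2 := by
      rw [← hx2]
      exact pow_le_pow_left₀ hx0.le hw1 2
    have f2 : 0 ≤ 6 * (κ * L * y) := by positivity
    calc 6 * (κ * L * y ^ 2) = 6 * (κ * L * y) * y := by ring
      _ ≤ 6 * (κ * L * y) * (w : ℝ) ^ 2 := mul_le_mul_of_nonneg_left f1 f2
  have hs : Real.sqrt κ * Real.sqrt (m * L) = κ * L * y := by
    rw [← Real.sqrt_mul hκ.le]
    have s1 : κ * ((m : ℝ) * L) = (κ * L * y) ^ 2 := by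
      rw [hmy]
      ring
    rw [s1, Real.sqrt_sq (by positivity)]
  have hfin := hψ w m (by omega)
  calc ψ m ≤ 6 * m / (w : ℝ) ^ 2 + g (2 * w + B) := hfin
    _ ≤ 6 * (κ * L * y) + 18 * (κ * L * y) := add_le_add hm2 hg2
    _ = 24 * (Real.sqrt κ * Real.sqrt (m * L)) := by rw [hs]; ring
    _ = 24 * Real.sqrt κ * Real.sqrt (m * L) := by ring

end Pool.Agent.H34.RP
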