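import Pool.Agent.H34.SW.Fin

/-!
S3: `SW.sharp` with the heights of the steps. `pp_height`: the support of `PP M t a b c` consists of `1`, `a` and the `gl t b c l` (`PP`, `ml`, `gl`, `bc` in SW/Defs; `a2_apply` style
in SW/A2: `PP .. g = const * ∑ l, ml t a b c l g`, so some `ml t a b c l g ≠ 0`), whose heights are `0` or `±1`. `sharp'`: copy the proof of `sharp` (SW/Fin) with the extra conjunct
(`hh θ (xt θ) = ofAdd 1`, the others `1`).
-/

namespace Pool.Agent.H34.RP

open Pool.Agent.H34.LS Pool.Agent.H34.SW Filter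

private theorem s3_bc {G : Type} [Group G] {b c : G} (f : G →* Multiplicative ℤ)
    (hb : f b = 1) (hc : f c = 1) (q : Bool × Bool) : f (bc b c q) = 1 := by
  unfold bc
  rw [map_mul]
  split_ifs <;> simp [hb, hc]

theorem pp_height {G : Type} [Group G] {M : ℕ} {t a b c : G} (f : G →* Multiplicative ℤ)
    (ht : f t = Multiplicative.ofAdd 1) (ha : f a = 1) (hb : f b = 1) (hc : f c = 1) (g : G)
    (hg : PP M t a b c g ≠ 0) : |Multiplicative.toAdd (f g)| ≤ 1 := by
  classical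
  have h1 : ∃ l : Lt M, ml t a b c l g ≠ 0 := by
    by_contra h
    push Not at h
    apply hg
    unfold PP
    rw [Finsupp.smul_apply, Finsupp.finsetSum_apply, smul_eq_mul,
      Finset.sum_eq_zero fun l _ => h l, mul_zero]
  obtain ⟨l, hl⟩ := h1
  unfold ml at hl
  split_ifs at hl with h0
  · rw [Finsupp.add_apply, Finsupp.single_apply, Finsupp.single_apply] at hl
    have h2 : f g = 1 := by
      by_cases h3 : (1 : G) = g
      · rw [← h3, map_one]
      · by_cases h4 : a = g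
        · rw [← h4, ha]
        · rw [if_neg h3, if_neg h4, add_zero] at hl
          exact absurd rfl hl
    rw [h2]
    simp
  · rw [Finsupp.single_apply] at hl
    have h2 : gl t b c l = g := by
      by_contra h3
      rw [if_neg h3] at hl
      exact hl rfl
    have h5 : f (gl t b c l) = Multiplicative.ofAdd 1 ∨
        f (gl t b c l) = (Multiplicative.ofAdd 1)⁻¹ := by
      unfold gl
      rw [map_mul f, map_mul f, s3_bc f hb hc, s3_bc f hb hc, one_mul, mul_one]
      split_ifs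
      · exact Or.inl ht
      · right
        rw [map_inv, ht]
    rw [← h2]
    rcases h5 with h5 | h5
    · rw [h5]
      simp
    · rw [h5]
      simp

theorem sharp' (κ : ℝ) (hκ : 0 < κ) :
    ∃ (G : Type) (_ : Group G) (f : G →* Multiplicative ℤ) (S : Set G),
      LocFinByZ G ∧ Function.Surjective f ∧ S.Finite ∧ Subgroup.closure S = ⊤ ∧
      (∀ n, (window f S n).Finite) ∧
      (∀ᶠ n : ℕ in atTop, Real.log ((window f S n).ncard : ℝ) ≤
        κ * (n : ℝ) ^ 2 * Real.log (Real.log n)) ∧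
      ∃ mu : G → ℝ, IsFSProb mu ∧ Generating mu ∧ Symm mu ∧
        (∀ g, mu g ≠ 0 → |Multiplicative.toAdd (f g)| ≤ 1) ∧ ¬ TrivialBoundary mu := by
  obtain ⟨s, hs⟩ := growth hκ
  obtain ⟨D0, M, hD0, hM, hsum, hle⟩ := params s
  -- the fields
  have hU : ∀ D : ℕ, 1 ≤ D → ∃ U : Finset Kˣ, U.card = 2 ^ D - 1 ∧ ∀ u ∈ U, u ^ (2 ^ D - 1) = 1 := by
    intro D hD
    have h1 : 1 < 2 ^ D := Nat.one_lt_two_pow (by omega)
    have h4 : 0 < 2 ^ D - 1 := by omega
    have : NeZero (2 ^ D - 1) := ⟨h4.ne'⟩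
    have : NeZero (((2 ^ D - 1 : ℕ) : ZMod 2)) := by
      refine ⟨?_⟩
      rw [Nat.cast_sub h1.le]
      push_cast
      have h2 : (2 : ZMod 2) = 0 := rfl
      rw [h2, zero_pow (by omega)]
      decide
    have h3 : Nat.card (rootsOfUnity (2 ^ D - 1) K) = 2 ^ D - 1 :=
      HasEnoughRootsOfUnity.natCard_rootsOfUnity K (2 ^ D - 1)
    have h5 : ((rootsOfUnity (2 ^ D - 1) K : Subgroup Kˣ) : Set Kˣ).Finite := by
      refine Nat.finite_of_card_ne_zero ?_
      rw [SetLike.coe_sort_coe, h3]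
      exact h4.ne'
    refine ⟨h5.toFinset, ?_, ?_⟩
    · rw [← Set.ncard_eq_toFinset_card _ h5, ← Nat.card_coe_set_eq]
      exact h3
    · intro u hu
      rw [Set.Finite.mem_toFinset] at hu
      exact (mem_rootsOfUnity _ _).1 hu
  have hDd : ∀ i, 8 ≤ Dd s D0 i := by
    intro i
    have h1 : 3 ≤ dd s D0 i := hD0.trans (le_max_left _ _)
    calc 8 = 2 ^ 3 := by norm_num
      _ ≤ 2 ^ dd s D0 i := Nat.pow_le_pow_right (by norm_num) h1
  choose U hUc hUr using fun i => hU (Dd s D0 i) (by have := hDd i; omega)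
  obtain ⟨θ, hθU, hθ⟩ := choose_all hM (fun i => Dd s D0 i / 4) (fun i => 2 ^ (Dd s D0 i / 8))
    (fun i => 2 ^ (Dd s D0 i / 4)) (fun i => Nat.one_le_two_pow) U (fun i => by
      rw [← Finset.card_pos, hUc]
      have h1 : 1 < 2 ^ Dd s D0 i := Nat.one_lt_two_pow (by have := hDd i; omega)
      omega)
  have hθ' : ∀ i m, Pr M m (Rl θ i) ≤ dl M i (Dd s D0 i / 4) (2 ^ (Dd s D0 i / 8))
      (2 ^ (Dd s D0 i / 4)) (2 ^ Dd s D0 i - 1) := by
    intro i m
    have := hθ i m
    rwa [hUc] at this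
  have hdep : ∀ m, Pr M m (Dep θ) ≤ 1 / 2 := fun m =>
    (dep_prob hM θ _ hsum hθ' m).trans hle
  -- windows
  have hroot : ∀ n j : ℕ, 2 ^ j ≤ 4 * n →
      θ j ^ (2 ^ Dd s D0 (Nat.log 2 (4 * n)) - 1) = 1 := by
    intro n j hj
    have h1 : j ≤ Nat.log 2 (4 * n) := by
      refine Nat.le_log_of_pow_le (by norm_num) hj
    have h2 : (2 ^ Dd s D0 j - 1) ∣ (2 ^ Dd s D0 (Nat.log 2 (4 * n)) - 1) :=
      Nat.pow_sub_one_dvd_pow_sub_one 2 (Dd_dvd s D0 h1)
    obtain ⟨q, hq⟩ := h2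
    rw [hq, pow_mul, hUr j (θ j) (hθU j), one_pow]
  have hwin := fun n => win_GG θ n (Dd s D0 (Nat.log 2 (4 * n)))
    (by have := hDd (Nat.log 2 (4 * n)); omega) (hroot n)
  have hfin : ∀ n, (window (hh θ) (gS θ) n).Finite := fun n => (hwin n).1
  refine ⟨GG θ, inferInstance, hh θ, gS θ, locfin θ hfin, hh_surj θ, gS_finite θ, gS_closure θ,
    hfin, ?_, ?_⟩
  · filter_upwards [hs D0, eventually_ge_atTop 1] with n hn h1
    refine le_trans ?_ hn
    refine Real.log_le_log ?_ ?_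
    · have : 0 < (window (hh θ) (gS θ) n).ncard := by
        rw [Set.ncard_pos (hfin n)]
        refine ⟨1, [], ?_, rfl, ?_⟩
        · intro x hx
          exact absurd hx List.not_mem_nil
        · intro k
          simp
      exact_mod_cast this
    · exact_mod_cast (hwin n).2
  -- the measure
  have ha : xa θ * xa θ = 1 := Subtype.ext ga_sq
  have hb : xb θ * xb θ = 1 := Subtype.ext gb_sq
  have hc : xc θ * xc θ = 1 := Subtype.ext (gc_sq θ)
  have hbc : xb θ * xc θ = xc θ * xb θ := Subtype.ext (gb_gc θ)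
  refine ⟨fun g => PP M (xt θ) (xa θ) (xb θ) (xc θ) g, pp_fs, pp_gen hM ha hb hc (gS_closure θ),
    pp_symm ha hb hc hbc, fun g hg => pp_height (hh θ) (hh_xt θ) rfl rfl rfl g hg, ?_⟩
  refine not_trivial pp_fs (c := Real.log 2 / ((M : ℝ) + 1) * (1 / 2)) ?_ ?_
  · have := Real.log_pos (show (1 : ℝ) < 2 by norm_num)
    positivity
  intro n
  refine le_trans ?_ (fent_pw_ge ha n)
  have hk : ∀ k, 1 / 2 ≤ Pr M k (Disj (xt θ) (xa θ) (xb θ) (xc θ)) := by
    intro k
    have h1 : Pr M k (fun w => ¬ Dep θ w) ≤ Pr M k (Disj (xt θ) (xa θ) (xb θ) (xc θ)) :=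
      pr_mono k fun w _ hw x hx => sup θ (GG θ).subtype rfl rfl rfl rfl w hw x hx
    rw [pr_not] at h1
    have := hdep k
    linarith
  have h2 : (1 / 2 : ℝ) * n ≤ ∑ k ∈ Finset.range n, Pr M k (Disj (xt θ) (xa θ) (xb θ) (xc θ)) := by
    calc (1 / 2 : ℝ) * n = ∑ k ∈ Finset.range n, (1 / 2 : ℝ) := by
          rw [Finset.sum_const, Finset.card_range, nsmul_eq_mul, mul_comm]
      _ ≤ _ := Finset.sum_le_sum fun k _ => hk k
  have h3 : 0 ≤ Real.log 2 / ((M : ℝ) + 1) := by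
    have := Real.log_pos (show (1 : ℝ) < 2 by norm_num)
    positivity
  calc Real.log 2 / ((M : ℝ) + 1) * (1 / 2) * n = Real.log 2 / ((M : ℝ) + 1) * (1 / 2 * n) := by ring
    _ ≤ _ := mul_le_mul_of_nonneg_left h2 h3

end Pool.Agent.H34.RP
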