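import Pool.Agent.H34.RP.S1
import Pool.Agent.H34.RP.S2
import Pool.Agent.H34.RP.S3
import Pool.Agent.H34.RP.R1

/-!
S4: sharpness of both criteria. Given `κ` let `κ' = min κ ((κ / 24)^2)` and apply `sharp'` with `κ'`; `P = (toPA mu _).coeff`, `Walk P hh 1`; `ret_window` with `R = 1`, `arith3` with
`g n = log |W_n|`, `ψ m = - log (pw P (2 m) 1)`; `24 * sqrt κ' ≤ κ`; `cpow_eq`. The window bound: `κ' ≤ κ` and `log log n ≥ 0` for large `n`.
-/

namespace Pool.Agent.H34.RP

open Pool.Agent.H34.LS Filter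

private theorem s4_loglog : ∀ᶠ n : ℕ in atTop, 0 ≤ Real.log (Real.log n) := by
  filter_upwards [eventually_ge_atTop 3] with n hn
  apply Real.log_nonneg
  rw [Real.le_log_iff_exp_le (by positivity)]
  have h1 : (3 : ℝ) ≤ (n : ℝ) := by exact_mod_cast hn
  have h2 := Real.exp_one_lt_d9
  linarith

theorem sharp_both (κ : ℝ) (hκ : 0 < κ) :
    ∃ (G : Type) (_ : Group G) (f : G →* Multiplicative ℤ) (S : Set G),
      LocFinByZ G ∧ Function.Surjective f ∧ S.Finite ∧ Subgroup.closure S = ⊤ ∧
      (∀ n, (window f S n).Finite) ∧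
      (∀ᶠ n : ℕ in atTop, Real.log ((window f S n).ncard : ℝ) ≤
        κ * (n : ℝ) ^ 2 * Real.log (Real.log n)) ∧
      ∃ mu : G → ℝ, IsFSProb mu ∧ Generating mu ∧ Symm mu ∧
        (∀ᶠ n : ℕ in atTop, -Real.log (cpow mu (2 * n) 1) ≤
          κ * Real.sqrt (n * Real.log (Real.log n))) ∧ ¬ TrivialBoundary mu := by
  have hk' : 0 < min κ ((κ / 24) ^ 2) := lt_min hκ (by positivity)
  obtain ⟨G, hG, f, S, h1, h2, h3, h4, h5, h6, mu, m1, m2, m3, m4, m5⟩ :=
    sharp' (min κ ((κ / 24) ^ 2)) hk'
  refine ⟨G, hG, f, S, h1, h2, h3, h4, h5, ?_, mu, m1, m2, m3, ?_, m5⟩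
  · filter_upwards [h6, s4_loglog] with n hn hl
    refine hn.trans ?_
    exact mul_le_mul_of_nonneg_right
      (mul_le_mul_of_nonneg_right (min_le_left _ _) (sq_nonneg _)) hl
  · have hp := prb_of m1
    have hw : Walk (toPA mu m1.finite).coeff (fun g => Multiplicative.toAdd (f g)) 1 :=
      { nonneg := hp.nonneg
        total := hp.total
        symm := fun g => m3 g
        hom := fun x y => by
          change Multiplicative.toAdd (f (x * y)) = _
          rw [map_mul, toAdd_mul]
        bdd := fun g hg => by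
          rw [Nat.cast_one]
          exact m4 g hg }
    obtain ⟨B, hB⟩ := ret_window f h4 h5 hw
    have h7 := arith3 hk' B (g := fun n => Real.log ((window f S n).ncard : ℝ)) h6
      (ψ := fun m => -Real.log (pw (toPA mu m1.finite).coeff (2 * m) 1)) (fun w m hw2 => by
        have h8 := hB w m (by omega) (by omega)
        rw [Nat.cast_one, one_pow, mul_one] at h8
        exact h8)
    filter_upwards [h7] with m hm
    rw [cpow_eq m1]
    refine hm.trans (mul_le_mul_of_nonneg_right ?_ (Real.sqrt_nonneg _))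
    have h9 : Real.sqrt (min κ ((κ / 24) ^ 2)) ≤ κ / 24 := by
      rw [Real.sqrt_le_left (by positivity)]
      exact min_le_right _ _
    linarith

end Pool.Agent.H34.RP
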