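import Pool.Agent.H34.RP.T3
import Pool.Agent.H34.RP.C3
import Pool.Agent.H34.RP.S4
import Pool.Agent.H34.LS.V20

/-!
Fin: all parts (draft of the hand-in ReturnProbability).
-/

namespace Pool.Agent.H34.RP

open Pool.Agent.H34.LS Filter

universe u

theorem main : 
    (∀ (G : Type u) [Group G] (mu : G → ℝ), IsFSProb mu → Generating mu → Symm mu →
      ((∀ c : ℝ, 0 < c → ∀ᶠ n : ℕ in atTop,
          retLog mu n ≤ c * Real.sqrt (n * Real.log (Real.log n))) ∨
        (∃ C : ℝ, ∃ᶠ n : ℕ in atTop, retLog mu n ≤ C * Real.sqrt n) ∨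
        Diverges (fun j => retLog mu (2 ^ j) ^ 2 / 2 ^ j)) → AllTrivial G) ∧
    (∀ (G : Type u) [Group G] (mu : G → ℝ) (K : ℕ → ℝ), IsFSProb mu → Generating mu →
      TestFunctions mu K → Diverges K → AllTrivial G) ∧
    (∀ (G : Type u) [Group G] (f : G →* Multiplicative ℤ) (S : Set G),
      Subgroup.closure S = ⊤ → (∀ n, (window f S n).Finite) →
      Diverges (fun j => Real.log ((window f S (2 ^ j)).ncard : ℝ) / 4 ^ j) → AllTrivial G) ∧
    ∀ κ : ℝ, 0 < κ → ∃ (G : Type) (_ : Group G) (f : G →* Multiplicative ℤ) (S : Set G),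
      LocFinByZ G ∧ Function.Surjective f ∧ S.Finite ∧ Subgroup.closure S = ⊤ ∧
      (∀ n, (window f S n).Finite) ∧
      (∀ᶠ n : ℕ in atTop, Real.log ((window f S n).ncard : ℝ) ≤
        κ * (n : ℝ) ^ 2 * Real.log (Real.log n)) ∧
      ∃ mu : G → ℝ, IsFSProb mu ∧ Generating mu ∧ Symm mu ∧
        (∀ᶠ n : ℕ in atTop, retLog mu n ≤ κ * Real.sqrt (n * Real.log (Real.log n))) ∧
        ¬ TrivialBoundary mu := by
  refine ⟨?_, ?_, ?_, ?_⟩
  · intro G _ mu h hg hs hyp
    rcases hyp with h1 | ⟨C, h1⟩ | h1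
    · exact return_series h hg hs fun c hc => div_little_o (retLog_nonneg h hs) h1 hc
    · exact return_series h hg hs fun c hc =>
        div_frequently (retLog_nonneg h hs) (retLog_mono h hs) h1 hc
    · exact return_series h hg hs h1
  · intro G _ mu K h hg hK hdiv
    exact folner_series h hg hK hdiv
  · intro G _ f S hS hfin hdiv mu h hg hs
    exact window_criterion f S hS hfin hdiv h hg hs
  · exact sharp_both

end Pool.Agent.H34.RP
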