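import Pool.Agent.H34.RP.Defs
import Pool.Agent.H34.LS.V14
import Pool.Agent.H34.LS.E2

/-!
H0: subadditivity of the entropy of nonnegative finitely supported functions. `negMulLog_add_le` (E2):
`negMulLog (x + y) ≤ negMulLog x + negMulLog y` for `x, y ≥ 0`; see `fent_coarse` in E2 and its private
lemmas for the manipulation of `fent`. `fent (a • F) = a * fent F + negMulLog a * tot F` (`Real.negMulLog_mul`).
`fent_bnd_le`: induction over the support (or `Finset.sum` version of `fent_add_le`).
-/

namespace Pool.Agent.H34.RP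

open Pool.Agent.H34.LS

universe u

variable {X : Type u}

private theorem h0_fent {p : X →₀ ℝ} {S : Finset X} (h : p.support ⊆ S) :
    fent p = ∑ x ∈ S, Real.negMulLog (p x) :=
  Finsupp.sum_of_support_subset p h _ fun _ _ => Real.negMulLog_zero

theorem fent_add_le {p q : X →₀ ℝ} (hp : ∀ x, 0 ≤ p x) (hq : ∀ x, 0 ≤ q x) :
    fent (p + q) ≤ fent p + fent q := by
  classical
  rw [h0_fent (S := p.support ∪ q.support) Finsupp.support_add,
    h0_fent (S := p.support ∪ q.support) Finset.subset_union_left,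
    h0_fent (p := q) (S := p.support ∪ q.support) Finset.subset_union_right,
    ← Finset.sum_add_distrib]
  refine Finset.sum_le_sum fun x _ => ?_
  rw [Finsupp.add_apply]
  exact negMulLog_add_le (hp x) (hq x)

theorem fent_smul (a : ℝ) (p : X →₀ ℝ) :
    fent (a • p) = a * fent p + Real.negMulLog a * tot p := by
  rw [h0_fent (S := p.support) Finsupp.support_smul, h0_fent (p := p) (S := p.support) subset_rfl]
  show _ = a * _ + Real.negMulLog a * ∑ x ∈ p.support, p x
  rw [Finset.mul_sum, Finset.mul_sum, ← Finset.sum_add_distrib]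
  refine Finset.sum_congr rfl fun x _ => ?_
  rw [Finsupp.smul_apply, smul_eq_mul, Real.negMulLog_mul]
  ring

private theorem h0_nonneg {I : Type u} (S : Finset I) {H : I → (X →₀ ℝ)} (hH : ∀ i ∈ S, ∀ x, 0 ≤ H i x)
    (x : X) : 0 ≤ (∑ i ∈ S, H i) x := by
  rw [Finsupp.finsetSum_apply]
  exact Finset.sum_nonneg fun i hi => hH i hi x

private theorem h0_sum {I : Type u} (S : Finset I) (H : I → (X →₀ ℝ)) (hH : ∀ i ∈ S, ∀ x, 0 ≤ H i x) :
    fent (∑ i ∈ S, H i) ≤ ∑ i ∈ S, fent (H i) := by
  classical
  induction S using Finset.induction_on with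
  | empty =>
    rw [Finset.sum_empty, Finset.sum_empty]
    exact le_of_eq (by simp [fent])
  | insert i S hi ih =>
    rw [Finset.sum_insert hi, Finset.sum_insert hi]
    have h1 : ∀ j ∈ S, ∀ x, 0 ≤ H j x := fun j hj => hH j (Finset.mem_insert_of_mem hj)
    refine (fent_add_le (hH i (Finset.mem_insert_self i S)) (h0_nonneg S h1)).trans ?_
    have h2 := ih h1
    linarith

theorem fent_bnd_le {I : Type u} {q : I →₀ ℝ} (hq : ∀ i, 0 ≤ q i) {F : I → (X →₀ ℝ)}
    (hF : ∀ i x, 0 ≤ F i x) :
    fent (bnd q F) ≤ q.sum (fun i a => a * fent (F i)) + q.sum (fun i a => Real.negMulLog a * tot (F i)) := by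
  have h1 : bnd q F = ∑ i ∈ q.support, q i • F i := rfl
  rw [h1]
  refine (h0_sum q.support (fun i => q i • F i) fun i _ x => ?_).trans (le_of_eq ?_)
  · rw [Finsupp.smul_apply, smul_eq_mul]
    exact mul_nonneg (hq i) (hF i x)
  · show _ = (∑ i ∈ q.support, q i * fent (F i)) + ∑ i ∈ q.support, Real.negMulLog (q i) * tot (F i)
    rw [← Finset.sum_add_distrib]
    exact Finset.sum_congr rfl fun i _ => fent_smul (q i) (F i)

end Pool.Agent.H34.RP
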