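import Pool.Agent.H34.RP.A0
import Pool.Agent.H34.RP.R1
import Pool.Agent.H34.RP.Stm

/-!
R2: `energy`, `norm2` (with `finsum`) in terms of `en`, `sq`. `finsum_eq_sum_of_support_subset`; `dd g ξ = sq (rt g ξ - ξ)`, `rt_apply`.
-/

namespace Pool.Agent.H34.RP

open Pool.Agent.H34.LS

universe u

variable {G : Type u} [Group G] {mu : G → ℝ}

private theorem r2_norm (ξ : G →₀ ℝ) : ∑ᶠ x, ξ x ^ 2 = sq ξ := by
  rw [sq_sum ξ (Finset.Subset.refl _)]
  refine finsum_eq_sum_of_support_subset _ ?_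
  intro x hx
  rw [Finset.mem_coe, Finsupp.mem_support_iff]
  intro h0
  apply hx
  show ξ x ^ 2 = 0
  rw [h0]
  norm_num

theorem norm2_eq (ξ : G →₀ ℝ) : norm2 ξ = sq ξ := by
  exact r2_norm ξ

theorem energy_eq (h : IsFSProb mu) (ξ : G →₀ ℝ) :
    energy mu ξ = en (toPA mu h.finite).coeff ξ := by
  have hdd : ∀ g : G, ∑ᶠ x, (ξ (x * g) - ξ x) ^ 2 = dd g ξ := by
    intro g
    unfold dd
    rw [← r2_norm]
    refine finsum_congr fun x => ?_
    rw [Finsupp.sub_apply, rt_apply]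
  have hsupp : (toPA mu h.finite).coeff.support = h.finite.toFinset := rfl
  have hsum : ∑ᶠ g, mu g * ∑ᶠ x, (ξ (x * g) - ξ x) ^ 2 =
      (toPA mu h.finite).coeff.sum (fun g a => a * dd g ξ) := by
    rw [Finsupp.sum, hsupp]
    rw [finsum_eq_sum_of_support_subset (s := h.finite.toFinset)]
    · refine Finset.sum_congr rfl fun g _ => ?_
      rw [hdd g]
      rfl
    · intro g hg
      rw [Finset.mem_coe, Set.Finite.mem_toFinset]
      intro h1
      apply hg
      show mu g * ∑ᶠ x, (ξ (x * g) - ξ x) ^ 2 = 0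
      rw [h1, zero_mul]
  unfold energy en
  rw [hsum]

end Pool.Agent.H34.RP
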