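import Pool.Agent.H34.RP.B3
import Pool.Agent.H34.LS.V13
import Pool.Agent.H34.LS.V14

/-!
S1: return probabilities from windows. `B` from `qk_support`. `p (2m) = sq (pw P m) ≥ (∑_{x ∈ W} pw P m x)^2 / |W|` with `W = window f S (2 w + B)` (Cauchy-Schwarz,
`ip_pw`), `∑_{x ∈ W} pw P m x ≥ ∑_{x ∈ W} qk P hh w m 0 x = tot (qk P hh w m 0) = lam^m * psi w 0 = lam^m` (`qk_le_pw`, `qk_support`, `tot_qk`, `psi w 0 = 1`),
`- log lam ≤ 3 R^2 / w^2` (`log_lam_le`), `lam ≥ 1/2 > 0`.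
-/

namespace Pool.Agent.H34.RP

open Pool.Agent.H34.LS

universe u

variable {G : Type u} [Group G] {P : G →₀ ℝ} {R : ℕ}

private theorem S1_psi (w : ℕ) : psi w 0 = 1 := by
  unfold psi
  rw [if_pos (by simp)]
  simp

private theorem S1_sum (P : G →₀ ℝ) (hs : ∀ g, P g⁻¹ = P g) (m : ℕ) (W : Finset G) :
    (∑ x ∈ W, pw P m x) ^ 2 ≤ W.card * pw P (2 * m) 1 := by
  classical
  have h1 : ∑ x ∈ W, pw P m x ^ 2 ≤ pw P (2 * m) 1 := by
    rw [two_mul, ← ip_pw hs m m, ip_sum (pw P m) (pw P m) (T := (pw P m).support ∪ W) Finset.subset_union_left]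
    have h2 : ∑ x ∈ W, pw P m x ^ 2 ≤ ∑ x ∈ (pw P m).support ∪ W, pw P m x ^ 2 :=
      Finset.sum_le_sum_of_subset_of_nonneg Finset.subset_union_right (fun x _ _ => sq_nonneg _)
    refine h2.trans (le_of_eq (Finset.sum_congr rfl fun x _ => ?_))
    ring
  calc (∑ x ∈ W, pw P m x) ^ 2 ≤ W.card * ∑ x ∈ W, pw P m x ^ 2 := sq_sum_le_card_mul_sum_sq
    _ ≤ W.card * pw P (2 * m) 1 := mul_le_mul_of_nonneg_left h1 (Nat.cast_nonneg _)

theorem ret_window (f : G →* Multiplicative ℤ) {S : Set G} (hS : Subgroup.closure S = ⊤)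
    (hfin : ∀ w, (window f S w).Finite) (h : Walk P (fun g => Multiplicative.toAdd (f g)) R) :
    ∃ B : ℕ, ∀ w m : ℕ, 1 ≤ w → 2 * R ≤ w →
      -Real.log (pw P (2 * m) 1) ≤
        6 * m * (R : ℝ) ^ 2 / (w : ℝ) ^ 2 + Real.log ((window f S (2 * w + B)).ncard : ℝ) := by
  classical
  obtain ⟨B, hB⟩ := qk_support f hS P
  refine ⟨B, fun w m hw hR => ?_⟩
  set hh : G → ℤ := fun g => Multiplicative.toAdd (f g) with hhh
  set W : Finset G := (hfin (2 * w + B)).toFinset with hW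
  have hcard : (window f S (2 * w + B)).ncard = W.card := Set.ncard_eq_toFinset_card _ (hfin _)
  have hsupp : (qk P hh w m 0).support ⊆ W := by
    intro x hx
    rw [hW, Set.Finite.mem_toFinset]
    exact hB w m 0 x (Finsupp.mem_support_iff.1 hx)
  have htot : lam P hh w ^ m = ∑ x ∈ W, qk P hh w m 0 x := by
    have h1 := tot_qk h hw hR m 0
    rw [S1_psi, mul_one] at h1
    rw [← h1]
    unfold tot
    exact Finsupp.sum_of_support_subset _ hsupp _ (fun _ _ => rfl)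
  have hle : lam P hh w ^ m ≤ ∑ x ∈ W, pw P m x := by
    rw [htot]
    exact Finset.sum_le_sum fun x _ => qk_le_pw h hw hR m 0 x
  have hlam : 0 < lam P hh w := lt_of_lt_of_le (by norm_num) (lam_ge h hw hR)
  have hpow : 0 < lam P hh w ^ m := pow_pos hlam m
  have h2 : (lam P hh w ^ m) ^ 2 ≤ W.card * pw P (2 * m) 1 :=
    (pow_le_pow_left₀ hpow.le hle 2).trans (S1_sum P h.symm m W)
  have h3 : 0 < (W.card : ℝ) * pw P (2 * m) 1 := lt_of_lt_of_le (by positivity) h2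
  have hc0 : (0 : ℝ) ≤ W.card := Nat.cast_nonneg _
  have hc : (0 : ℝ) < W.card := by
    rcases hc0.lt_or_eq with h4 | h4
    · exact h4
    · rw [← h4, zero_mul] at h3
      exact absurd h3 (lt_irrefl _)
  have hp : 0 < pw P (2 * m) 1 := (mul_pos_iff_of_pos_left hc).1 h3
  have h4 := Real.log_le_log (by positivity) h2
  rw [Real.log_mul hc.ne' hp.ne', Real.log_pow, Real.log_pow] at h4
  have h5 := log_lam_le h hw hR
  have h6 : (2 * m : ℝ) * (- Real.log (lam P hh w)) ≤ (2 * m : ℝ) * (3 * (R : ℝ) ^ 2 / (w : ℝ) ^ 2) :=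
    mul_le_mul_of_nonneg_left h5 (by positivity)
  rw [hcard]
  have h7 : (2 * m : ℝ) * (3 * (R : ℝ) ^ 2 / (w : ℝ) ^ 2) = 6 * m * (R : ℝ) ^ 2 / (w : ℝ) ^ 2 := by ring
  rw [h7] at h6
  push_cast at h4
  linarith

end Pool.Agent.H34.RP
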