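import Pool.Agent.H34.RP.G1
import Pool.Agent.H34.RP.A1
import Pool.Agent.H34.RP.R1
import Pool.Agent.H34.LS.E7
import Pool.Agent.H34.LS.V15

/-!
T1: the criterion. As at the beginning of `window_criterion` (V20): if the boundary of `(G, mu)` is not trivial then the entropy increments
of `P = (toPA mu _).coeff` are at least `e > 0` and nonincreasing. `C1` is the constant `C` of `en_comp` for `P`, `P0`. For `j ≥ j0` take `ξ` from the hypothesis,
`η` from `en_abs`, normalise by `sq η`: `ξ' = (sqrt (sq η))⁻¹ • η`, `S = η.support`: `∑ ξ'^2 = 1`, `∑ ξ' op ξ' = 1 - en P ξ' ≥ 1 - C1 en P0 ξ' ≥ 1 - C1 / 4^j`.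
`series_bound` contradicts the divergence.
-/

namespace Pool.Agent.H34.RP

open Pool.Agent.H34.LS

universe u

variable {G : Type u} [Group G]

omit [Group G] in
private theorem t1_sq_smul (c : ℝ) (ξ : G →₀ ℝ) : sq (c • ξ) = c ^ 2 * sq ξ := by
  unfold sq
  rw [Finsupp.sum_smul_index' (fun _ => by norm_num), Finsupp.sum, Finsupp.sum, Finset.mul_sum]
  refine Finset.sum_congr rfl fun x _ => ?_
  rw [smul_eq_mul, mul_pow]

omit [Group G] in
private theorem t1_sq_pos {ξ : G →₀ ℝ} (h : ξ ≠ 0) : 0 < sq ξ := by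
  unfold sq
  obtain ⟨x, hx⟩ := Finsupp.support_nonempty_iff.mpr h
  refine Finset.sum_pos (fun y hy => ?_) ⟨x, hx⟩
  have := Finsupp.mem_support_iff.mp hy
  positivity

/-- the normalised test function -/
private theorem t1_norm {P P0 : G →₀ ℝ} (hP : Prb P) {C1 : ℝ} (hC1 : 0 < C1)
    (hcomp : ∀ ξ : G →₀ ℝ, en P ξ ≤ C1 * en P0 ξ) {d : ℝ} {ξ : G →₀ ℝ} (hξ : ξ ≠ 0)
    (hen : en P0 ξ ≤ d * sq ξ) :
    ∃ (S : Finset G) (ζ : G → ℝ), (∀ x, 0 ≤ ζ x) ∧ ∑ x ∈ S, ζ x ^ 2 = 1 ∧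
      1 - C1 * d ≤ ∑ x ∈ S, ζ x * op S (ker P) ζ x ∧ S.card = ξ.support.card := by
  obtain ⟨η, hη0, hηs, hηq, hηe⟩ := en_abs hP.nonneg ξ
  have hs : 0 < sq η := by
    rw [hηq]
    exact t1_sq_pos hξ
  set c : ℝ := (Real.sqrt (sq η))⁻¹ with hc
  have hc0 : 0 < c := by positivity
  have hc2 : c ^ 2 * sq η = 1 := by
    rw [hc, inv_pow, Real.sq_sqrt hs.le, inv_mul_cancel₀ hs.ne']
  have hsupp : (c • η).support = η.support := by
    ext x
    rw [Finsupp.mem_support_iff, Finsupp.mem_support_iff, Finsupp.smul_apply, smul_eq_mul]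
    constructor
    · intro h h'
      exact h (by rw [h', mul_zero])
    · intro h
      exact mul_ne_zero hc0.ne' h
  refine ⟨(c • η).support, fun x => (c • η) x, fun x => ?_, ?_, ?_, ?_⟩
  · show 0 ≤ (c • η) x
    rw [Finsupp.smul_apply, smul_eq_mul]
    exact mul_nonneg hc0.le (hη0 x)
  · have h1 : ∑ x ∈ (c • η).support, (c • η) x ^ 2 = sq (c • η) := rfl
    rw [h1, t1_sq_smul, hc2]
  · have h1 := op_en hP (c • η)
    rw [h1, t1_sq_smul, hc2, en_smul]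
    have h2 : en P η ≤ C1 * (d * sq η) := by
      rw [hηq]
      exact hηe.trans ((hcomp ξ).trans (mul_le_mul_of_nonneg_left hen hC1.le))
    have h3 : c ^ 2 * en P η ≤ c ^ 2 * (C1 * (d * sq η)) := mul_le_mul_of_nonneg_left h2 (by positivity)
    have h4 : c ^ 2 * (C1 * (d * sq η)) = C1 * d * (c ^ 2 * sq η) := by ring
    rw [h4, hc2, mul_one] at h3
    linarith
  · rw [hsupp, hηs]

theorem criterion {P0 : G →₀ ℝ} (hP0 : Prb P0)
    (hg0 : Submonoid.closure (Function.support P0) = ⊤) {K : ℕ → ℝ} (hK : ∀ j, 0 ≤ K j) (j0 : ℕ)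
    (hξ : ∀ j, j0 ≤ j → ∃ ξ : G →₀ ℝ, ξ ≠ 0 ∧ en P0 ξ ≤ 1 / 4 ^ j * sq ξ ∧
      Real.log ξ.support.card ≤ 4 ^ j * K j)
    (hdiv : ∀ c : ℝ, 0 < c → ¬ Summable (fun j => Real.exp (-(c * K j))))
    {mu : G → ℝ} (h : IsFSProb mu) (hg : Generating mu) (hs : Symm mu) : TrivialBoundary mu := by
  rw [triv_iff h]
  set p := toPA mu h.finite with hp
  have hpa : PA p := toPA_pa h
  by_contra hcon
  have hex : ∃ e : ℝ, 0 < e ∧ ∀ n : ℕ, e ≤ ent (p ^ (n + 1)) - ent (p ^ n) := by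
    by_contra hne
    push Not at hne
    exact hcon (liou_of_small hpa (toPA_gen h hg) hne)
  obtain ⟨e, he, hent⟩ := hex
  set P : G →₀ ℝ := p.coeff with hP
  have hPrb : Prb P := prb_of h
  have hAA : ∀ j, fent (pw P (j + 1)) - fent (pw P j) = ent (p ^ (j + 1)) - ent (p ^ j) := by
    intro j
    rw [hP, ← pw_coeff, ← pw_coeff]
    rfl
  have hA : ∀ j, e ≤ fent (pw P (j + 1)) - fent (pw P j) := fun j => by rw [hAA]; exact hent j
  have hanti : Antitone (fun n : ℕ => fent (pw P (n + 1)) - fent (pw P n)) := by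
    refine antitone_nat_of_succ_le fun j => ?_
    show fent (pw P (j + 1 + 1)) - fent (pw P (j + 1)) ≤ fent (pw P (j + 1)) - fent (pw P j)
    rw [hAA, hAA]
    exact ent_mono hpa j
  obtain ⟨L, hL0, hL⟩ : ∃ L : ℝ, 0 ≤ L ∧ ∀ g, P g ≠ 0 → - Real.log (P g) ≤ L := by
    refine ⟨∑ g ∈ P.support, |Real.log (P g)|, Finset.sum_nonneg fun _ _ => abs_nonneg _, fun g hg0 => ?_⟩
    refine (neg_le_abs _).trans ?_
    exact Finset.single_le_sum (f := fun g => |Real.log (P g)|) (fun _ _ => abs_nonneg _)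
      (Finsupp.mem_support_iff.2 hg0)
  obtain ⟨C1, hC1, hcomp⟩ := en_comp (P := P) (P0 := P0) hPrb.nonneg hP0.nonneg hg0
  obtain ⟨C, hC, hsum⟩ := series_bound hPrb (fun g => hs g) hL0 hL he hA hanti hC1 hK j0 (by
    intro j hj
    obtain ⟨ξ, hξ0, hξe, hξc⟩ := hξ j hj
    obtain ⟨S, ζ, h1, h2, h3, h4⟩ := t1_norm hPrb hC1 hcomp hξ0 hξe
    refine ⟨S, ζ, h1, h2, ?_, ?_⟩
    · rw [mul_one_div] at h3
      exact h3
    · rw [h4]
      exact hξc)
  exact hdiv C hC hsum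

end Pool.Agent.H34.RP
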