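import Pool.Agent.H34.RP.B3
import Pool.Agent.H34.RP.R1
import Pool.Agent.H34.RP.Stm

/-!
T3a: `retLog_nonneg`, `retLog_mono`: `p (2 k) = sq (pw k)` and `sq (pw (k + 1)) ≤ sq (pw k)`, because `pw (k + 1)` is an average of right
translates of `pw k` (`avg_pw`) and `(sum_g P g a_g)^2 ≤ sum_g P g a_g^2`.
-/

set_option autoImplicit false

namespace Pool.Agent.H34.RP.T3a

open Pool.Agent.H34.LS Pool.Agent.H34.RP

universe u

variable {G : Type u} [Group G]

private theorem t3a_jensen {P : G →₀ ℝ} (hP : Prb P) (a : G → ℝ) :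
    (P.sum (fun g c => c * a g)) ^ 2 ≤ P.sum (fun g c => c * a g ^ 2) := by
  have h1 : ∑ g ∈ P.support, P g = 1 := hP.total
  set m := P.sum (fun g c => c * a g) with hm
  have hm' : ∑ g ∈ P.support, P g * a g = m := rfl
  have h2 : 0 ≤ ∑ g ∈ P.support, P g * (a g - m) ^ 2 :=
    Finset.sum_nonneg fun g _ => mul_nonneg (hP.nonneg g) (sq_nonneg _)
  have h3 : ∑ g ∈ P.support, P g * (a g - m) ^ 2 =
      ∑ g ∈ P.support, P g * a g ^ 2 - 2 * m * ∑ g ∈ P.support, P g * a g +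
        m ^ 2 * ∑ g ∈ P.support, P g := by
    rw [Finset.mul_sum, Finset.mul_sum, ← Finset.sum_sub_distrib, ← Finset.sum_add_distrib]
    refine Finset.sum_congr rfl fun g _ => ?_
    ring
  rw [h3, hm', h1] at h2
  show m ^ 2 ≤ ∑ g ∈ P.support, P g * a g ^ 2
  linarith

private theorem t3a_part (f : G →₀ ℝ) (T : Finset G) : ∑ x ∈ T, f x ^ 2 ≤ sq f := by
  classical
  rw [sq_sum f (T := T ∪ f.support) Finset.subset_union_right]
  exact Finset.sum_le_sum_of_subset_of_nonneg Finset.subset_union_left fun x _ _ => sq_nonneg _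

private theorem t3a_sq_le {P : G →₀ ℝ} (hP : Prb P) (hs : ∀ g, P g⁻¹ = P g) (k : ℕ) :
    sq (pw P (k + 1)) ≤ sq (pw P k) := by
  have h1 : ∀ x, (pw P (k + 1) x) ^ 2 ≤ ∑ g ∈ P.support, P g * (rt g (pw P k) x) ^ 2 := by
    intro x
    have h2 := t3a_jensen hP (fun g => pw P k (x * g))
    rw [avg_pw hs k x] at h2
    refine h2.trans (le_of_eq ?_)
    refine Finset.sum_congr rfl fun g _ => ?_
    rw [rt_apply]
  have h3 : ∑ g ∈ P.support, P g = 1 := hP.total
  calc sq (pw P (k + 1)) = ∑ x ∈ (pw P (k + 1)).support, (pw P (k + 1) x) ^ 2 := rfl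
    _ ≤ ∑ x ∈ (pw P (k + 1)).support, ∑ g ∈ P.support, P g * (rt g (pw P k) x) ^ 2 :=
        Finset.sum_le_sum fun x _ => h1 x
    _ = ∑ g ∈ P.support, P g * ∑ x ∈ (pw P (k + 1)).support, (rt g (pw P k) x) ^ 2 := by
        rw [Finset.sum_comm]
        exact Finset.sum_congr rfl fun g _ => (Finset.mul_sum _ _ _).symm
    _ ≤ ∑ g ∈ P.support, P g * sq (pw P k) := by
        refine Finset.sum_le_sum fun g _ => mul_le_mul_of_nonneg_left ?_ (hP.nonneg g)
        rw [← sq_rt g (pw P k)]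
        exact t3a_part _ _
    _ = sq (pw P k) := by rw [← Finset.sum_mul, h3, one_mul]

private theorem t3a_eq {P : G →₀ ℝ} (hs : ∀ g, P g⁻¹ = P g) (k : ℕ) : pw P (2 * k) 1 = sq (pw P k) := by
  rw [two_mul, ← ip_pw hs k k]
  exact Finset.sum_congr rfl fun x _ => (pow_two _).symm

theorem retLog_nonneg {mu : G → ℝ} (h : IsFSProb mu) (hs : Symm mu) (n : ℕ) : 0 ≤ retLog mu n := by
  unfold retLog
  rw [cpow_eq h]
  have h1 := Real.log_nonpos (pw_nonneg (prb_of h).nonneg (2 * n) 1) (pw_le_one (prb_of h).nonneg (prb_of h).total (2 * n) 1)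
  linarith

theorem retLog_mono {mu : G → ℝ} (h : IsFSProb mu) (hs : Symm mu) : Monotone (retLog mu) := by
  refine monotone_nat_of_le_succ fun n => ?_
  unfold retLog
  rw [cpow_eq h, cpow_eq h]
  have hs' : ∀ g, (toPA mu h.finite).coeff g⁻¹ = (toPA mu h.finite).coeff g := fun g => hs g
  have h1 : pw (toPA mu h.finite).coeff (2 * (n + 1)) 1 ≤ pw (toPA mu h.finite).coeff (2 * n) 1 := by
    rw [t3a_eq hs', t3a_eq hs']
    exact t3a_sq_le (prb_of h) hs' n
  have h2 := Real.log_le_log (ret_pos (prb_of h) hs' (n + 1)) h1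
  linarith

end Pool.Agent.H34.RP.T3a
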