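import Pool.Agent.H34.RP.T1
import Pool.Agent.H34.RP.B4
import Pool.Agent.H34.RP.C2
import Pool.Agent.H34.RP.R2
import Pool.Agent.H34.RP.T3a

/-!
T3: the criteria in final form. `return_series`: `P0 = (toPA mu0 _).coeff`, `ψ j = retLog mu0 (2^j) = - log (pw P0 (2 * 2^j) 1) ≥ 0` (`cpow_eq`, `pw_le_one`, `ret_pos`); `b j = ψ j + 1 ≥ 1`;
`b j ^ 2 ≤ 2 ψ j ^ 2 + 2`, so `exp (-(c * (b j^2 / 2^j))) ≥ exp (- 2 c) * exp (-(2 c * (ψ j^2 / 2^j)))` and the divergence passes to `b`. `conv` gives `J`; `criterion` with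
`K i = (b (J i) + 3) / 4^i`, `j0 = 0`, test functions `ret_test` at `k = 2^(J i)`: `en ≤ 4 * (ψ / 2^J) * sq ≤ 1 / 4^i * sq` (`ψ ≤ b`), `log card ≤ ψ + log 16 ≤ b + 3` (`log 16 ≤ 4` suffices, as `b = ψ + 1`).
`folner_series`: `criterion`, `energy_eq`, `norm2_eq` (`K j ≥ 0` because `ξ ≠ 0` has nonempty support: `0 ≤ log card ≤ 4^j K j`).
`retLog_nonneg`, `retLog_mono`: `ret_pos`, `ret_log` style: `p (2 k + 2) ≤ p (2 k)` (`p (2k+2) = sq (pw (k+1))`, and `ip_pw` with Cauchy-Schwarz or: `p (2k+2) ^ 2 ≤ p (2k) * p (2k+4)`; simplest: `en P (pw P k) ≥ 0`-type argument, `p (2k) - p (2k+2)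
= sq (pw k) - sq (pw (k+1))` and `sq (pw (k+1)) ≤ sq (pw k)` since `pw (k+1) = sum_g P g rt.. (pw k)` is an average of translates of `pw k`, `(sum_g P g a_g)^2 ≤ sum_g P g a_g^2`).
-/

namespace Pool.Agent.H34.RP

open Pool.Agent.H34.LS

universe u

variable {G : Type u} [Group G]

theorem retLog_nonneg {mu : G → ℝ} (h : IsFSProb mu) (hs : Symm mu) (n : ℕ) : 0 ≤ retLog mu n :=
  T3a.retLog_nonneg h hs n

theorem retLog_mono {mu : G → ℝ} (h : IsFSProb mu) (hs : Symm mu) : Monotone (retLog mu) :=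
  T3a.retLog_mono h hs

theorem return_series {mu0 : G → ℝ} (h0 : IsFSProb mu0) (hg0 : Generating mu0) (hs0 : Symm mu0)
    (hdiv : Diverges (fun j => retLog mu0 (2 ^ j) ^ 2 / 2 ^ j)) : AllTrivial G := by
  have hψ0 : ∀ j : ℕ, 0 ≤ retLog mu0 (2 ^ j) := fun j => retLog_nonneg h0 hs0 _
  have hdiv' : ∀ c : ℝ, 0 < c → ¬ Summable (fun j : ℕ =>
      Real.exp (-(c * ((retLog mu0 (2 ^ j) + 1) ^ 2 / 2 ^ j)))) := by
    intro c hc hsum
    apply hdiv (2 * c) (by linarith)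
    have h1 : Summable (fun j : ℕ => Real.exp (2 * c) *
        Real.exp (-(c * ((retLog mu0 (2 ^ j) + 1) ^ 2 / 2 ^ j)))) := hsum.mul_left _
    refine Summable.of_nonneg_of_le (fun j => (Real.exp_pos _).le) (fun j => ?_) h1
    show Real.exp (-(2 * c * (retLog mu0 (2 ^ j) ^ 2 / 2 ^ j))) ≤ _
    rw [← Real.exp_add]
    apply Real.exp_le_exp.mpr
    have h2 : (1 : ℝ) ≤ 2 ^ j := one_le_pow₀ (by norm_num)
    have h3 : (retLog mu0 (2 ^ j) + 1) ^ 2 / 2 ^ j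
        ≤ 2 * (retLog mu0 (2 ^ j) ^ 2 / 2 ^ j) + 2 := by
      have h4 : (retLog mu0 (2 ^ j) + 1) ^ 2 ≤ 2 * retLog mu0 (2 ^ j) ^ 2 + 2 * 2 ^ j := by
        nlinarith [sq_nonneg (retLog mu0 (2 ^ j) - 1)]
      rw [div_le_iff₀ (by positivity)]
      have h5 : (2 * (retLog mu0 (2 ^ j) ^ 2 / 2 ^ j) + 2) * 2 ^ j
          = 2 * retLog mu0 (2 ^ j) ^ 2 + 2 * 2 ^ j := by
        field_simp
      rw [h5]
      exact h4
    have h6 := mul_le_mul_of_nonneg_left h3 hc.le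
    linarith
  obtain ⟨J, hJ1, hJ2⟩ := conv (b := fun j => retLog mu0 (2 ^ j) + 1)
    (fun j => by linarith [hψ0 j]) hdiv'
  intro mu h hg hs
  have hP0 := prb_of h0
  have hsP : ∀ g, (toPA mu0 h0.finite).coeff g⁻¹ = (toPA mu0 h0.finite).coeff g := by
    intro g
    rw [coeff_of h0, coeff_of h0]
    exact hs0 g
  refine criterion hP0 (P0 := (toPA mu0 h0.finite).coeff) ?_
    (K := fun i => (retLog mu0 (2 ^ (J i)) + 1 + 3) / 4 ^ i) ?_ 0 ?_ hJ2 h hg hs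
  · rw [supp_of h0]
    exact hg0
  · intro i
    have := hψ0 (J i)
    positivity
  · intro i _
    obtain ⟨η, hη0, -, hη1, hη2⟩ := ret_test hP0 hsP (k := 2 ^ (J i)) Nat.one_le_two_pow
    have e1 : -Real.log (pw (toPA mu0 h0.finite).coeff (2 * 2 ^ (J i)) 1)
        = retLog mu0 (2 ^ (J i)) := by
      unfold retLog
      rw [cpow_eq h0]
    rw [e1] at hη1 hη2
    push_cast at hη1
    refine ⟨η, hη0, ?_, ?_⟩
    · refine le_trans hη1 (mul_le_mul_of_nonneg_right ?_ (sq_nonneg' η))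
      refine le_trans ?_ (hJ1 i)
      have h2 : (0 : ℝ) < 2 ^ (J i) := by positivity
      have h3 : retLog mu0 (2 ^ (J i)) / 2 ^ (J i)
          ≤ (retLog mu0 (2 ^ (J i)) + 1) / 2 ^ (J i) :=
        div_le_div_of_nonneg_right (by linarith) h2.le
      linarith
    · have h16 : Real.log 16 ≤ 4 := by
        have h : (16 : ℝ) = 2 ^ 4 := by norm_num
        rw [h, Real.log_pow]
        have := Real.log_two_lt_d9
        push_cast
        linarith
      have h4 : (4 : ℝ) ^ i * ((retLog mu0 (2 ^ (J i)) + 1 + 3) / 4 ^ i)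
          = retLog mu0 (2 ^ (J i)) + 1 + 3 := by
        field_simp
      rw [h4]
      linarith

theorem folner_series {mu0 : G → ℝ} (h0 : IsFSProb mu0) (hg0 : Generating mu0) {K : ℕ → ℝ}
    (hK : TestFunctions mu0 K) (hdiv : Diverges K) : AllTrivial G := by
  intro mu h hg hs
  refine criterion (prb_of h0) (P0 := (toPA mu0 h0.finite).coeff) ?_ (K := K) ?_ 0 ?_ hdiv h hg hs
  · rw [supp_of h0]
    exact hg0
  · intro j
    obtain ⟨ξ, hξ0, -, hξ2⟩ := hK j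
    have h1 : (1 : ℝ) ≤ (ξ.support.card : ℝ) := by
      have : 0 < ξ.support.card := by
        rw [Finset.card_pos]
        exact Finsupp.support_nonempty_iff.mpr hξ0
      exact_mod_cast this
    have h2 : 0 ≤ (4 : ℝ) ^ j * K j := le_trans (Real.log_nonneg h1) hξ2
    exact nonneg_of_mul_nonneg_right h2 (by positivity)
  · intro j _
    obtain ⟨ξ, hξ0, hξ1, hξ2⟩ := hK j
    refine ⟨ξ, hξ0, ?_, hξ2⟩
    rw [← energy_eq h0, ← norm2_eq]
    exact hξ1

end Pool.Agent.H34.RP
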